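import Pool.Agent.Helper116.RR.ExistsPrim

set_option autoImplicit false
set_option linter.all false

namespace H116RR

open Polynomial

variable {R : Type*} [CommRing R] {F : Type*} [Field F]

/-- the content detects the minimal multiplicity of a root among the coefficients -/
theorem cont_rootMultiplicity {G : F[X][X]} (hG : G ≠ 0) (a : F) :
    (∀ i ∈ G.support, (cont G).rootMultiplicity a ≤ (G.coeff i).rootMultiplicity a) ∧
      ∃ i ∈ G.support, (G.coeff i).rootMultiplicity a = (cont G).rootMultiplicity a := by
  classical
  obtain ⟨G1, hG1, hspan⟩ := exists_prim hG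
  have hc := cont_ne_zero hG
  have hcoef : ∀ i, G.coeff i = cont G * G1.coeff i := by
    intro i
    conv_lhs => rw [hG1]
    rw [coeff_C_mul]
  have hmul : ∀ i, G.coeff i ≠ 0 → (G.coeff i).rootMultiplicity a
      = (cont G).rootMultiplicity a + (G1.coeff i).rootMultiplicity a := by
    intro i hi
    rw [hcoef i] at hi ⊢
    exact rootMultiplicity_mul hi
  constructor
  · intro i hi
    rw [hmul i (mem_support_iff.mp hi)]
    exact Nat.le_add_right _ _
  · have hex : ∃ i, (G1.coeff i).eval a ≠ 0 := by
      by_contra hcon
      push Not at hcon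
      have h1 : Ideal.span (Set.range G1.coeff) ≤ Ideal.span {X - C a} := by
        rw [Ideal.span_le]
        rintro _ ⟨i, rfl⟩
        exact Ideal.mem_span_singleton.mpr (dvd_iff_isRoot.mpr (hcon i))
      rw [hspan, top_le_iff, Ideal.span_singleton_eq_top] at h1
      exact (prime_X_sub_C a).not_unit h1
    obtain ⟨i, hi⟩ := hex
    have hi0 : G1.coeff i ≠ 0 := by
      intro h0
      rw [h0, eval_zero] at hi
      exact hi rfl
    have hGi : G.coeff i ≠ 0 := by
      rw [hcoef i]
      exact mul_ne_zero hc hi0
    refine ⟨i, mem_support_iff.mpr hGi, ?_⟩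
    rw [hmul i hGi, rootMultiplicity_eq_zero hi, add_zero]

end H116RR
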