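import Pool.Agent.Helper386.FF.Div

/-! Reduction of heights from characteristic zero to characteristic `p`: definitions. -/

set_option autoImplicit false
set_option linter.all false

namespace H116RR

open FF Polynomial

/-- The minimum of the orders of the nonzero entries of a vector (zero for the zero vector). -/
noncomputable def vord {F K : Type*} [Field F] [Field K] [Algebra F K] {ι : Type*} [Fintype ι]
    (w : Place F K) (y : ι → K) : ℤ := by
  classical
  exact if h : (Finset.univ.filter (fun a => y a ≠ 0)).Nonempty then
    (Finset.univ.filter (fun a => y a ≠ 0)).inf' h (fun a => w.ord (y a)) else 0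

/-- The height of a vector over a function field (all places have degree one when the constant
field is algebraically closed). -/
noncomputable def hgt (F : Type*) {K : Type*} [Field F] [Field K] [Algebra F K] {ι : Type*}
    [Fintype ι] (y : ι → K) : ℤ := - ∑ᶠ w : Place F K, vord w y

/-- Gauss order of a polynomial: the minimum of the orders of its nonzero coefficients. -/
noncomputable def gord {F K : Type*} [Field F] [Field K] [Algebra F K]
    (w : Place F K) (q : K[X]) : ℤ :=
  if h : q.support.Nonempty then q.support.inf' h (fun i => w.ord (q.coeff i)) else 0

/-- The height of a polynomial. -/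
noncomputable def hgtP (F : Type*) {K : Type*} [Field F] [Field K] [Algebra F K] (q : K[X]) : ℤ :=
  - ∑ᶠ w : Place F K, gord w q

/-- Elements of `R[X][X]` are polynomials in `u` with coefficients in `R[t]`; elements of
`R[X][X][X]` are polynomials in `Y` with coefficients in `R[t][u]`. The norm form is the resultant
in `Y` of `P ∈ R[t][Y]` and `q ∈ R[t][u][Y]`. -/
noncomputable def NF {R : Type*} [CommRing R] (P : R[X][X]) (q : R[X][X][X]) (M : ℕ) : R[X][X] :=
  (P.map (C : R[X] →+* R[X][X])).resultant q P.natDegree M

/-- Content (a generator of the ideal of the coefficients). -/
noncomputable def cont {F : Type*} [Field F] (G : F[X][X]) : F[X] :=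
  Submodule.IsPrincipal.generator (Ideal.span (Set.range G.coeff))

/-- degree in the inner variable `t` -/
noncomputable def tdeg {R : Type*} [CommRing R] (G : R[X][X]) : ℕ :=
  G.support.sup fun i => (G.coeff i).natDegree

/-- The height of a polynomial over `F(t)`. -/
noncomputable def H {F : Type*} [Field F] (G : F[X][X]) : ℤ := (tdeg G : ℤ) - (cont G).natDegree

end H116RR
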