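import Pool.Agent.Helper116.RR.Defs

set_option autoImplicit false
set_option linter.all false

theorem FF.Place.reg_of_isIntegral' {k L : Type*} [Field k] [Field L] [Algebra k L] {A : Type*}
    [CommRing A] [Algebra A L] (P : FF.Place k L)
    (h : ∀ a : A, P.Reg (algebraMap A L a)) {b : L} (hb : IsIntegral A b) : P.Reg b :=
  P.reg_of_isIntegral h hb

namespace H116RR

open FF Polynomial IntermediateField

/-- evaluation of `q(t, u, Y)` at `t, θ ∈ K`, a polynomial in `u` over `K` -/
noncomputable def ev {F K : Type*} [Field F] [Field K] [Algebra F K] (t θ : K) (q : F[X][X][X]) : K[X] :=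
  q.eval₂ (mapRingHom (aeval t : F[X] →ₐ[F] K).toRingHom) (C θ)

/-- The setting: `K = F(t)(θ)`, `P` the minimal polynomial of `θ`. -/
structure Gen (F K : Type*) [Field F] [Field K] [Algebra F K] (t θ : K) (P : F[X][X]) : Prop where
  tr : Transcendental F t
  monic : P.Monic
  root : P.eval₂ (aeval t : F[X] →ₐ[F] K).toRingHom θ = 0
  top : F⟮t⟯⟮θ⟯ = ⊤
  deg : P.natDegree = Module.finrank F⟮t⟯ K
  fin : FiniteDimensional F⟮t⟯ K
  sep : Algebra.IsSeparable F⟮t⟯ K

theorem Gen.isFF {F K : Type*} [Field F] [Field K] [Algebra F K] {t θ : K} {P : F[X][X]}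
    (h : Gen F K t θ P) : IsFF F K :=
  haveI := h.fin
  IsFF.of_finite h.tr inferInstance

/-- the polynomial of a vector -/
noncomputable def vpoly {A : Type*} [CommRing A] {ι : Type*} [Fintype ι] (y : ι → A) : A[X] :=
  ∑ a : ι, monomial ((Fintype.equivFin ι a : Fin _) : ℕ) (y a)

abbrev Qb : Type := AlgebraicClosure ℚ

/-- the algebraic integers -/
abbrev Zb : Type := integralClosure ℤ (AlgebraicClosure ℚ)

abbrev Fb (p : ℕ) [Fact p.Prime] : Type := AlgebraicClosure (ZMod p)

/-- evaluation of a polynomial in `R[t][Y]` at `t, θ ∈ K`, through a ring homomorphism `R → F` -/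
noncomputable def evR {R F K : Type*} [CommRing R] [Field F] [Field K] [Algebra F K] (φ : R →+* F)
    (t θ : K) : R[X][X] →+* K :=
  eval₂RingHom (eval₂RingHom ((algebraMap F K).comp φ) t) θ

/-- the polynomial in `R[t][u][Y]` of a vector in `R[t][Y]` -/
noncomputable def qpoly {R : Type*} [CommRing R] {ι : Type*} [Fintype ι] (f : ι → R[X][X]) : R[X][X][X] :=
  ∑ a : ι, (f a).map (C : R[X] →+* R[X][X]) * C (X ^ ((Fintype.equivFin ι a : Fin _) : ℕ))

end H116RR
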