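import Pool.Agent.Helper116.RR.Defs2

set_option autoImplicit false
set_option linter.all false

namespace H116RR

open Polynomial IntermediateField

variable {F K : Type*} [Field F] [Field K] [Algebra F K]

theorem dvd_of_ev_eq_zero {K : Type} [Field K] [Algebra Qb K] {t θ : K} {P : Zb[X][X]}
    (hP : P.Monic) (h : Gen Qb K t θ (P.map (mapRingHom (algebraMap Zb Qb)))) {W : Zb[X][X]}
    (hW : evR (algebraMap Zb Qb) t θ W = 0) : P ∣ W := by
  have hio : Function.Injective (algebraMap Zb Qb) := Subtype.val_injective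
  -- the coefficient homomorphism to K
  have hcomp : (aeval t : Qb[X] →ₐ[Qb] K).toRingHom.comp (mapRingHom (algebraMap Zb Qb))
      = eval₂RingHom ((algebraMap Qb K).comp (algebraMap Zb Qb)) t := by
    apply Polynomial.ringHom_ext
    · intro a
      simp
    · simp
  have hevP : evR (algebraMap Zb Qb) t θ P = 0 := by
    have h1 := h.root
    rw [Polynomial.eval₂_map, hcomp] at h1
    exact h1
  have hR : evR (algebraMap Zb Qb) t θ (W %ₘ P) = 0 := by
    have h1 := congrArg (evR (algebraMap Zb Qb) t θ) (Polynomial.modByMonic_add_div W P)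
    rw [map_add, map_mul, hevP, zero_mul, add_zero, hW] at h1
    exact h1
  let σ : Zb[X] →+* Qb⟮t⟯ := (aeval (AdjoinSimple.gen Qb t) : Qb[X] →ₐ[Qb] Qb⟮t⟯).toRingHom.comp
    (mapRingHom (algebraMap Zb Qb))
  have hσK : (algebraMap Qb⟮t⟯ K).comp σ
      = eval₂RingHom ((algebraMap Qb K).comp (algebraMap Zb Qb)) t := by
    rw [← hcomp]
    apply Polynomial.ringHom_ext
    · intro a
      simp only [σ, RingHom.comp_apply, coe_mapRingHom, map_C, AlgHom.toRingHom_eq_coe,
        RingHom.coe_coe, aeval_C]
      exact (IsScalarTower.algebraMap_apply Qb Qb⟮t⟯ K _).symm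
    · simp only [σ, RingHom.comp_apply, coe_mapRingHom, map_X, AlgHom.toRingHom_eq_coe,
        RingHom.coe_coe, aeval_X]
      exact AdjoinSimple.algebraMap_gen Qb t
  have hσinj : Function.Injective σ := by
    rw [injective_iff_map_eq_zero]
    intro c hc
    have h1 : (algebraMap Qb⟮t⟯ K).comp σ c = 0 := by
      rw [RingHom.comp_apply, hc, map_zero]
    rw [hσK, ← hcomp] at h1
    have h2 : aeval t (c.map (algebraMap Zb Qb)) = 0 := h1
    have h3 : c.map (algebraMap Zb Qb) = 0 := by
      by_contra hne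
      exact h.tr ⟨_, hne, h2⟩
    exact (Polynomial.map_eq_zero_iff hio).mp h3
  have hroot : aeval θ ((W %ₘ P).map σ) = 0 := by
    rw [Polynomial.aeval_def, Polynomial.eval₂_map, hσK]
    exact hR
  have hmon : (P.map (mapRingHom (algebraMap Zb Qb))).natDegree = P.natDegree :=
    hP.natDegree_map _
  haveI := h.fin
  have hint : IsIntegral Qb⟮t⟯ θ := IsIntegral.of_finite Qb⟮t⟯ θ
  have hfr : (minpoly Qb⟮t⟯ θ).natDegree = P.natDegree := by
    rw [← hmon, h.deg, ← IntermediateField.adjoin.finrank hint, h.top,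
      IntermediateField.finrank_top']
  have hQ : (W %ₘ P).map σ = 0 := by
    by_contra hne
    have h1 := minpoly.degree_le_of_ne_zero Qb⟮t⟯ θ hne hroot
    have h2 : (W %ₘ P).degree < P.degree := Polynomial.degree_modByMonic_lt W hP
    have h3 : ((W %ₘ P).map σ).degree ≤ (W %ₘ P).degree := Polynomial.degree_map_le
    have h4 : (minpoly Qb⟮t⟯ θ).degree = P.degree := by
      rw [Polynomial.degree_eq_natDegree (minpoly.ne_zero hint), hfr,
        Polynomial.degree_eq_natDegree hP.ne_zero]
    rw [h4] at h1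
    exact absurd (h1.trans h3) (not_le.mpr h2)
  have hR0 : W %ₘ P = 0 := (Polynomial.map_eq_zero_iff hσinj).mp hQ
  exact (Polynomial.modByMonic_eq_zero_iff_dvd hP).mp hR0

end H116RR
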