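import Pool.Agent.Helper116.RR.Defs2

set_option autoImplicit false
set_option linter.all false

namespace H116RR

open Polynomial IntermediateField



theorem eventually_ne {a : Zb} (ha : a ≠ 0) :
    ∃ N : ℕ, ∀ p : ℕ, ∀ _ : Fact p.Prime, N < p → ∀ ρ : Zb →+* Fb p, ρ a ≠ 0 := by
  have hint : IsIntegral ℤ a := by
    rw [← isIntegral_algebraMap_iff (A := Zb) (B := AlgebraicClosure ℚ)
      Subtype.val_injective]
    exact a.2
  obtain ⟨r, hr, b, hb⟩ := hint.isAlgebraic.exists_nonzero_dvd (mem_nonZeroDivisors_of_ne_zero ha)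
  refine ⟨r.natAbs, ?_⟩
  intro p hp hNp ρ h0
  have h1 : ρ (algebraMap ℤ Zb r) = 0 := by
    rw [hb, map_mul, h0, zero_mul]
  have h2 : ((r : ℤ) : Fb p) = 0 := by
    have : ρ (algebraMap ℤ Zb r) = ((r : ℤ) : Fb p) := by
      rw [eq_intCast (algebraMap ℤ Zb) r, map_intCast]
    rw [← this]
    exact h1
  have hchar : CharP (Fb p) p := charP_of_injective_algebraMap
    (algebraMap (ZMod p) (AlgebraicClosure (ZMod p))).injective p
  rw [CharP.intCast_eq_zero_iff (Fb p) p] at h2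
  have h3 : p ∣ r.natAbs := Int.natCast_dvd.1 h2
  have h4 : 0 < r.natAbs := Int.natAbs_pos.2 hr
  have h5 := Nat.le_of_dvd h4 h3
  omega

end H116RR
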