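import Pool.Agent.Helper116.RR.Defs2

set_option autoImplicit false
set_option linter.all false

namespace H116RR

open Polynomial IntermediateField



theorem evR_hom_eq {R F K : Type*} [CommRing R] [Field F] [Field K] [Algebra F K]
    (φ : R →+* F) (t : K) :
    eval₂RingHom ((algebraMap F K).comp φ) t
      = ((aeval t : F[X] →ₐ[F] K).toRingHom).comp (mapRingHom φ) := by
  apply Polynomial.ringHom_ext
  · intro a
    simp
  · simp

theorem evR_eq_aux {R F K : Type*} [CommRing R] [Field F] [Field K] [Algebra F K]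
    (φ : R →+* F) (t θ : K) (f : R[X][X]) :
    evR φ t θ f = (f.map (mapRingHom φ)).eval₂ (aeval t : F[X] →ₐ[F] K).toRingHom θ := by
  unfold evR
  rw [evR_hom_eq, eval₂_map]
  rfl

theorem ev_qpoly {R F K : Type*} [CommRing R] [Field F] [Field K] [Algebra F K] {ι : Type*} [Fintype ι]
    (φ : R →+* F) (t θ : K) (f : ι → R[X][X]) :
    ev t θ ((qpoly f).map (mapRingHom (mapRingHom φ))) = vpoly (fun a => evR φ t θ (f a)) := by
  unfold ev qpoly vpoly
  rw [Polynomial.map_sum, eval₂_finset_sum]
  refine Finset.sum_congr rfl fun a _ => ?_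
  beta_reduce
  rw [evR_eq_aux, Polynomial.map_mul, Polynomial.map_C, eval₂_mul, eval₂_C, Polynomial.map_map,
    eval₂_map]
  have h1 : (mapRingHom (aeval t : F[X] →ₐ[F] K).toRingHom).comp
      ((mapRingHom (mapRingHom φ)).comp (C : R[X] →+* R[X][X]))
      = (C : K →+* K[X]).comp (((aeval t : F[X] →ₐ[F] K).toRingHom).comp (mapRingHom φ)) := by
    apply RingHom.ext
    intro x
    simp
  rw [h1, ← hom_eval₂, eval₂_map]
  rw [← C_mul_X_pow_eq_monomial]
  simp

theorem evR_eq {R F K : Type*} [CommRing R] [Field F] [Field K] [Algebra F K]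
    (φ : R →+* F) (t θ : K) (f : R[X][X]) :
    evR φ t θ f = (f.map (mapRingHom φ)).eval₂ (aeval t : F[X] →ₐ[F] K).toRingHom θ :=
  evR_eq_aux φ t θ f

end H116RR
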