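import Pool.Agent.Helper116.RR.Defs2

set_option autoImplicit false
set_option linter.all false

namespace H116RR

open Polynomial IntermediateField



theorem aux_elem (x : Qb) : ∃ (d x' : Zb), d ≠ 0 ∧ algebraMap Zb Qb x' = algebraMap Zb Qb d * x := by
  have halg : IsAlgebraic ℤ x :=
    (IsFractionRing.isAlgebraic_iff ℤ ℚ Qb).mpr ((AlgebraicClosure.isAlgebraic ℚ).isAlgebraic x)
  obtain ⟨y, hy0, hy⟩ := halg.exists_integral_multiple
  refine ⟨algebraMap ℤ Zb y, ⟨y • x, hy⟩, ?_, ?_⟩
  · intro h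
    apply hy0
    have h2 : algebraMap Zb Qb (algebraMap ℤ Zb y) = 0 := by rw [h, map_zero]
    rw [← IsScalarTower.algebraMap_apply ℤ Zb Qb] at h2
    simpa using h2
  · show (y • x : Qb) = _
    rw [← IsScalarTower.algebraMap_apply ℤ Zb Qb, Algebra.smul_def]
theorem aux_inner (a : Qb[X]) : ∃ (d : Zb) (a' : Zb[X]), d ≠ 0 ∧
    a'.map (algebraMap Zb Qb) = C (algebraMap Zb Qb d) * a := by
  induction a using Polynomial.induction_on' with
  | add p q hp hq =>
    obtain ⟨d1, p', h1, e1⟩ := hp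
    obtain ⟨d2, q', h2, e2⟩ := hq
    refine ⟨d1 * d2, C d2 * p' + C d1 * q', mul_ne_zero h1 h2, ?_⟩
    rw [Polynomial.map_add, Polynomial.map_mul, Polynomial.map_mul, e1, e2, Polynomial.map_C,
      Polynomial.map_C, map_mul, C_mul]
    ring
  | monomial n x =>
    obtain ⟨d, x', h, e⟩ := aux_elem x
    refine ⟨d, monomial n x', h, ?_⟩
    rw [Polynomial.map_monomial, e, C_mul_monomial]
/-- clearing denominators -/
theorem exists_clear (G : Qb[X][X]) :
    ∃ (d : Zb) (G' : Zb[X][X]), d ≠ 0 ∧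
      G'.map (mapRingHom (algebraMap Zb Qb)) = C (C (algebraMap Zb Qb d)) * G := by
  induction G using Polynomial.induction_on' with
  | add p q hp hq =>
    obtain ⟨d1, p', h1, e1⟩ := hp
    obtain ⟨d2, q', h2, e2⟩ := hq
    refine ⟨d1 * d2, C (C d2) * p' + C (C d1) * q', mul_ne_zero h1 h2, ?_⟩
    rw [Polynomial.map_add, Polynomial.map_mul, Polynomial.map_mul, e1, e2, Polynomial.map_C,
      Polynomial.map_C, map_mul, C_mul, C_mul]
    simp only [coe_mapRingHom, Polynomial.map_C]
    ring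
  | monomial n x =>
    obtain ⟨d, x', h, e⟩ := aux_inner x
    refine ⟨d, monomial n x', h, ?_⟩
    rw [Polynomial.map_monomial, coe_mapRingHom, e, C_mul_monomial]

end H116RR
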