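import Pool.Agent.Helper116.RR.Defs2

set_option autoImplicit false
set_option linter.all false

namespace H116RR

open Polynomial IntermediateField



/-- factorization of a monic polynomial over `F[t]` -/
theorem exists_factor {F : Type*} [Field F] {P : F[X][X]} (hP : P.Monic) :
    ∃ (s : Finset F[X][X]) (e : F[X][X] → ℕ),
      (∀ Q ∈ s, Q.Monic ∧ Irreducible (Q.map (algebraMap F[X] (RatFunc F))) ∧ 0 < e Q) ∧
      P = ∏ Q ∈ s, Q ^ e Q := by
  classical
  have hP0 : P ≠ 0 := hP.ne_zero
  set m := UniqueFactorizationMonoid.normalizedFactors P with hm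
  have hirr : ∀ Q ∈ m, Irreducible Q := fun Q hQ =>
    UniqueFactorizationMonoid.irreducible_of_normalized_factor Q hQ
  have hmon : ∀ Q ∈ m, Q.Monic := by
    intro Q hQ
    have h1 : Q ∣ P := UniqueFactorizationMonoid.dvd_of_mem_normalizedFactors hQ
    obtain ⟨R, hR⟩ := h1
    have h2 : IsUnit Q.leadingCoeff := by
      refine IsUnit.of_mul_eq_one R.leadingCoeff ?_
      rw [← leadingCoeff_mul, ← hR]
      exact hP
    have h3 : normalize Q = Q := UniqueFactorizationMonoid.normalize_normalized_factor Q hQ
    have h4 : (normalize Q).leadingCoeff = normalize Q.leadingCoeff := leadingCoeff_normalize Q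
    rw [h3, normalize_eq_one.mpr h2] at h4
    exact h4
  have hprod : m.prod = P := by
    have h5 : (m.map id).prod.Monic := monic_multiset_prod_of_monic m id hmon
    rw [Multiset.map_id] at h5
    exact eq_of_monic_of_associated h5 hP (UniqueFactorizationMonoid.prod_normalizedFactors hP0)
  refine ⟨m.toFinset, fun Q => m.count Q, ?_, ?_⟩
  · intro Q hQ
    rw [Multiset.mem_toFinset] at hQ
    refine ⟨hmon Q hQ, ?_, Multiset.count_pos.mpr hQ⟩
    exact ((hmon Q hQ).irreducible_iff_irreducible_map_fraction_map).mp (hirr Q hQ)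
  · rw [← Finset.prod_multiset_count, hprod]

end H116RR
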