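import Pool.Agent.Helper116.RR.ExClear

set_option autoImplicit false
set_option linter.all false

namespace H116RR

open FF Polynomial IntermediateField

variable {F K : Type*} [Field F] [Field K] [Algebra F K]

theorem eg_inj : Function.Injective (algebraMap Zb Qb) := FaithfulSMul.algebraMap_injective Zb Qb

theorem eg_ev {K : Type} [Field K] [Algebra Qb K] (t : K) (B : Zb[X]) :
    eval₂RingHom ((algebraMap Qb K).comp (algebraMap Zb Qb)) t B =
      aeval t (B.map (algebraMap Zb Qb)) := by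
  rw [coe_eval₂RingHom, aeval_def, eval₂_map]

theorem eg_ne {K : Type} [Field K] [Algebra Qb K] {t : K} (ht : Transcendental Qb t) (B : Zb[X])
    (hB : B ≠ 0) : eval₂RingHom ((algebraMap Qb K).comp (algebraMap Zb Qb)) t B ≠ 0 := by
  rw [eg_ev]
  intro h
  have h1 := transcendental_iff.1 ht _ h
  apply hB
  apply Polynomial.map_injective _ eg_inj
  rw [h1, Polynomial.map_zero]

theorem eg_frac {K : Type} [Field K] [Algebra Qb K] {t : K} (ht : Transcendental Qb t) (y : K)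
    (hy : y ∈ Qb⟮t⟯) : ∃ A B : Zb[X], B ≠ 0 ∧
      y * eval₂RingHom ((algebraMap Qb K).comp (algebraMap Zb Qb)) t B =
        eval₂RingHom ((algebraMap Qb K).comp (algebraMap Zb Qb)) t A := by
  obtain ⟨r, s, hrs⟩ := (mem_adjoin_simple_iff Qb y).1 hy
  by_cases hs : aeval t s = 0
  · refine ⟨0, 1, one_ne_zero, ?_⟩
    rw [hrs, hs, div_zero, zero_mul, map_zero]
  · obtain ⟨d, G', hd, hG'⟩ := exists_clear (C r + C s * X)
    have h0 := congrArg (fun Q => Q.coeff 0) hG'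
    have h1 := congrArg (fun Q => Q.coeff 1) hG'
    simp only [coeff_map, coeff_C_mul, coeff_add, coeff_C_zero, coeff_mul_X_zero, coeff_C_mul_X,
      coe_mapRingHom] at h0 h1
    simp [coeff_C] at h0 h1
    have hdK : algebraMap Qb K (algebraMap Zb Qb d) ≠ 0 := by
      intro h
      have := (algebraMap Qb K).injective (h.trans (map_zero _).symm)
      exact hd (eg_inj (this.trans (map_zero _).symm))
    have e0 : eval₂RingHom ((algebraMap Qb K).comp (algebraMap Zb Qb)) t (G'.coeff 0) =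
        algebraMap Qb K (algebraMap Zb Qb d) * aeval t r := by
      rw [eg_ev, h0, map_mul, aeval_C]
      rfl
    have e1 : eval₂RingHom ((algebraMap Qb K).comp (algebraMap Zb Qb)) t (G'.coeff 1) =
        algebraMap Qb K (algebraMap Zb Qb d) * aeval t s := by
      rw [eg_ev, h1, map_mul, aeval_C]
      rfl
    refine ⟨G'.coeff 0, G'.coeff 1, ?_, ?_⟩
    · intro h
      rw [h, map_zero] at e1
      exact (mul_ne_zero hdK hs) e1.symm
    · rw [e0, e1, hrs]
      field_simp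

theorem exists_gen {K : Type} [Field K] [Algebra Qb K] [IsFF Qb K] {σ : Type} [Fintype σ]
    (x : σ → K) :
    ∃ (t θ : K) (P : Zb[X][X]) (Fj : σ → Zb[X][X]) (D : Zb[X]),
      P.Monic ∧ Gen Qb K t θ (P.map (mapRingHom (algebraMap Zb Qb))) ∧ D ≠ 0 ∧
      ∀ j, x j * evR (algebraMap Zb Qb) t θ (C D) = evR (algebraMap Zb Qb) t θ (Fj j) := by
  classical
  obtain ⟨t, ht⟩ := IsFF.exists_transcendental (k := Qb) (K := K)
  haveI hfin : FiniteDimensional Qb⟮t⟯ K := IsFF.finite ht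
  haveI hcz : CharZero Qb⟮t⟯ := charZero_of_injective_algebraMap (algebraMap Qb Qb⟮t⟯).injective
  haveI hsep : Algebra.IsSeparable Qb⟮t⟯ K := inferInstance
  obtain ⟨θ₀, hθ₀⟩ := Field.exists_primitive_element Qb⟮t⟯ K
  have hdeg := (Field.primitive_element_iff_minpoly_natDegree_eq Qb⟮t⟯ θ₀).1 hθ₀
  obtain ⟨n, hn⟩ : ∃ n, n = (minpoly Qb⟮t⟯ θ₀).natDegree := ⟨_, rfl⟩
  have hmon : (minpoly Qb⟮t⟯ θ₀).Monic := minpoly.monic (Algebra.IsIntegral.isIntegral θ₀)
  -- common denominators of the coefficients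
  choose A B hB hAB using fun i : Fin n => eg_frac ht ((minpoly Qb⟮t⟯ θ₀).coeff i : K)
    ((minpoly Qb⟮t⟯ θ₀).coeff i).2
  obtain ⟨e, he⟩ : ∃ e : Zb[X] →+* K,
      e = eval₂RingHom ((algebraMap Qb K).comp (algebraMap Zb Qb)) t := ⟨_, rfl⟩
  rw [← he] at hAB
  have hene : ∀ B : Zb[X], B ≠ 0 → e B ≠ 0 := fun B hB => by rw [he]; exact eg_ne ht B hB
  obtain ⟨BB, hBB⟩ : ∃ BB : Zb[X], BB = ∏ i, B i := ⟨_, rfl⟩
  have hBB0 : BB ≠ 0 := by rw [hBB]; exact Finset.prod_ne_zero_iff.2 fun i _ => hB i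
  have hAA : ∀ i : Fin n, ∃ AA : Zb[X], ((minpoly Qb⟮t⟯ θ₀).coeff i : K) * e BB = e AA := by
    intro i
    refine ⟨A i * ∏ k ∈ Finset.univ.erase i, B k, ?_⟩
    rw [hBB, ← Finset.mul_prod_erase _ _ (Finset.mem_univ i), map_mul, ← mul_assoc, hAB, map_mul]
  choose AA hAA using hAA
  have hδE : e BB ∈ Qb⟮t⟯ := by
    rw [he, eg_ev]
    exact algebra_adjoin_le_adjoin Qb {t} (aeval_mem_adjoin_singleton Qb t)
  have hδ0 : e BB ≠ 0 := hene BB hBB0
  obtain ⟨θ, hθ⟩ : ∃ θ : K, θ = e BB * θ₀ := ⟨_, rfl⟩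
  obtain ⟨P, hP⟩ : ∃ P : Zb[X][X],
      P = X ^ n + ∑ i : Fin n, C (AA i * BB ^ (n - 1 - (i : ℕ))) * X ^ (i : ℕ) := ⟨_, rfl⟩
  have hlt : (∑ i : Fin n, C (AA i * BB ^ (n - 1 - (i : ℕ))) * X ^ (i : ℕ)).degree < (n : WithBot ℕ) :=
    degree_sum_fin_lt _
  have hPm : P.Monic := by rw [hP]; exact monic_X_pow_add hlt
  have hPn : P.natDegree = n := by
    rw [hP]
    apply natDegree_eq_of_degree_eq_some
    rw [degree_add_eq_left_of_degree_lt]
    · exact degree_X_pow n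
    · rw [degree_X_pow]; exact hlt
  -- the ring homomorphism `evR`
  have hevC : ∀ D : Zb[X], evR (algebraMap Zb Qb) t θ (C D) = e D := by
    intro D
    unfold evR
    rw [coe_eval₂RingHom, eval₂_C, he]
  have hevX : evR (algebraMap Zb Qb) t θ X = θ := by
    unfold evR
    rw [coe_eval₂RingHom, eval₂_X]
  have hμ : θ₀ ^ n + ∑ i : Fin n, ((minpoly Qb⟮t⟯ θ₀).coeff i : K) * θ₀ ^ (i : ℕ) = 0 := by
    have h1 := minpoly.aeval Qb⟮t⟯ θ₀
    rw [aeval_eq_sum_range, ← hn, Finset.sum_range_succ, hn, hmon.coeff_natDegree, one_smul,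
      ← hn, Finset.sum_range] at h1
    rw [← h1, add_comm]
    rfl
  have hroot : evR (algebraMap Zb Qb) t θ P = 0 := by
    rw [hP, map_add, map_pow, hevX, map_sum]
    have : ∀ i : Fin n, evR (algebraMap Zb Qb) t θ (C (AA i * BB ^ (n - 1 - (i : ℕ))) * X ^ (i : ℕ)) =
        e BB ^ n * (((minpoly Qb⟮t⟯ θ₀).coeff i : K) * θ₀ ^ (i : ℕ)) := by
      intro i
      rw [map_mul, map_pow, hevX, hevC, map_mul, map_pow, ← hAA, hθ]
      have hi := i.2
      have h2 : e BB ^ n = e BB * (e BB ^ (n - 1 - (i : ℕ)) * e BB ^ (i : ℕ)) := by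
        rw [← pow_add, ← pow_succ']
        congr 1
        omega
      rw [h2, mul_pow]
      ring
    rw [Finset.sum_congr rfl fun i _ => this i, ← Finset.mul_sum, hθ, mul_pow, ← mul_add, hμ,
      mul_zero]
  have htop : Qb⟮t⟯⟮θ⟯ = ⊤ := by
    rw [eq_top_iff, ← hθ₀, adjoin_simple_le_iff]
    have h1 : θ ∈ Qb⟮t⟯⟮θ⟯ := mem_adjoin_simple_self _ θ
    have h2 : (e BB)⁻¹ ∈ Qb⟮t⟯ := inv_mem hδE
    have h3 : algebraMap Qb⟮t⟯ K ⟨(e BB)⁻¹, h2⟩ ∈ Qb⟮t⟯⟮θ⟯ := IntermediateField.algebraMap_mem _ _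
    have h4 := mul_mem h3 h1
    have h5 : algebraMap Qb⟮t⟯ K ⟨(e BB)⁻¹, h2⟩ * θ = θ₀ := by
      rw [hθ]
      show (e BB)⁻¹ * (e BB * θ₀) = θ₀
      rw [← mul_assoc, inv_mul_cancel₀ hδ0, one_mul]
    rwa [h5] at h4
  have hcomp : (aeval t : Qb[X] →ₐ[Qb] K).toRingHom.comp (mapRingHom (algebraMap Zb Qb)) =
      eval₂RingHom ((algebraMap Qb K).comp (algebraMap Zb Qb)) t := by
    apply RingHom.ext
    intro Q
    rw [eg_ev]
    rfl
  have hgen : Gen Qb K t θ (P.map (mapRingHom (algebraMap Zb Qb))) := by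
    refine ⟨ht, hPm.map _, ?_, htop, ?_, hfin, hsep⟩
    · rw [eval₂_map, hcomp]
      exact hroot
    · rw [hPm.natDegree_map, hPn, hn, hdeg]
  -- good elements
  have hgood : ∀ y : K, ∃ D : Zb[X], D ≠ 0 ∧ ∃ G : Zb[X][X],
      y * evR (algebraMap Zb Qb) t θ (C D) = evR (algebraMap Zb Qb) t θ G := by
    intro y
    have hint : IsIntegral Qb⟮t⟯ θ := Algebra.IsIntegral.isIntegral θ
    have hy : y ∈ Algebra.adjoin Qb⟮t⟯ {θ} := by
      rw [← adjoin_simple_toSubalgebra_of_isAlgebraic hint.isAlgebraic, htop]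
      trivial
    rw [Algebra.adjoin_singleton_eq_range_aeval] at hy
    obtain ⟨g, rfl⟩ := hy
    induction g using Polynomial.induction_on' with
    | add p q hp hq =>
      obtain ⟨D1, hD1, G1, h1⟩ := hp
      obtain ⟨D2, hD2, G2, h2⟩ := hq
      refine ⟨D1 * D2, mul_ne_zero hD1 hD2, G1 * C D2 + G2 * C D1, ?_⟩
      rw [map_add, map_mul C, map_mul, map_add, map_mul, map_mul, ← h1, ← h2]
      ring
    | monomial k c =>
      obtain ⟨A', B', hB', h'⟩ := eg_frac ht (c : K) c.2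
      rw [← he] at h'
      refine ⟨B', hB', C A' * X ^ k, ?_⟩
      rw [map_mul, map_pow, hevX, hevC, hevC, ← h']
      have : aeval θ (monomial k c) = (c : K) * θ ^ k := by
        rw [aeval_monomial]; rfl
      erw [this]
      ring
  choose D hD G hG using fun j => hgood (x j)
  refine ⟨t, θ, P, fun j => G j * C (∏ k ∈ Finset.univ.erase j, D k), ∏ j, D j, hPm, hgen,
    Finset.prod_ne_zero_iff.2 fun j _ => hD j, ?_⟩
  intro j
  rw [← Finset.mul_prod_erase _ _ (Finset.mem_univ j), map_mul C, map_mul, ← mul_assoc, hG, map_mul]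

end H116RR
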