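import Pool.Agent.Helper116.RR.Defs2

set_option autoImplicit false
set_option linter.all false

namespace H116RR

open Polynomial IntermediateField



theorem exists_K {F : Type} [Field F] {Q : F[X][X]} (hQ : Q.Monic)
    (hirr : Irreducible (Q.map (algebraMap F[X] (RatFunc F))))
    (hsep : (Q.map (algebraMap F[X] (RatFunc F))).Separable) :
    ∃ (K : Type) (_ : Field K) (_ : Algebra F K) (t θ : K), Gen F K t θ Q := by
  classical
  let q : (RatFunc F)[X] := Q.map (algebraMap F[X] (RatFunc F))
  haveI : Fact (Irreducible q) := ⟨hirr⟩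
  have hqm : q.Monic := hQ.map _
  have hq0 : q ≠ 0 := hirr.ne_zero
  let φ : RatFunc F →ₐ[F] AdjoinRoot q := IsScalarTower.toAlgHom F (RatFunc F) (AdjoinRoot q)
  have hφ : ∀ r, φ r = algebraMap (RatFunc F) (AdjoinRoot q) r := fun r => rfl
  let t : AdjoinRoot q := algebraMap (RatFunc F) (AdjoinRoot q) RatFunc.X
  let θ : AdjoinRoot q := AdjoinRoot.root q
  have hrange : φ.fieldRange = F⟮t⟯ := by
    rw [AlgHom.fieldRange_eq_map, ← RatFunc.adjoin_X, IntermediateField.adjoin_map,
      Set.image_singleton]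
    rfl
  let e1 : RatFunc F ≃ₐ[F] F⟮t⟯ := φ.equivFieldRange.trans (IntermediateField.equivOfEq hrange)
  have he1 : ∀ r, ((e1 r : F⟮t⟯) : AdjoinRoot q) = algebraMap (RatFunc F) (AdjoinRoot q) r :=
    fun r => rfl
  have he : RingHom.comp (algebraMap F⟮t⟯ (AdjoinRoot q)) (e1.toRingEquiv : RatFunc F →+* F⟮t⟯) =
      RingHom.comp ((RingEquiv.refl (AdjoinRoot q)) : AdjoinRoot q →+* AdjoinRoot q)
        (algebraMap (RatFunc F) (AdjoinRoot q)) := by
    apply RingHom.ext
    intro r
    exact he1 r
  haveI hfin : Module.Finite (RatFunc F) (AdjoinRoot q) := hqm.finite_adjoinRoot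
  have hmin : minpoly (RatFunc F) θ = q := by
    have := AdjoinRoot.minpoly_root hq0
    rw [this, hqm.leadingCoeff, inv_one, C_1, mul_one]
  have hsepθ : IsSeparable (RatFunc F) θ := by
    unfold IsSeparable
    rw [hmin]
    exact hsep
  have htop : (RatFunc F)⟮θ⟯ = ⊤ :=
    IntermediateField.adjoin_eq_top_of_algebra _ _ AdjoinRoot.adjoinRoot_eq_top
  haveI hsepK : Algebra.IsSeparable (RatFunc F) (AdjoinRoot q) := by
    haveI h1 : Algebra.IsSeparable (RatFunc F) (RatFunc F)⟮θ⟯ :=
      (IntermediateField.isSeparable_adjoin_simple_iff_isSeparable _ _).2 hsepθ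
    exact (AlgEquiv.Algebra.isSeparable_iff
      ((IntermediateField.equivOfEq htop).trans IntermediateField.topEquiv)).1 h1
  refine ⟨AdjoinRoot q, inferInstance, inferInstance, t, θ, ?_, hQ, ?_, ?_, ?_, ?_, ?_⟩
  · exact (transcendental_algebraMap_iff
      (algebraMap (RatFunc F) (AdjoinRoot q)).injective).2 RatFunc.transcendental_X
  · have h1 : ((aeval t : F[X] →ₐ[F] AdjoinRoot q).toRingHom) =
        (algebraMap (RatFunc F) (AdjoinRoot q)).comp (algebraMap F[X] (RatFunc F)) := by
      apply Polynomial.ringHom_ext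
      · intro a
        show aeval t (C a) = algebraMap (RatFunc F) (AdjoinRoot q) (algebraMap F[X] (RatFunc F) (C a))
        rw [aeval_C, RatFunc.algebraMap_C]
        exact (IsScalarTower.algebraMap_apply F (RatFunc F) (AdjoinRoot q) a)
      · show aeval t X = algebraMap (RatFunc F) (AdjoinRoot q) (algebraMap F[X] (RatFunc F) X)
        rw [aeval_X, RatFunc.algebraMap_X]
    rw [h1, ← Polynomial.eval₂_map]
    exact AdjoinRoot.eval₂_root q
  · rw [eq_top_iff]
    intro y _
    have hy : y ∈ Algebra.adjoin (RatFunc F) ({θ} : Set (AdjoinRoot q)) := by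
      rw [AdjoinRoot.adjoinRoot_eq_top]
      trivial
    induction hy using Algebra.adjoin_induction with
    | mem x hx =>
      rw [Set.mem_singleton_iff.1 hx]
      exact IntermediateField.mem_adjoin_simple_self _ _
    | algebraMap r =>
      rw [← he1 r]
      exact IntermediateField.algebraMap_mem _ (e1 r)
    | add x y _ _ hx hy => exact add_mem (hx trivial) (hy trivial)
    | mul x y _ _ hx hy => exact mul_mem (hx trivial) (hy trivial)
  · rw [← Algebra.finrank_eq_of_equiv_equiv e1.toRingEquiv (RingEquiv.refl (AdjoinRoot q)) he,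
      (AdjoinRoot.powerBasis' hqm).finrank, AdjoinRoot.powerBasis'_dim]
    exact (hQ.natDegree_map _).symm
  · exact Module.Finite.of_equiv_equiv e1.toRingEquiv (RingEquiv.refl (AdjoinRoot q)) he
  · exact Algebra.IsSeparable.of_equiv_equiv e1.toRingEquiv (RingEquiv.refl (AdjoinRoot q)) he

end H116RR
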