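import Pool.Agent.Helper116.RR.Defs2

set_option autoImplicit false
set_option linter.all false

namespace H116RR

open Polynomial IntermediateField



theorem exists_rho (p : ℕ) [Fact p.Prime] : Nonempty (Zb →+* Fb p) := by
  have hp : p.Prime := Fact.out
  have hpZ : Prime (p : ℤ) := Nat.prime_iff_prime_int.1 hp
  haveI hmaxZ : (Ideal.span {(p : ℤ)}).IsMaximal :=
    PrincipalIdealRing.isMaximal_of_irreducible hpZ.irreducible
  have hker : RingHom.ker (algebraMap ℤ Zb) ≤ Ideal.span {(p : ℤ)} := by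
    intro x hx
    rw [RingHom.mem_ker] at hx
    have : x = 0 := by
      have h2 : ((x : Zb)) = 0 := by simpa using hx
      exact_mod_cast h2
    rw [this]
    exact Ideal.zero_mem _
  haveI : Algebra.IsIntegral ℤ Zb := by infer_instance
  obtain ⟨m, hm, hcomap⟩ := Ideal.exists_ideal_over_maximal_of_isIntegral (S := Zb)
    (Ideal.span {(p : ℤ)}) hker
  haveI := hm
  letI : Field (Zb ⧸ m) := Ideal.Quotient.field m
  have hp0 : ((p : ℕ) : Zb ⧸ m) = 0 := by
    have h1 : (p : ℤ) ∈ Ideal.comap (algebraMap ℤ Zb) m := by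
      rw [hcomap]
      exact Ideal.mem_span_singleton_self _
    rw [Ideal.mem_comap] at h1
    have h2 := Ideal.Quotient.eq_zero_iff_mem.2 h1
    simpa using h2
  haveI : CharP (Zb ⧸ m) p := ringChar.of_eq (CharP.ringChar_of_prime_eq_zero hp hp0)
  letI : Algebra (ZMod p) (Zb ⧸ m) := ZMod.algebra (Zb ⧸ m) p
  haveI : Algebra.IsAlgebraic (ZMod p) (Zb ⧸ m) := by
    constructor
    intro x
    obtain ⟨y, rfl⟩ := Ideal.Quotient.mk_surjective x
    have hy : IsIntegral ℤ y := Algebra.IsIntegral.isIntegral y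
    have hy2 : IsIntegral ℤ (Ideal.Quotient.mk m y) := hy.map (Ideal.Quotient.mkₐ ℤ m)
    have hy3 : IsIntegral (ZMod p) (Ideal.Quotient.mk m y) := hy2.tower_top
    exact hy3.isAlgebraic
  exact ⟨(IsAlgClosed.lift (R := ZMod p) (S := Zb ⧸ m) (M := Fb p)).toRingHom.comp
    (Ideal.Quotient.mk m)⟩

end H116RR
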