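import Pool.Agent.Helper116.RR.Defs

set_option autoImplicit false
set_option linter.all false

namespace H116RR

open Polynomial

variable {R : Type*} [CommRing R] {F : Type*} [Field F]

theorem cont_ne_zero {G : F[X][X]} (hG : G ≠ 0) : cont G ≠ 0 := by
  intro h
  apply hG
  have hs : Ideal.span {cont G} = Ideal.span (Set.range G.coeff) :=
    Ideal.span_singleton_generator _
  rw [h] at hs
  ext1 i
  have hm : G.coeff i ∈ Ideal.span (Set.range G.coeff) := Ideal.subset_span ⟨i, rfl⟩
  rw [← hs, Ideal.mem_span_singleton, zero_dvd_iff] at hm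
  rw [hm, coeff_zero]

theorem exists_prim {G : F[X][X]} (hG : G ≠ 0) :
    ∃ G1 : F[X][X], G = C (cont G) * G1 ∧ Ideal.span (Set.range G1.coeff) = ⊤ := by
  have hs : Ideal.span {cont G} = Ideal.span (Set.range G.coeff) :=
    Ideal.span_singleton_generator _
  have hdvd : C (cont G) ∣ G := by
    rw [C_dvd_iff_dvd_coeff]
    intro i
    rw [← Ideal.mem_span_singleton, hs]
    exact Ideal.subset_span ⟨i, rfl⟩
  obtain ⟨G1, hG1⟩ := hdvd
  refine ⟨G1, hG1, ?_⟩
  have hle : Ideal.span (Set.range G.coeff) ≤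
      Ideal.span {cont G} * Ideal.span (Set.range G1.coeff) := by
    rw [Ideal.span_le]
    rintro _ ⟨i, rfl⟩
    have : G.coeff i = cont G * G1.coeff i := by
      conv_lhs => rw [hG1]
      rw [coeff_C_mul]
    rw [this]
    exact Ideal.mul_mem_mul (Ideal.mem_span_singleton_self _) (Ideal.subset_span ⟨i, rfl⟩)
  have hc : cont G ∈ Ideal.span (Set.range G.coeff) := by
    rw [← hs]; exact Ideal.mem_span_singleton_self _
  obtain ⟨j, hj, hcj⟩ := Ideal.mem_span_singleton_mul.1 (hle hc)
  have h1 : j = 1 := mul_left_cancel₀ (cont_ne_zero hG) (by rw [hcj, mul_one])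
  rw [Ideal.eq_top_iff_one, ← h1]
  exact hj

end H116RR
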