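import Pool.Agent.Helper116.RR.Defs2

set_option autoImplicit false
set_option linter.all false

namespace H116RR

open FF Polynomial IntermediateField

variable {F K : Type*} [Field F] [Field K] [Algebra F K]

/-- at a finite place the Gauss order of `q(t,θ)` is nonnegative -/
theorem gord_ev_nonneg {t θ : K} {P : F[X][X]} (h : Gen F K t θ P) (q : F[X][X][X]) (a : F)
    (w : Place F K) (hw : 0 < w.ord (t - algebraMap F K a)) : 0 ≤ gord w (ev t θ q) := by
  have ht : w.Reg t := by
    have h1 : w.Reg ((t - algebraMap F K a) + algebraMap F K a) :=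
      w.reg_add (Or.inr hw.le) (w.reg_const a)
    rwa [sub_add_cancel] at h1
  have hf : ∀ f : F[X], w.Reg (aeval t f) := by
    intro f
    have : aeval t f ∈ w.O := by
      rw [aeval_eq_sum_range]
      refine sum_mem fun i _ => ?_
      rw [Algebra.smul_def]
      exact mul_mem (w.reg_const _) (pow_mem ht i)
    exact this
  have hθ : w.Reg θ := by
    letI : Algebra F[X] K := (aeval t : F[X] →ₐ[F] K).toRingHom.toAlgebra
    refine w.reg_of_isIntegral' (A := F[X]) (fun f => hf f) (b := θ) ?_
    exact ⟨P, h.monic, h.root⟩
  have hc : ∀ i, w.Reg ((ev t θ q).coeff i) := by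
    intro i
    have : (ev t θ q).coeff i ∈ w.O := by
      unfold ev
      rw [eval₂_eq_sum_range, finset_sum_coeff]
      refine sum_mem fun n _ => ?_
      rw [← C_pow, coeff_mul_C]
      refine mul_mem ?_ (pow_mem hθ n)
      rw [coe_mapRingHom, coeff_map]
      exact hf _
    exact this
  unfold gord
  split_ifs with hne
  · refine Finset.le_inf' _ _ fun i hi => ?_
    exact (w.reg_iff (mem_support_iff.1 hi)).1 (hc i)
  · exact le_rfl

end H116RR
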