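import Pool.Agent.Helper116.RR.ProductF

set_option autoImplicit false
set_option linter.all false

namespace H116RR

open FF Polynomial IntermediateField

variable {F K : Type*} [Field F] [Field K] [Algebra F K]

theorem gord_zero' (w : Place F K) : gord w (0 : K[X]) = 0 := by
  unfold gord
  rw [dif_neg]
  simp

theorem gord_spec (w : Place F K) {q : K[X]} (hq : q ≠ 0) :
    (∀ i ∈ q.support, gord w q ≤ w.ord (q.coeff i)) ∧
      ∃ i ∈ q.support, gord w q = w.ord (q.coeff i) := by
  have hne : q.support.Nonempty := Polynomial.nonempty_support_iff.mpr hq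
  unfold gord
  rw [dif_pos hne]
  refine ⟨fun i hi => Finset.inf'_le _ hi, ?_⟩
  exact Finset.exists_mem_eq_inf' hne _

theorem gord_C_mul' (w : Place F K) {g : K} (hg : g ≠ 0) {q : K[X]} (hq : q ≠ 0) :
    gord w (C g * q) = w.ord g + gord w q := by
  have hq' : C g * q ≠ 0 := mul_ne_zero (C_ne_zero.mpr hg) hq
  have hs : ∀ i, i ∈ (C g * q).support ↔ i ∈ q.support := by
    intro i
    rw [mem_support_iff, mem_support_iff, coeff_C_mul]
    constructor
    · exact fun h => right_ne_zero_of_mul h
    · exact fun h => mul_ne_zero hg h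
  have hc : ∀ i ∈ q.support, w.ord ((C g * q).coeff i) = w.ord g + w.ord (q.coeff i) := by
    intro i hi
    rw [coeff_C_mul, w.ord_mul hg (mem_support_iff.mp hi)]
  obtain ⟨h1, i1, hi1, h2⟩ := gord_spec w hq
  obtain ⟨h3, i2, hi2, h4⟩ := gord_spec w hq'
  apply le_antisymm
  · have h5 := h3 i1 ((hs i1).mpr hi1)
    rw [hc i1 hi1, ← h2] at h5
    exact h5
  · have h5 := h1 i2 ((hs i2).mp hi2)
    rw [h4, hc i2 ((hs i2).mp hi2)]
    linarith

theorem gord_finite [IsAlgClosed F] {t θ : K} {P : F[X][X]} (h : Gen F K t θ P) (q : K[X]) :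
    {w : Place F K | gord w q ≠ 0}.Finite := by
  by_cases hq : q = 0
  · subst hq
    have : {w : Place F K | gord w (0 : K[X]) ≠ 0} = ∅ := by
      ext w
      simp [gord_zero']
    rw [this]
    exact Set.finite_empty
  · have hfin : (⋃ i ∈ q.support, {w : Place F K | w.ord (q.coeff i) ≠ 0}).Finite := by
      apply Set.Finite.biUnion (Finset.finite_toSet _)
      intro i hi
      exact (product_formula h (mem_support_iff.mp hi)).1
    apply hfin.subset
    intro w hw
    obtain ⟨_, i, hi, h2⟩ := gord_spec w hq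
    refine Set.mem_biUnion (x := i) hi ?_
    have hw' : gord w q ≠ 0 := hw
    rw [h2] at hw'
    exact hw'

theorem hgtP_C_mul [IsAlgClosed F] {t θ : K} {P : F[X][X]} (h : Gen F K t θ P) {g : K} (hg : g ≠ 0)
    (q : K[X]) : hgtP F (C g * q) = hgtP F q := by
  by_cases hq : q = 0
  · rw [hq, mul_zero]
  · unfold hgtP
    have h1 : (fun w : Place F K => gord w (C g * q)) = fun w => w.ord g + gord w q := by
      funext w
      exact gord_C_mul' w hg hq
    rw [h1, finsum_add_distrib, (product_formula h hg).2, zero_add]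
    · exact (product_formula h hg).1
    · exact gord_finite h q

end H116RR
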