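import Pool.Agent.Helper116.RR.Defs

set_option autoImplicit false
set_option linter.all false

namespace H116RR

open FF Polynomial

variable {F K : Type*} [Field F] [Field K] [Algebra F K]

theorem gord_generic_red_sum (w : Place F K) (s : Finset ℕ) (f : ℕ → K)
    (hf : ∀ i ∈ s, w.Reg (f i)) :
    w.Reg (∑ i ∈ s, f i) ∧ w.red (∑ i ∈ s, f i) = ∑ i ∈ s, w.red (f i) := by
  classical
  induction s using Finset.induction_on with
  | empty => simpa using ⟨w.reg_zero, w.red_zero⟩
  | insert a s ha ih =>
    obtain ⟨h1, h2⟩ := ih (fun i hi => hf i (Finset.mem_insert_of_mem hi))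
    have h3 := hf a (Finset.mem_insert_self a s)
    rw [Finset.sum_insert ha, Finset.sum_insert ha]
    exact ⟨w.reg_add h3 h1, by rw [w.red_add h3 h1, h2]⟩

theorem gord_generic_reg_pow (w : Place F K) {f : K} (hf : w.Reg f) (n : ℕ) : w.Reg (f ^ n) := by
  induction n with
  | zero => rw [pow_zero]; exact w.reg_one
  | succ n ih => rw [pow_succ]; exact w.reg_mul ih hf

/-- for all but finitely many constants `c`, the order of `q(c)` is the Gauss order of `q` -/
theorem gord_generic [Infinite F] (w : Place F K) {q : K[X]} (hq : q ≠ 0) :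
    {c : F | q.eval (algebraMap F K c) = 0 ∨ w.ord (q.eval (algebraMap F K c)) ≠ gord w q}.Finite := by
  classical
  have hne : q.support.Nonempty := Polynomial.support_nonempty.mpr hq
  have hg : gord w q = q.support.inf' hne (fun i => w.ord (q.coeff i)) := by
    unfold gord
    rw [dif_pos hne]
  obtain ⟨j, hj, hjm⟩ := Finset.exists_mem_eq_inf' hne (fun i => w.ord (q.coeff i))
  rw [← hg] at hjm
  have hmin : ∀ i ∈ q.support, gord w q ≤ w.ord (q.coeff i) := by
    intro i hi
    rw [hg]
    exact Finset.inf'_le (fun i => w.ord (q.coeff i)) hi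
  have ha : q.coeff j ≠ 0 := Polynomial.mem_support_iff.mp hj
  have hb : ∀ i ∈ q.support, w.Reg ((q.coeff j)⁻¹ * q.coeff i) := by
    intro i hi
    right
    rw [w.ord_mul (inv_ne_zero ha) (Polynomial.mem_support_iff.mp hi), w.ord_inv]
    have := hmin i hi
    rw [hjm] at this
    omega
  obtain ⟨qb, hqb⟩ : ∃ qb : w.RF[X], qb = ∑ i ∈ q.support,
      C (w.red ((q.coeff j)⁻¹ * q.coeff i)) * X ^ i := ⟨_, rfl⟩
  have hqb0 : qb ≠ 0 := by
    intro h0
    have h1 : qb.coeff j = 1 := by
      rw [hqb, Polynomial.finsetSum_coeff]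
      rw [Finset.sum_eq_single j]
      · rw [Polynomial.coeff_C_mul, Polynomial.coeff_X_pow, if_pos rfl, mul_one,
          inv_mul_cancel₀ ha, w.red_one]
      · intro i _ hij
        rw [Polynomial.coeff_C_mul, Polynomial.coeff_X_pow, if_neg (Ne.symm hij), mul_zero]
      · intro h
        exact absurd hj h
    rw [h0, Polynomial.coeff_zero] at h1
    exact zero_ne_one h1
  have heval : ∀ c : F, w.Reg ((q.coeff j)⁻¹ * q.eval (algebraMap F K c)) ∧
      w.red ((q.coeff j)⁻¹ * q.eval (algebraMap F K c)) = qb.eval (w.constHom c) := by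
    intro c
    have e1 : (q.coeff j)⁻¹ * q.eval (algebraMap F K c)
        = ∑ i ∈ q.support, ((q.coeff j)⁻¹ * q.coeff i) * (algebraMap F K c) ^ i := by
      rw [Polynomial.eval_eq_sum, Polynomial.sum_def, Finset.mul_sum]
      apply Finset.sum_congr rfl
      intro i _
      ring
    have h2 := gord_generic_red_sum w q.support
      (fun i => ((q.coeff j)⁻¹ * q.coeff i) * (algebraMap F K c) ^ i)
      (fun i hi => w.reg_mul (hb i hi) (gord_generic_reg_pow w (w.reg_const c) i))
    rw [e1]
    refine ⟨h2.1, ?_⟩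
    rw [h2.2, hqb, Polynomial.eval_finset_sum]
    apply Finset.sum_congr rfl
    intro i hi
    rw [w.red_mul (hb i hi) (gord_generic_reg_pow w (w.reg_const c) i),
      w.red_pow (w.reg_const c)]
    simp only [Polynomial.eval_mul, Polynomial.eval_C, Polynomial.eval_pow, Polynomial.eval_X]
    rfl
  have hfin : {c : F | qb.eval (w.constHom c) = 0}.Finite := by
    have h1 : {y : w.RF | IsRoot qb y}.Finite := Polynomial.finite_setOf_isRoot hqb0
    exact h1.preimage (w.constHom.injective.injOn)
  refine hfin.subset ?_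
  intro c hc
  simp only [Set.mem_setOf_eq] at hc ⊢
  by_contra hne0
  obtain ⟨hr, he⟩ := heval c
  rw [← he] at hne0
  rw [w.red_eq_zero_iff hr] at hne0
  push Not at hne0
  obtain ⟨h1, h2⟩ := hne0
  have h3 : q.eval (algebraMap F K c) ≠ 0 := right_ne_zero_of_mul h1
  have h4 := (w.reg_iff h1).1 hr
  rw [w.ord_mul (inv_ne_zero ha) h3, w.ord_inv] at h2 h4
  rcases hc with h5 | h5
  · exact h3 h5
  · apply h5
    rw [hjm]
    omega

end H116RR
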