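import Pool.Agent.Helper116.RR.GordGeneric

set_option autoImplicit false
set_option linter.all false

namespace H116RR

open FF Polynomial

variable {F K : Type*} [Field F] [Field K] [Algebra F K]

variable [Infinite F]

theorem gord_mul (w : Place F K) {q1 q2 : K[X]} (h1 : q1 ≠ 0) (h2 : q2 ≠ 0) :
    gord w (q1 * q2) = gord w q1 + gord w q2 := by
  have hf := ((gord_generic w h1).union (gord_generic w h2)).union
    (gord_generic w (mul_ne_zero h1 h2))
  obtain ⟨c, hc⟩ := hf.infinite_compl.nonempty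
  simp only [Set.mem_compl_iff, Set.mem_union, Set.mem_ofPred_eq, not_or, not_not] at hc
  obtain ⟨⟨⟨ha1, ha2⟩, hb1, hb2⟩, hc1, hc2⟩ := hc
  rw [← hc2, ← ha2, ← hb2, Polynomial.eval_mul, w.ord_mul ha1 hb1]

end H116RR
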