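import Pool.Agent.Helper116.RR.TdegMul
import Pool.Agent.Helper116.RR.ExistsPrim

set_option autoImplicit false
set_option linter.all false

namespace H116RR

open Polynomial

variable {R : Type*} [CommRing R] {F : Type*} [Field F]

theorem H_eq_of_prim {G G1 : F[X][X]} {c : F[X]} (hc : c ≠ 0) (hG : G = C c * G1)
    (h1 : Ideal.span (Set.range G1.coeff) = ⊤) : H G = tdeg G1 := by
  have hG1 : G1 ≠ 0 := by
    rintro rfl
    have h2 : Set.range (0 : F[X][X]).coeff = {0} := by
      ext x; constructor
      · rintro ⟨i, rfl⟩; simp
      · rintro rfl; exact ⟨0, by simp⟩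
    rw [h2, Ideal.span_singleton_zero] at h1
    exact bot_ne_top h1
  open scoped Pointwise in
  have hr : Set.range G.coeff = ({c} : Set F[X]) * Set.range G1.coeff := by
    rw [Set.singleton_mul, ← Set.range_comp]
    congr 1
    ext1 i
    simp [hG]
  have hs : Ideal.span (Set.range G.coeff) = Ideal.span {c} := by
    have h3 := Ideal.span_mul_span' ({c} : Set F[X]) (Set.range G1.coeff)
    rw [hr, ← h3, h1, Ideal.mul_top]
  have ha : Associated (cont G) c := by
    rw [← Ideal.span_singleton_eq_span_singleton, ← hs]
    exact Ideal.span_singleton_generator _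
  have hdeg : (cont G).natDegree = c.natDegree := by
    unfold Polynomial.natDegree
    rw [Polynomial.degree_eq_degree_of_associated ha]
  have hC : tdeg (C c : F[X][X]) = c.natDegree := by
    unfold tdeg
    rw [Polynomial.support_C hc]
    simp
  have hm : tdeg G = c.natDegree + tdeg G1 := by
    rw [hG, tdeg_mul (by simpa using hc) hG1, hC]
  unfold H
  rw [hm, hdeg]
  push_cast
  ring

end H116RR
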