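import Pool.Agent.Helper116.RR.Defs

set_option autoImplicit false
set_option linter.all false

namespace H116RR

open Polynomial

variable {R : Type*} [CommRing R] {F : Type*} [Field F]

theorem prim_mul {G1 G2 : R[X]} (h1 : Ideal.span (Set.range G1.coeff) = ⊤)
    (h2 : Ideal.span (Set.range G2.coeff) = ⊤) : Ideal.span (Set.range (G1 * G2).coeff) = ⊤ := by
  by_contra hne
  obtain ⟨m, hm, hle⟩ := Ideal.exists_le_maximal _ hne
  have hprod : (G1 * G2).map (Ideal.Quotient.mk m) = 0 := by
    ext n
    rw [coeff_map, coeff_zero, Ideal.Quotient.eq_zero_iff_mem]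
    exact hle (Ideal.subset_span ⟨n, rfl⟩)
  have key : ∀ G : R[X], Ideal.span (Set.range G.coeff) = ⊤ →
      G.map (Ideal.Quotient.mk m) ≠ 0 := by
    intro G hG h0
    apply hm.ne_top
    rw [eq_top_iff, ← hG, Ideal.span_le]
    rintro _ ⟨n, rfl⟩
    have := congrArg (fun p => p.coeff n) h0
    simp only [coeff_map, coeff_zero] at this
    exact Ideal.Quotient.eq_zero_iff_mem.1 this
  rw [Polynomial.map_mul] at hprod
  have : IsDomain (R ⧸ m) := inferInstance
  rcases mul_eq_zero.1 hprod with h | h
  · exact key G1 h1 h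
  · exact key G2 h2 h

end H116RR
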