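import Pool.Agent.Helper116.RR.HEq
import Pool.Agent.Helper116.RR.PrimMul

set_option autoImplicit false
set_option linter.all false

namespace H116RR

open Polynomial

variable {R : Type*} [CommRing R] {F : Type*} [Field F]

theorem H_span_one : Ideal.span (Set.range (1 : F[X][X]).coeff) = ⊤ := by
  rw [Ideal.eq_top_iff_one]
  exact Ideal.subset_span ⟨0, by simp⟩

theorem H_one : H (1 : F[X][X]) = 0 := by
  rw [H_eq_of_prim (c := 1) (G1 := 1) one_ne_zero (by simp) H_span_one]
  unfold tdeg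
  have : (Finset.sup (1 : F[X][X]).support fun i => ((1 : F[X][X]).coeff i).natDegree) = 0 := by
    rw [← Nat.bot_eq_zero, Finset.sup_eq_bot_iff]
    intro i _
    rw [coeff_one]
    split_ifs <;> simp
  rw [this]
  rfl

theorem H_mul {G1 G2 : F[X][X]} (h1 : G1 ≠ 0) (h2 : G2 ≠ 0) : H (G1 * G2) = H G1 + H G2 := by
  obtain ⟨P1, hP1, hp1⟩ := exists_prim h1
  obtain ⟨P2, hP2, hp2⟩ := exists_prim h2
  have c1 := cont_ne_zero h1
  have c2 := cont_ne_zero h2
  have n1 : P1 ≠ 0 := by
    rintro rfl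
    rw [mul_zero] at hP1
    exact h1 hP1
  have n2 : P2 ≠ 0 := by
    rintro rfl
    rw [mul_zero] at hP2
    exact h2 hP2
  have h3 : G1 * G2 = C (cont G1 * cont G2) * (P1 * P2) := by
    conv_lhs => rw [hP1, hP2]
    rw [C_mul]
    ring
  rw [H_eq_of_prim (mul_ne_zero c1 c2) h3 (prim_mul hp1 hp2), H_eq_of_prim c1 hP1 hp1,
    H_eq_of_prim c2 hP2 hp2, tdeg_mul n1 n2]
  push_cast
  ring

theorem H_pow (G : F[X][X]) (h : G ≠ 0) (n : ℕ) : H (G ^ n) = n * H G := by
  induction n with
  | zero => rw [pow_zero, H_one]; simp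
  | succ n ih =>
    rw [pow_succ, H_mul (pow_ne_zero n h) h, ih]
    push_cast
    ring

theorem H_prod_pow {I : Type*} (s : Finset I) (G : I → F[X][X]) (e : I → ℕ) (h : ∀ i ∈ s, G i ≠ 0) :
    H (∏ i ∈ s, G i ^ e i) = ∑ i ∈ s, (e i : ℤ) * H (G i) := by
  classical
  induction s using Finset.induction_on with
  | empty => rw [Finset.prod_empty, Finset.sum_empty, H_one]
  | insert i s hi ih =>
    rw [Finset.prod_insert hi, Finset.sum_insert hi, H_mul (pow_ne_zero _ (h i (by simp)))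
      (Finset.prod_ne_zero_iff.mpr fun j hj => pow_ne_zero _ (h j (by simp [hj]))),
      H_pow _ (h i (by simp)), ih (fun j hj => h j (by simp [hj]))]

end H116RR
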