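import Pool.Agent.Helper116.RR.HEq
import Pool.Agent.Helper116.RR.EvNe
import Pool.Agent.Helper116.RR.ExClear

set_option autoImplicit false
set_option linter.all false

namespace H116RR

open Polynomial IntermediateField

variable {F : Type*} [Field F]

theorem h393_tdeg_le_iff {R : Type*} [CommRing R] (G : R[X][X]) (n : ℕ) :
    tdeg G ≤ n ↔ ∀ i, (G.coeff i).natDegree ≤ n := by
  unfold tdeg
  rw [Finset.sup_le_iff]
  constructor
  · intro h i
    by_cases hi : i ∈ G.support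
    · exact h i hi
    · rw [notMem_support_iff.mp hi]
      simp
  · intro h i _
    exact h i

theorem h393_tdeg_clear {A K : Type*} [CommRing A] [Field K] (ι : A →+* K)
    (hι : Function.Injective ι) (G' : A[X][X]) (G : K[X][X]) (d : K) (hd : d ≠ 0)
    (h : G'.map (mapRingHom ι) = C (C d) * G) : tdeg G' = tdeg G := by
  apply eq_of_forall_ge_iff
  intro n
  rw [h393_tdeg_le_iff, h393_tdeg_le_iff]
  apply forall_congr'
  intro i
  have h1 := congrArg (fun P => P.coeff i) h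
  simp only [coeff_map, coeff_C_mul, coe_mapRingHom] at h1
  have h2 := congrArg natDegree h1
  rw [natDegree_map_eq_of_injective hι, natDegree_C_mul hd] at h2
  rw [h2]

theorem h393_tdeg_map {A K : Type*} [CommRing A] [Field K] (ρ : A →+* K) (G : A[X][X])
    (i : ℕ) (hi : (G.coeff i).natDegree = tdeg G) (hl : ρ ((G.coeff i).leadingCoeff) ≠ 0) :
    tdeg (G.map (mapRingHom ρ)) = tdeg G := by
  apply le_antisymm
  · rw [h393_tdeg_le_iff]
    intro j
    rw [coeff_map, coe_mapRingHom]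
    exact natDegree_map_le.trans ((h393_tdeg_le_iff G _).mp le_rfl j)
  · have h1 := (h393_tdeg_le_iff (G.map (mapRingHom ρ)) _).mp le_rfl i
    rw [coeff_map, coe_mapRingHom, natDegree_map_of_leadingCoeff_ne_zero ρ hl, hi] at h1
    exact h1

theorem h393_exists_deg {A : Type*} [CommRing A] (G : A[X][X]) (hG : G ≠ 0) :
    ∃ i, (G.coeff i).natDegree = tdeg G ∧ (G.coeff i).leadingCoeff ≠ 0 := by
  obtain ⟨i, hi, h⟩ := Finset.exists_mem_eq_sup G.support (support_nonempty.mpr hG)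
    (fun i => (G.coeff i).natDegree)
  refine ⟨i, h.symm, ?_⟩
  rw [Ne, leadingCoeff_eq_zero]
  exact mem_support_iff.mp hi

theorem h393_exists_coeff {A : Type*} [CommRing A] (c : A[X]) (hc : c ≠ 0) :
    ∃ a : A, a ≠ 0 ∧ ∀ (K : Type) [Field K] (ρ : A →+* K), ρ a ≠ 0 → c.map ρ ≠ 0 := by
  refine ⟨c.leadingCoeff, leadingCoeff_ne_zero.mpr hc, ?_⟩
  intro K _ ρ h h0
  apply h
  have := congrArg (fun P => P.coeff c.natDegree) h0
  simpa [coeff_map] using this

/-- everything over the algebraic integers -/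
theorem h393_over {G : Zb[X][X]} (hG : G ≠ 0) :
    ∃ (d e : Zb) (c : Zb[X]) (G2 : Zb[X][X]) (s : Finset ℕ) (B : ℕ → Zb[X]),
      d ≠ 0 ∧ e ≠ 0 ∧ c ≠ 0 ∧ G2 ≠ 0 ∧ C (C d) * G = C c * G2 ∧
      ∑ i ∈ s, B i * G2.coeff i = C e ∧
      H (G.map (mapRingHom (algebraMap Zb Qb))) = tdeg G2 := by
  have hι : Function.Injective (algebraMap Zb Qb) := Subtype.val_injective
  have hι1 : Function.Injective (mapRingHom (algebraMap Zb Qb)) := map_injective _ hι
  have hι2 : Function.Injective (map (mapRingHom (algebraMap Zb Qb))) := map_injective _ hι1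
  have hι0 : ∀ a : Zb, a ≠ 0 → algebraMap Zb Qb a ≠ 0 := fun a ha h =>
    ha (hι (h.trans (map_zero _).symm))
  set GQ := G.map (mapRingHom (algebraMap Zb Qb)) with hGQ
  have hGQ0 : GQ ≠ 0 := by
    intro h
    apply hG
    apply hι2
    rw [Polynomial.map_zero]
    exact h
  obtain ⟨G1, hG1, hsp⟩ := exists_prim hGQ0
  have hc0 : cont GQ ≠ 0 := by
    intro h
    rw [h] at hG1
    apply hGQ0
    rw [hG1]
    simp
  have hH : H GQ = tdeg G1 := H_eq_of_prim hc0 hG1 hsp
  have h1 : (1 : Qb[X]) ∈ Ideal.span (Set.range G1.coeff) := by rw [hsp]; trivial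
  rw [Finsupp.mem_ideal_span_range_iff_exists_finsupp] at h1
  obtain ⟨b, hb⟩ := h1
  obtain ⟨d1, G1', hd1, hG1'⟩ := exists_clear G1
  obtain ⟨dc, c', hdc, hc'⟩ := exists_clear (C (cont GQ))
  obtain ⟨dB, B', hdB, hB'⟩ := exists_clear (∑ i ∈ b.support, monomial i (b i))
  have hG10 : G1 ≠ 0 := by
    rintro rfl
    rw [mul_zero] at hG1
    exact hGQ0 hG1
  have hc'' : (c'.coeff 0).map (algebraMap Zb Qb) = C (algebraMap Zb Qb dc) * cont GQ := by
    have := congrArg (fun P => P.coeff 0) hc'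
    simpa only [coeff_map, coeff_C_mul, coe_mapRingHom, coeff_C_zero] using this
  have hBc : ∀ i ∈ b.support, (B'.coeff i).map (algebraMap Zb Qb) =
      C (algebraMap Zb Qb dB) * b i := by
    intro i hi
    have := congrArg (fun P => P.coeff i) hB'
    simp only [coeff_map, coeff_C_mul, coe_mapRingHom, finset_sum_coeff, coeff_monomial] at this
    rw [this, Finset.sum_ite_eq' b.support i, if_pos hi]
  have hGc : ∀ i, (G1'.coeff i).map (algebraMap Zb Qb) =
      C (algebraMap Zb Qb d1) * G1.coeff i := by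
    intro i
    have := congrArg (fun P => P.coeff i) hG1'
    simpa only [coeff_map, coeff_C_mul, coe_mapRingHom] using this
  refine ⟨dc * d1, dB * d1, c'.coeff 0, G1', b.support, fun i => B'.coeff i, mul_ne_zero hdc hd1,
    mul_ne_zero hdB hd1, ?_, ?_, ?_, ?_, ?_⟩
  · intro h
    rw [h, Polynomial.map_zero] at hc''
    exact mul_ne_zero (C_ne_zero.mpr (hι0 dc hdc)) hc0 hc''.symm
  · intro h
    rw [h, Polynomial.map_zero] at hG1'
    exact mul_ne_zero (C_ne_zero.mpr (C_ne_zero.mpr (hι0 d1 hd1))) hG10 hG1'.symm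
  · apply hι2
    rw [Polynomial.map_mul, Polynomial.map_mul, map_C, map_C, coe_mapRingHom, map_C, hc'', hG1',
      ← hGQ]
    conv_lhs => rw [hG1]
    simp only [map_mul]
    ring
  · apply hι1
    rw [map_sum]
    simp only [map_mul, coe_mapRingHom, map_C]
    have h2 : ∀ i ∈ b.support, map (algebraMap Zb Qb) (B'.coeff i) *
        map (algebraMap Zb Qb) (G1'.coeff i) =
        C (algebraMap Zb Qb dB * algebraMap Zb Qb d1) * (b i * G1.coeff i) := by
      intro i hi
      rw [hBc i hi, hGc i, C_mul]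
      ring
    have h3 : ∀ i ∈ b.support, (mapRingHom (algebraMap Zb Qb)) (B'.coeff i) *
        (mapRingHom (algebraMap Zb Qb)) (G1'.coeff i) =
        C (algebraMap Zb Qb dB * algebraMap Zb Qb d1) * (b i * G1.coeff i) := h2
    first
      | rw [Finset.sum_congr rfl h2]
      | rw [Finset.sum_congr rfl h3]
    rw [← Finset.mul_sum]
    have h4 : ∑ i ∈ b.support, b i * G1.coeff i = 1 := hb
    rw [h4, mul_one]
    simp
  · rw [hH]
    rw [h393_tdeg_clear (algebraMap Zb Qb) hι G1' G1 _ (hι0 d1 hd1) hG1']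

theorem H_red {G : Zb[X][X]} (hG : G ≠ 0) :
    ∃ N : ℕ, ∀ p : ℕ, ∀ _ : Fact p.Prime, N < p → ∀ ρ : Zb →+* Fb p,
      G.map (mapRingHom ρ) ≠ 0 ∧
        H (G.map (mapRingHom ρ)) = H (G.map (mapRingHom (algebraMap Zb Qb))) := by
  obtain ⟨d, e, c, G2, s, B, hd, he, hc, hG2, hmul, hsum, hH⟩ := h393_over hG
  obtain ⟨i0, hi0, hl0⟩ := h393_exists_deg G2 hG2
  obtain ⟨ac, hac, hcm⟩ := h393_exists_coeff c hc
  obtain ⟨N1, hN1⟩ := eventually_ne hd
  obtain ⟨N2, hN2⟩ := eventually_ne he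
  obtain ⟨N3, hN3⟩ := eventually_ne hl0
  obtain ⟨N4, hN4⟩ := eventually_ne hac
  refine ⟨N1 + N2 + N3 + N4, ?_⟩
  intro p hp hlt ρ
  have hρd := hN1 p hp (by omega) ρ
  have hρe := hN2 p hp (by omega) ρ
  have hρl := hN3 p hp (by omega) ρ
  have hρc := hcm (Fb p) ρ (hN4 p hp (by omega) ρ)
  have ht := h393_tdeg_map ρ G2 i0 hi0 hρl
  have hm : C (C (ρ d)) * G.map (mapRingHom ρ) = C (c.map ρ) * G2.map (mapRingHom ρ) := by
    have := congrArg (map (mapRingHom ρ)) hmul
    rw [Polynomial.map_mul, Polynomial.map_mul, map_C, map_C, coe_mapRingHom, map_C] at this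
    exact this
  have hs : ∑ i ∈ s, (B i).map ρ * (G2.map (mapRingHom ρ)).coeff i = C (ρ e) := by
    have := congrArg (mapRingHom ρ) hsum
    rw [map_sum] at this
    simp only [map_mul, coe_mapRingHom, map_C] at this
    simpa only [coeff_map, coe_mapRingHom] using this
  have hG2' : G2.map (mapRingHom ρ) ≠ 0 := by
    intro h
    rw [h] at hs
    simp only [coeff_zero, mul_zero, Finset.sum_const_zero] at hs
    exact hρe (C_eq_zero.mp hs.symm)
  have hprim : Ideal.span (Set.range (G2.map (mapRingHom ρ)).coeff) = ⊤ := by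
    rw [Ideal.eq_top_iff_one]
    have h1 : (1 : (Fb p)[X]) = C (ρ e)⁻¹ * ∑ i ∈ s, (B i).map ρ *
        (G2.map (mapRingHom ρ)).coeff i := by
      rw [hs, ← C_mul, inv_mul_cancel₀ hρe, C_1]
    rw [h1]
    apply Ideal.mul_mem_left
    apply Ideal.sum_mem
    intro i _
    apply Ideal.mul_mem_left
    exact Ideal.subset_span ⟨i, rfl⟩
  have hGe : G.map (mapRingHom ρ) = C (C (ρ d)⁻¹ * c.map ρ) * G2.map (mapRingHom ρ) := by
    rw [C_mul, mul_assoc, ← hm, ← mul_assoc, ← C_mul, ← C_mul, inv_mul_cancel₀ hρd]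
    simp
  have hcne : C (ρ d)⁻¹ * c.map ρ ≠ 0 := mul_ne_zero (C_ne_zero.mpr (inv_ne_zero hρd)) hρc
  refine ⟨?_, ?_⟩
  · rw [hGe]
    exact mul_ne_zero (C_ne_zero.mpr hcne) hG2'
  · rw [H_eq_of_prim hcne hGe hprim, ht, hH]

end H116RR
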