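import Pool.Agent.Helper116.RR.NormEv

set_option autoImplicit false
set_option linter.all false

namespace H116RR

open FF Polynomial IntermediateField

variable {F K : Type*} [Field F] [Field K] [Algebra F K]

theorem NF_ne_zero_iff {t θ : K} {P : F[X][X]} (h : Gen F K t θ P) [Infinite F] (q : F[X][X][X]) (M : ℕ)
    (hM : q.natDegree ≤ M) : NF P q M ≠ 0 ↔ ev t θ q ≠ 0 := by
  have hfin := h.fin
  constructor
  · intro hN hev
    apply hN
    have h1 : ∀ c : F, (NF P q M).eval (C c) = 0 := by
      intro c
      have h2 := norm_ev h q M hM c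
      rw [hev, eval_zero, Algebra.norm_zero] at h2
      apply (transcendental_iff.1 h.tr)
      rw [← h2]
      rfl
    apply Polynomial.eq_zero_of_infinite_isRoot
    refine Set.Infinite.mono ?_ (Set.infinite_range_of_injective (C_injective (R := F)))
    rintro _ ⟨c, rfl⟩
    exact h1 c
  · intro hev hN
    have h1 : ∃ c : F, (ev t θ q).eval (algebraMap F K c) ≠ 0 := by
      by_contra hcon
      push Not at hcon
      apply hev
      apply Polynomial.eq_zero_of_infinite_isRoot
      refine Set.Infinite.mono ?_
        (Set.infinite_range_of_injective (algebraMap F K).injective)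
      rintro _ ⟨c, rfl⟩
      exact hcon c
    obtain ⟨c, hc⟩ := h1
    have h2 := norm_ev h q M hM c
    rw [hN, eval_zero, map_zero] at h2
    have h3 : Algebra.norm F⟮t⟯ ((ev t θ q).eval (algebraMap F K c)) ≠ 0 :=
      Algebra.norm_ne_zero_iff.2 hc
    apply h3
    exact Subtype.ext h2

end H116RR
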