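import Pool.Agent.Helper116.RR.Defs

set_option autoImplicit false
set_option linter.all false

namespace H116RR

open Polynomial



theorem NF_map {R S : Type*} [CommRing R] [CommRing S] [Nontrivial S] (φ : R →+* S) {P : R[X][X]}
    (hP : P.Monic) (q : R[X][X][X]) (M : ℕ) :
    NF (P.map (mapRingHom φ)) (q.map (mapRingHom (mapRingHom φ))) M =
      (NF P q M).map (mapRingHom φ) := by
  unfold NF
  rw [hP.natDegree_map (mapRingHom φ)]
  have h1 : (P.map (mapRingHom φ)).map (C : S[X] →+* S[X][X]) =
      (P.map (C : R[X] →+* R[X][X])).map (mapRingHom (mapRingHom φ)) := by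
    rw [Polynomial.map_map, Polynomial.map_map]
    congr 1
    ext x
    · simp
    · simp
  rw [h1]
  have h2 := Polynomial.resultant_map_map (P.map (C : R[X] →+* R[X][X])) q P.natDegree M
    (mapRingHom (mapRingHom φ))
  rw [h2]
  rfl

end H116RR
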