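import Pool.Agent.Helper116.RR.Defs

set_option autoImplicit false
set_option linter.all false

namespace H116RR

open Polynomial IntermediateField



theorem aux_prod {K : Type*} [Field K] {n : ℕ} (A : Matrix (Fin n) (Fin n) K) (s : Multiset K) :
    (aeval A (s.map (fun a => X - C a)).prod).det = A.charpoly.resultant (s.map (fun a => X - C a)).prod n s.card := by
  have hn : A.charpoly.natDegree = n := by rw [Matrix.charpoly_natDegree_eq_dim, Fintype.card_fin]
  have hdeg : ∀ s : Multiset K, (s.map (fun a => X - C a)).prod.natDegree = s.card := by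
    intro s
    rw [natDegree_multiset_prod_of_monic]
    · simp
    · intro f hf
      obtain ⟨a, _, rfl⟩ := Multiset.mem_map.1 hf
      exact monic_X_sub_C a
  induction s using Multiset.induction_on with
  | empty => simp
  | cons a s ih =>
    rw [Multiset.map_cons, Multiset.prod_cons, map_mul, Matrix.det_mul, ih]
    have h1 := resultant_mul_right A.charpoly (X - C a) (s.map (fun a => X - C a)).prod n hn.le
    rw [natDegree_X_sub_C, hdeg, resultant_X_sub_C_right _ _ _ hn.le] at h1
    rw [Multiset.card_cons, add_comm, h1]
    congr 1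
    rw [Matrix.eval_charpoly]
    have h2 : aeval A (X - C a) = -(Matrix.scalar (Fin n) a - A) := by
      rw [map_sub, aeval_X, aeval_C, neg_sub]
      rfl
    rw [h2, Matrix.det_neg, Fintype.card_fin]

theorem aux_main {K : Type*} [Field K] {n : ℕ} (A : Matrix (Fin n) (Fin n) K) (g : K[X]) (hg : g.Splits) (M : ℕ)
    (hM : g.natDegree ≤ M) : (aeval A g).det = A.charpoly.resultant g n M := by
  have hn : A.charpoly.natDegree = n := by rw [Matrix.charpoly_natDegree_eq_dim, Fintype.card_fin]
  have hc : A.charpoly.coeff n = 1 := by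
    have := A.charpoly_monic.coeff_natDegree
    rwa [hn] at this
  obtain ⟨k, rfl⟩ := Nat.exists_eq_add_of_le hM
  rw [resultant_add_right_deg _ _ _ _ _ le_rfl, hc, one_pow, one_mul]
  have hsplit := hg.eq_prod_roots
  have hcard := hg.natDegree_eq_card_roots
  have h1 : (aeval A g).det = g.leadingCoeff ^ n * (aeval A (g.roots.map (fun a => X - C a)).prod).det := by
    conv_lhs => rw [hsplit]
    rw [map_mul, Matrix.det_mul, aeval_C]
    congr 1
    rw [Matrix.algebraMap_eq_diagonal, Matrix.det_diagonal]
    simp
  have h2 : A.charpoly.resultant g n g.natDegree = g.leadingCoeff ^ n *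
      A.charpoly.resultant (g.roots.map (fun a => X - C a)).prod n g.natDegree := by
    calc A.charpoly.resultant g n g.natDegree = A.charpoly.resultant (C g.leadingCoeff *
          (g.roots.map (fun a => X - C a)).prod) n g.natDegree := by rw [← hsplit]
      _ = _ := resultant_C_mul_right _ _ _ _ _
  rw [h1, h2, aux_prod, hcard]

/-- the norm as a resultant -/
theorem norm_eq_resultant {E L : Type*} [Field E] [Field L] [Algebra E L] [FiniteDimensional E L]
    (θ : L) (P : E[X]) (hP : P.Monic) (hθ : aeval θ P = 0) (hdeg : P.natDegree = Module.finrank E L)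
    (htop : E⟮θ⟯ = ⊤) (g : E[X]) (M : ℕ) (hM : g.natDegree ≤ M) :
    Algebra.norm E (aeval θ g) = P.resultant g P.natDegree M := by
  have hint : IsIntegral E θ := Algebra.IsIntegral.isIntegral θ
  have hadj : Algebra.adjoin E {θ} = ⊤ := by
    rw [← adjoin_simple_toSubalgebra_of_isAlgebraic hint.isAlgebraic, htop]
    rfl
  let pb : PowerBasis E L := PowerBasis.ofAdjoinEqTop hint hadj
  have hgen : pb.gen = θ := PowerBasis.ofAdjoinEqTop_gen hint hadj
  have hmin : minpoly E θ = P := by
    have hdvd : minpoly E θ ∣ P := minpoly.dvd E θ hθ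
    have h1 : (minpoly E θ).natDegree = P.natDegree := by
      rw [hdeg, ← hgen, pb.natDegree_minpoly, pb.finrank]
    exact (eq_of_monic_of_dvd_of_natDegree_le (minpoly.monic hint) hP hdvd h1.ge).symm
  have hdim : P.natDegree = pb.dim := by rw [hdeg, pb.finrank]
  set A := Algebra.leftMulMatrix pb.basis θ with hA
  have hchar : A.charpoly = P := by
    rw [← hmin, ← hgen, hA, ← hgen]
    exact charpoly_leftMulMatrix pb
  have hnorm : Algebra.norm E (aeval θ g) = (aeval A g).det := by
    rw [Algebra.norm_eq_matrix_det pb.basis, hA]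
    congr 1
    exact (aeval_algHom_apply (Algebra.leftMulMatrix pb.basis) θ g).symm
  rw [hnorm]
  apply (algebraMap E (AlgebraicClosure E)).injective
  rw [← resultant_map_map, RingHom.map_det, hdim]
  have h1 := aux_main (A.map (algebraMap E (AlgebraicClosure E))) (g.map (algebraMap E (AlgebraicClosure E)))
    (IsAlgClosed.splits _) M (natDegree_map_le.trans hM)
  rw [Matrix.charpoly_map, hchar] at h1
  rw [← h1]
  congr 1
  have hh : (algebraMap (AlgebraicClosure E) (Matrix (Fin pb.dim) (Fin pb.dim) (AlgebraicClosure E))).comp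
      (algebraMap E (AlgebraicClosure E)) =
      ((algebraMap E (AlgebraicClosure E)).mapMatrix).comp (algebraMap E (Matrix (Fin pb.dim) (Fin pb.dim) E)) := by
    ext x i j
    simp only [RingHom.comp_apply, Matrix.algebraMap_matrix_apply, RingHom.mapMatrix_apply, Matrix.map_apply]
    by_cases hij : i = j
    · simp [hij]
    · simp [hij]
  have := Polynomial.map_aeval_eq_aeval_map hh g A
  exact this

end H116RR
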