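import Pool.Agent.Helper116.RR.Defs2
import Pool.Agent.Helper116.RR.NormRes
import Pool.Agent.Helper116.RR.NFMap

set_option autoImplicit false
set_option linter.all false

namespace H116RR

open FF Polynomial IntermediateField

variable {F K : Type*} [Field F] [Field K] [Algebra F K]

/-- the norm of `q(t,c,θ)` -/
theorem norm_ev {t θ : K} {P : F[X][X]} (h : Gen F K t θ P) (q : F[X][X][X]) (M : ℕ)
    (hM : q.natDegree ≤ M) (c : F) :
    ((Algebra.norm F⟮t⟯ ((ev t θ q).eval (algebraMap F K c)) : F⟮t⟯) : K) =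
      aeval t ((NF P q M).eval (C c)) := by
  haveI : FiniteDimensional F⟮t⟯ K := h.fin
  set iE : F[X] →+* F⟮t⟯ := (aeval (AdjoinSimple.gen F t) : F[X] →ₐ[F] F⟮t⟯).toRingHom with hiE
  have hi : ∀ f : F[X], algebraMap F⟮t⟯ K (iE f) = aeval t f := by
    intro f
    rw [hiE]
    show algebraMap F⟮t⟯ K (aeval (AdjoinSimple.gen F t) f) = _
    rw [← aeval_algebraMap_apply, AdjoinSimple.algebraMap_gen]
  have hcomp : (algebraMap F⟮t⟯ K).comp iE = (aeval t : F[X] →ₐ[F] K).toRingHom :=
    RingHom.ext hi
  have hPE : (P.map iE).Monic := h.monic.map iE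
  have hdeg : (P.map iE).natDegree = P.natDegree := h.monic.natDegree_map iE
  have hθ : aeval θ (P.map iE) = 0 := by
    rw [aeval_def, eval₂_map, hcomp]
    exact h.root
  have hev : (ev t θ q).eval (algebraMap F K c) =
      aeval θ ((q.map (evalRingHom (C c))).map iE) := by
    rw [aeval_def, eval₂_map, eval₂_map, hcomp, ev]
    have h1 := hom_eval₂ q (mapRingHom (aeval t : F[X] →ₐ[F] K).toRingHom)
      (evalRingHom (algebraMap F K c)) (C θ)
    rw [coe_evalRingHom] at h1
    rw [h1, eval_C]
    congr 1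
    refine ringHom_ext' ?_ ?_
    · ext f
      · simp
      · simp
    · simp
  rw [hev, norm_eq_resultant θ (P.map iE) hPE hθ (hdeg.trans h.deg) h.top _ M
    (natDegree_map_le.trans (natDegree_map_le.trans hM)), hdeg, resultant_map_map]
  have h2 : ((iE (P.resultant (q.map (evalRingHom (C c))) P.natDegree M) : F⟮t⟯) : K) =
      aeval t (P.resultant (q.map (evalRingHom (C c))) P.natDegree M) := hi _
  rw [h2]
  congr 1
  have h3 : (NF P q M).eval (C c) = evalRingHom (C c) (NF P q M) := rfl
  rw [h3, NF, ← resultant_map_map, Polynomial.map_map]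
  congr 1
  have h4 : (evalRingHom (C c)).comp (C : F[X] →+* F[X][X]) = RingHom.id _ := by
    ext f <;> simp
  rw [h4, Polynomial.map_id]

end H116RR
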