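import Pool.Agent.Helper116.RR.Defs

set_option autoImplicit false
set_option linter.all false

namespace H116RR

open Polynomial



open UniqueFactorizationMonoid Ideal IsDedekindDomain

section aux
variable {A B : Type*} [CommRing A] [IsDedekindDomain A] [CommRing B] [IsDedekindDomain B]
  [Algebra A B] [Module.Finite A B] [Module.IsTorsionFree A B]

open Classical in
theorem nv_single {R : Type*} [CommRing R] [IsDedekindDomain R] (P : Ideal R) (hP : P.IsPrime)
    (hP0 : P ≠ ⊥) : normalizedFactors P = {P} := by
  rw [normalizedFactors_irreducible (Ideal.prime_of_isPrime hP0 hP).irreducible, normalize_eq]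

open Classical in
theorem nv_count_pow {R : Type*} [CommRing R] [IsDedekindDomain R] (P : Ideal R) (hP : P.IsPrime)
    (hP0 : P ≠ ⊥) (Q : Ideal R) (s : ℕ) :
    (normalizedFactors (P ^ s)).count Q = if Q = P then s else 0 := by
  rw [normalizedFactors_pow, nv_single P hP hP0, Multiset.count_nsmul, Multiset.count_singleton]
  split_ifs <;> simp

open Classical in
theorem nv_count_other (v : HeightOneSpectrum A) (P : Ideal B) (hP : P.IsPrime) (hP0 : P ≠ ⊥)
    (hne : P.comap (algebraMap A B) ≠ v.asIdeal) :
    (normalizedFactors (relNorm A P)).count v.asIdeal = 0 := by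
  have hq : (P.comap (algebraMap A B)).IsPrime := Ideal.IsPrime.comap _
  have hl : P.LiesOver (P.comap (algebraMap A B)) := ⟨rfl⟩
  obtain ⟨s, hs⟩ := exists_relNorm_eq_pow_of_isPrime P (P.comap (algebraMap A B))
  have hq0 : P.comap (algebraMap A B) ≠ ⊥ := by
    intro h
    exact hP0 (Ideal.eq_bot_of_comap_eq_bot h)
  rw [hs, nv_count_pow _ hq hq0, if_neg (Ne.symm hne)]

open Classical in
theorem nv_main (v : HeightOneSpectrum A) (S : Finset (HeightOneSpectrum B))
    (hS : ∀ P, P ∈ S ↔ P.asIdeal.comap (algebraMap A B) = v.asIdeal)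
    (s : HeightOneSpectrum B → ℕ) (hs : ∀ P ∈ S, relNorm A P.asIdeal = v.asIdeal ^ s P)
    (I : Ideal B) : I ≠ 0 → (normalizedFactors (relNorm A I)).count v.asIdeal =
      ∑ P ∈ S, s P * (normalizedFactors I).count P.asIdeal := by
  induction I using UniqueFactorizationMonoid.induction_on_prime with
  | h₁ => intro h; exact absurd rfl h
  | h₂ x hx =>
    intro _
    have hx1 : x = 1 := by
      rw [Ideal.isUnit_iff] at hx
      rw [hx, Ideal.one_eq_top]
    rw [hx1, map_one, normalizedFactors_one, normalizedFactors_one]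
    simp
  | h₃ a p ha hp ih =>
    intro _
    have hp0 : p ≠ 0 := hp.ne_zero
    have hpp : p.IsPrime := Ideal.isPrime_of_prime hp
    have hr1 : relNorm A p ≠ 0 := by
      intro h; exact hp0 (relNorm_eq_bot_iff.1 h)
    have hr2 : relNorm A a ≠ 0 := by
      intro h; exact ha (relNorm_eq_bot_iff.1 h)
    rw [map_mul, normalizedFactors_mul hr1 hr2, normalizedFactors_mul hp0 ha, Multiset.count_add,
      ih ha]
    simp only [Multiset.count_add, mul_add]
    rw [Finset.sum_add_distrib]
    congr 1
    rw [nv_single p hpp hp0]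
    simp only [Multiset.count_singleton]
    by_cases hc : p.comap (algebraMap A B) = v.asIdeal
    · let Pp : HeightOneSpectrum B := ⟨p, hpp, hp0⟩
      have hPp : Pp ∈ S := (hS Pp).2 hc
      have h1 := hs Pp hPp
      have h2 : relNorm A p = v.asIdeal ^ s Pp := h1
      rw [h2, nv_count_pow _ v.isPrime v.ne_bot, if_pos rfl, Finset.sum_eq_single Pp]
      · rw [if_pos rfl, mul_one]
      · intro P _ hP
        rw [if_neg, mul_zero]
        intro h
        exact hP (HeightOneSpectrum.ext h)
      · intro h; exact absurd hPp h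
    · rw [nv_count_other v p hpp hp0 hc]
      symm
      refine Finset.sum_eq_zero ?_
      intro P hP
      rw [if_neg, mul_zero]
      intro h
      apply hc
      rw [← h]
      exact (hS P).1 hP

end aux

theorem norm_valuation {A E K B : Type*} [CommRing A] [IsDedekindDomain A] [Field E] [Algebra A E]
    [IsFractionRing A E] [Field K] [Algebra E K] [Algebra A K] [IsScalarTower A E K]
    [FiniteDimensional E K] [Algebra.IsSeparable E K] [CommRing B] [IsDedekindDomain B] [Algebra A B]
    [Algebra B K] [IsFractionRing B K] [IsScalarTower A B K] [IsIntegralClosure B A K]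
    [Module.Finite A B] [Module.IsTorsionFree A B]
    (v : IsDedekindDomain.HeightOneSpectrum A) (hmax : v.asIdeal.IsMaximal)
    (S : Finset (IsDedekindDomain.HeightOneSpectrum B))
    (hS : ∀ P, P ∈ S ↔ P.asIdeal.comap (algebraMap A B) = v.asIdeal)
    (hres : ∀ P ∈ S, ∀ b : B, ∃ a : A, b - algebraMap A B a ∈ P.asIdeal)
    (g : K) (hg : g ≠ 0) :
    WithZero.log (v.valuation E (Algebra.norm E g)) = ∑ P ∈ S, WithZero.log (P.valuation K g) := by
  classical
  have hex : ∀ P : HeightOneSpectrum B, ∃ s : ℕ, P ∈ S →
      relNorm A P.asIdeal = v.asIdeal ^ s ∧ 1 ≤ s := by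
    intro P
    by_cases hP : P ∈ S
    · have hc := (hS P).1 hP
      have hl : P.asIdeal.LiesOver v.asIdeal := ⟨hc.symm⟩
      have hvp := v.isPrime
      obtain ⟨s, hs⟩ := exists_relNorm_eq_pow_of_isPrime P.asIdeal v.asIdeal
      refine ⟨s, fun _ => ⟨hs, ?_⟩⟩
      rcases Nat.eq_zero_or_pos s with h0 | h0
      · exfalso
        rw [h0, pow_zero] at hs
        have h1 := relNorm_le_comap A P.asIdeal
        rw [hs, hc, Ideal.one_eq_top] at h1
        exact hmax.ne_top (top_le_iff.1 h1)
      · exact h0
    · exact ⟨0, fun h => absurd h hP⟩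
  choose s hs using hex
  have hv0 : v.asIdeal.map (algebraMap A B) ≠ ⊥ := Ideal.map_ne_bot_of_ne_bot v.ne_bot
  have hmain := nv_main v S hS s (fun P hP => (hs P hP).1)
  -- total degree
  have hdeg1 : Module.finrank A B = ∑ P ∈ S, s P *
      (normalizedFactors (v.asIdeal.map (algebraMap A B))).count P.asIdeal := by
    rw [← hmain _ hv0, relNorm_algebraMap, nv_count_pow _ v.isPrime v.ne_bot, if_pos rfl]
  have hdeg2 : Module.finrank E K = ∑ P ∈ S,
      (normalizedFactors (v.asIdeal.map (algebraMap A B))).count P.asIdeal := by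
    rw [← Ideal.sum_ramification_inertia B E K v.ne_bot]
    symm
    refine Finset.sum_nbij (fun P => P.asIdeal) ?_ ?_ ?_ ?_
    · intro P hP
      rw [IsDedekindDomain.mem_primesOverFinset_iff v.ne_bot]
      exact ⟨P.isPrime, ⟨((hS P).1 hP).symm⟩⟩
    · intro P _ Q _ h
      exact HeightOneSpectrum.ext h
    · intro Q hQ
      have hQ' : Q ∈ IsDedekindDomain.primesOverFinset v.asIdeal B := hQ
      rw [IsDedekindDomain.mem_primesOverFinset_iff v.ne_bot] at hQ'
      obtain ⟨h1, h2⟩ := hQ'
      have hQ0 : Q ≠ ⊥ := by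
        rintro rfl
        have h3 := h2.over
        apply v.ne_bot
        rw [h3]
        exact Ideal.under_bot A B
      exact ⟨⟨Q, h1, hQ0⟩, (hS _).2 h2.over.symm, rfl⟩
    · intro P hP
      have hl : P.asIdeal.LiesOver v.asIdeal := ⟨((hS P).1 hP).symm⟩
      rw [ramificationIdx'_eq_normalizedFactors_count hv0 P.isPrime P.ne_bot, inertiaDeg'_algebraMap]
      have h1 : Module.finrank (A ⧸ v.asIdeal) (B ⧸ P.asIdeal) = 1 := by
        letI : Field (A ⧸ v.asIdeal) := Ideal.Quotient.field _
        have hnt : Nontrivial (B ⧸ P.asIdeal) := Ideal.Quotient.nontrivial_iff.2 P.isPrime.ne_top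
        refine finrank_eq_one (1 : B ⧸ P.asIdeal) one_ne_zero ?_
        intro w
        obtain ⟨b, rfl⟩ := Ideal.Quotient.mk_surjective w
        obtain ⟨a, ha⟩ := hres P hP b
        refine ⟨Ideal.Quotient.mk _ a, ?_⟩
        rw [← Ideal.Quotient.eq] at ha
        rw [ha, Algebra.smul_def, mul_one]
        rfl
      rw [h1, mul_one]
  have hfr : Module.finrank A B = Module.finrank E K := (IsFractionRing.finrank_eq A E B K).symm
  have hs1 : ∀ P ∈ S, s P = 1 := by
    have hle : ∀ P ∈ S, (normalizedFactors (v.asIdeal.map (algebraMap A B))).count P.asIdeal ≤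
        s P * (normalizedFactors (v.asIdeal.map (algebraMap A B))).count P.asIdeal := by
      intro P hP
      exact Nat.le_mul_of_pos_left _ (hs P hP).2
    have heq := (Finset.sum_eq_sum_iff_of_le hle).1 (by rw [← hdeg1, ← hdeg2, hfr])
    intro P hP
    have h1 := heq P hP
    have hl : P.asIdeal.LiesOver v.asIdeal := ⟨((hS P).1 hP).symm⟩
    have hpos : 0 < (normalizedFactors (v.asIdeal.map (algebraMap A B))).count P.asIdeal := by
      rw [← ramificationIdx'_eq_normalizedFactors_count hv0 P.isPrime P.ne_bot]
      have := P.isPrime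
      exact Nat.pos_of_ne_zero (ramificationIdx'_ne_zero_of_liesOver P.asIdeal v.ne_bot)
    have h2 := Nat.eq_of_mul_eq_mul_right hpos ((one_mul _).trans h1)
    exact h2.symm
  have hB : ∀ b : B, b ≠ 0 → WithZero.log (v.valuation E (Algebra.norm E (algebraMap B K b))) =
      ∑ P ∈ S, WithZero.log (P.valuation K (algebraMap B K b)) := by
    intro b hb
    have hsp : Ideal.span {b} ≠ (0 : Ideal B) := by
      intro h; exact hb (Ideal.span_singleton_eq_bot.1 h)
    have hbK : algebraMap B K b ≠ 0 := by
      intro h; exact hb ((IsFractionRing.injective B K) (by rw [h, map_zero]))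
    have hn : Algebra.intNorm A B b ≠ 0 := by
      intro h
      have h2 := Algebra.algebraMap_intNorm (A := A) (K := E) (L := K) (B := B) b
      rw [h, map_zero] at h2
      exact (Algebra.norm_ne_zero_iff.2 hbK) h2.symm
    have hsn : Ideal.span {Algebra.intNorm A B b} ≠ (0 : Ideal A) := by
      intro h; exact hn (Ideal.span_singleton_eq_bot.1 h)
    rw [← Algebra.algebraMap_intNorm (A := A) (K := E) (L := K) (B := B),
      HeightOneSpectrum.valuation_of_algebraMap, HeightOneSpectrum.intValuation_if_neg _ hn,
      WithZero.log_exp, Ideal.count_associates_factors_eq hsn v.isPrime v.ne_bot,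
      ← relNorm_singleton, hmain _ hsp]
    push_cast
    rw [← Finset.sum_neg_distrib]
    refine Finset.sum_congr rfl ?_
    intro P hP
    rw [HeightOneSpectrum.valuation_of_algebraMap, HeightOneSpectrum.intValuation_if_neg _ hb,
      WithZero.log_exp, Ideal.count_associates_factors_eq hsp P.isPrime P.ne_bot, hs1 P hP]
    simp
  obtain ⟨b, c, hc, rfl⟩ := IsFractionRing.div_surjective (A := B) g
  have hc0 : c ≠ 0 := nonZeroDivisors.ne_zero hc
  have hb0 : b ≠ 0 := by
    rintro rfl
    apply hg
    simp
  have hbK : algebraMap B K b ≠ 0 := by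
    intro h; exact hb0 ((IsFractionRing.injective B K) (by rw [h, map_zero]))
  have hcK : algebraMap B K c ≠ 0 := by
    intro h; exact hc0 ((IsFractionRing.injective B K) (by rw [h, map_zero]))
  have hmul : Algebra.norm E (algebraMap B K b / algebraMap B K c) *
      Algebra.norm E (algebraMap B K c) = Algebra.norm E (algebraMap B K b) := by
    rw [← map_mul, div_mul_cancel₀ _ hcK]
  have hgK : algebraMap B K b / algebraMap B K c ≠ 0 := hg
  have h1 : WithZero.log (v.valuation E (Algebra.norm E (algebraMap B K b / algebraMap B K c))) +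
      WithZero.log (v.valuation E (Algebra.norm E (algebraMap B K c))) =
      WithZero.log (v.valuation E (Algebra.norm E (algebraMap B K b))) := by
    rw [← WithZero.log_mul, ← map_mul, hmul]
    · exact (Valuation.ne_zero_iff _).2 (Algebra.norm_ne_zero_iff.2 hgK)
    · exact (Valuation.ne_zero_iff _).2 (Algebra.norm_ne_zero_iff.2 hcK)
  have h2 : (∑ P ∈ S, WithZero.log (P.valuation K (algebraMap B K b / algebraMap B K c))) +
      (∑ P ∈ S, WithZero.log (P.valuation K (algebraMap B K c))) =
      ∑ P ∈ S, WithZero.log (P.valuation K (algebraMap B K b)) := by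
    rw [← Finset.sum_add_distrib]
    refine Finset.sum_congr rfl ?_
    intro P _
    rw [← WithZero.log_mul, ← map_mul, div_mul_cancel₀ _ hcK]
    · exact (Valuation.ne_zero_iff _).2 hgK
    · exact (Valuation.ne_zero_iff _).2 hcK
  rw [hB b hb0, hB c hc0, ← h2] at h1
  exact add_right_cancel h1

end H116RR
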