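import Pool.Agent.Helper116.RR.Defs2
import Pool.Agent.Helper116.RR.NormVal

set_option autoImplicit false
set_option linter.all false

namespace H116RR

open FF Polynomial IntermediateField

variable {F K : Type*} [Field F] [Field K] [Algebra F K]

theorem nl_general {F A E K B : Type*} [Field F] [IsAlgClosed F] [CommRing A] [IsDedekindDomain A]
    [Field E] [Algebra A E]
    [IsFractionRing A E] [Field K] [Algebra E K] [Algebra A K] [IsScalarTower A E K]
    [FiniteDimensional E K] [Algebra.IsSeparable E K] [CommRing B] [IsDedekindDomain B] [Algebra A B]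
    [Algebra B K] [IsFractionRing B K] [IsScalarTower A B K] [IsIntegralClosure B A K]
    [Module.Finite A B] [Module.IsTorsionFree A B] [Algebra F A] [Algebra F B] [Algebra F E]
    [Algebra F K] [IsScalarTower F A E] [IsScalarTower F A K] [IsScalarTower F A B]
    [IsScalarTower F B K]
    (π : A) (hmax : (Ideal.span {π}).IsMaximal) (hπ : π ≠ 0)
    (hψ : ∀ a : A, ∃ c : F, a - algebraMap F A c ∈ Ideal.span {π})
    (v : Place F E) (hregE : ∀ a, v.Reg (algebraMap A E a)) (hv : v.ord (algebraMap A E π) = 1)
    (hregK : ∀ w : Place F K, 0 < w.ord (algebraMap A K π) → ∀ a, w.Reg (algebraMap A K a)) :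
    ∃ S : Finset (Place F K), (∀ w, w ∈ S ↔ 0 < w.ord (algebraMap A K π)) ∧
      ∀ g : K, g ≠ 0 → v.ord (Algebra.norm E g) = ∑ w ∈ S, w.ord g := by
  classical
  obtain ⟨p, hp⟩ : ∃ p : Ideal A, p = Ideal.span {π} := ⟨_, rfl⟩
  rw [← hp] at hmax hψ
  have hp0 : p ≠ ⊥ := by
    rw [hp, Ne, Ideal.span_singleton_eq_bot]; exact hπ
  have hπp : π ∈ p := by rw [hp]; exact Ideal.mem_span_singleton_self π
  let v0 : IsDedekindDomain.HeightOneSpectrum A := ⟨p, hmax.isPrime, hp0⟩
  have hAB : Function.Injective (algebraMap A B) := FaithfulSMul.algebraMap_injective A B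
  have hAK : Function.Injective (algebraMap A K) := by
    rw [IsScalarTower.algebraMap_eq A B K]
    exact (IsFractionRing.injective B K).comp hAB
  obtain ⟨P0, hP0⟩ := exists_placeOf_eq (k := F) (B := A) v hregE
  have hP0v : P0 = v0 := by
    have h1 : p ≤ P0.asIdeal := by
      rw [hp, Ideal.span_le, Set.singleton_subset_iff]
      change π ∈ P0.asIdeal
      rw [← placeOf_red_eq_zero (k := F) (L := E) P0, hP0, Place.red_eq_zero_iff _ (hregE _), hv]
      exact Or.inr one_pos
    have h2 : p = P0.asIdeal := hmax.eq_of_le P0.isPrime.ne_top h1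
    apply IsDedekindDomain.HeightOneSpectrum.ext
    exact h2.symm
  have hvord : ∀ f : E, v.ord f = - WithZero.log (v0.valuation E f) := by
    intro f
    rw [← hP0v, ← hP0]
    exact placeOf_ord P0 f
  have hmemP : ∀ P : Ideal B, P ∈ IsDedekindDomain.primesOverFinset p B ↔ P.IsPrime ∧ P.LiesOver p := by
    intro P
    exact IsDedekindDomain.mem_primesOverFinset_iff hp0 B
  have hbot : ∀ P : Ideal B, P.LiesOver p → P ≠ ⊥ := by
    intro P hP h0
    have h1 : p = P.comap (algebraMap A B) := hP.over
    rw [h0, ← RingHom.ker_eq_comap_bot,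
      (RingHom.injective_iff_ker_eq_bot _).1 (FaithfulSMul.algebraMap_injective A B)] at h1
    exact hp0 h1
  let G : {P : Ideal B // P ∈ IsDedekindDomain.primesOverFinset p B} →
      IsDedekindDomain.HeightOneSpectrum B := fun P =>
    ⟨P.1, ((hmemP P.1).1 P.2).1, hbot P.1 ((hmemP P.1).1 P.2).2⟩
  obtain ⟨SB, hSBdef⟩ : ∃ SB : Finset (IsDedekindDomain.HeightOneSpectrum B), SB = Finset.univ.image G := ⟨_, rfl⟩
  have hSB : ∀ P, P ∈ SB ↔ P.asIdeal.comap (algebraMap A B) = v0.asIdeal := by
    intro P
    rw [hSBdef, Finset.mem_image]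
    constructor
    · rintro ⟨Q, -, rfl⟩
      have h1 := ((hmemP Q.1).1 Q.2).2
      exact h1.over.symm
    · intro h
      have hlo : P.asIdeal.LiesOver p := ⟨h.symm⟩
      exact ⟨⟨P.asIdeal, (hmemP _).2 ⟨P.isPrime, hlo⟩⟩, Finset.mem_univ _, rfl⟩
  have hres : ∀ P ∈ SB, ∀ b : B, ∃ a : A, b - algebraMap A B a ∈ P.asIdeal := by
    intro P hP b
    have hPp := (hSB P).1 hP
    have hmem : ∀ a ∈ p, algebraMap A B a ∈ P.asIdeal := by
      intro a ha
      have : a ∈ P.asIdeal.comap (algebraMap A B) := by rw [hPp]; exact ha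
      exact this
    have hPmax := P.isMaximal
    -- B/P is integral over F
    have hint : Algebra.IsIntegral F (B ⧸ P.asIdeal) := by
      constructor
      intro x
      obtain ⟨y, rfl⟩ := Ideal.Quotient.mk_surjective x
      have hy : IsIntegral A y := Algebra.IsIntegral.isIntegral y
      obtain ⟨q, hq, hqe⟩ := hy
      choose c hc using hψ
      have hcc : ∀ a : A, Ideal.Quotient.mk P.asIdeal (algebraMap A B a) = algebraMap F (B ⧸ P.asIdeal) (c a) := by
        intro a
        have h1 : algebraMap A B (a - algebraMap F A (c a)) ∈ P.asIdeal := hmem _ (hc a)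
        rw [map_sub, ← Ideal.Quotient.eq_zero_iff_mem, map_sub, sub_eq_zero,
          ← IsScalarTower.algebraMap_apply F A B] at h1
        exact h1
      -- c as a ring hom
      have hinj : Function.Injective (algebraMap F (B ⧸ P.asIdeal)) := by
        have : Nontrivial (B ⧸ P.asIdeal) := Ideal.Quotient.nontrivial_iff.2 P.isPrime.ne_top
        exact (algebraMap F (B ⧸ P.asIdeal)).injective
      let ψ : A →+* F :=
        { toFun := c
          map_one' := hinj (by rw [← hcc, map_one, map_one, map_one])
          map_zero' := hinj (by rw [← hcc, map_zero, map_zero, map_zero])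
          map_mul' := fun a b => hinj (by rw [← hcc, map_mul, map_mul, map_mul, hcc, hcc])
          map_add' := fun a b => hinj (by rw [← hcc, map_add, map_add, map_add, hcc, hcc]) }
      refine ⟨q.map ψ, hq.map _, ?_⟩
      rw [Polynomial.eval₂_map]
      have h2 : (algebraMap F (B ⧸ P.asIdeal)).comp ψ = (Ideal.Quotient.mk P.asIdeal).comp (algebraMap A B) := by
        ext a
        exact (hcc a).symm
      rw [h2, ← Polynomial.hom_eval₂, hqe, map_zero]
    have hdom : IsDomain (B ⧸ P.asIdeal) := (Ideal.Quotient.isDomain_iff_prime _).2 P.isPrime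
    have hsurj := (IsAlgClosed.algebraMap_bijective_of_isIntegral (k := F) (K := B ⧸ P.asIdeal)).2
    obtain ⟨x, hx⟩ := hsurj (Ideal.Quotient.mk P.asIdeal b)
    refine ⟨algebraMap F A x, ?_⟩
    rw [← IsScalarTower.algebraMap_apply F A B, ← Ideal.Quotient.eq_zero_iff_mem, map_sub, ← hx]
    exact sub_self _
  refine ⟨SB.image (placeOf (k := F) (L := K)), ?_, ?_⟩
  · intro w
    rw [Finset.mem_image]
    have hBπ : algebraMap A K π = algebraMap B K (algebraMap A B π) := IsScalarTower.algebraMap_apply A B K π
    have hπK : algebraMap A K π ≠ 0 := by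
      intro h
      exact hπ (hAK (by rw [h, map_zero]))
    constructor
    · rintro ⟨P, hP, rfl⟩
      have hPp := (hSB P).1 hP
      rw [placeOf_pos P hπK, hBπ, P.valuation_lt_one_iff_mem]
      have : π ∈ P.asIdeal.comap (algebraMap A B) := by rw [hPp]; exact hπp
      exact this
    · intro hw
      have hregB : ∀ b : B, w.Reg (algebraMap B K b) := by
        intro b
        refine Place.reg_of_isIntegral (A := A) w (hregK w hw) ?_
        have : IsIntegral A b := Algebra.IsIntegral.isIntegral b
        exact this.algebraMap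
      obtain ⟨P, hP⟩ := exists_placeOf_eq (k := F) (B := B) w hregB
      refine ⟨P, ?_, hP⟩
      rw [hSB]
      have h1 : p ≤ P.asIdeal.comap (algebraMap A B) := by
        rw [hp, Ideal.span_le, Set.singleton_subset_iff]
        change algebraMap A B π ∈ P.asIdeal
        rw [← placeOf_red_eq_zero (k := F) (L := K) P, hP, Place.red_eq_zero_iff _ (hregB _), ← hBπ]
        exact Or.inr hw
      have hne : P.asIdeal.comap (algebraMap A B) ≠ ⊤ := by
        intro h
        rw [Ideal.comap_eq_top_iff] at h
        exact P.isPrime.ne_top h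
      exact (hmax.eq_of_le hne h1).symm
  · intro g hg
    rw [hvord, norm_valuation v0 hmax SB hSB hres g hg, Finset.sum_image]
    · rw [← Finset.sum_neg_distrib]
      refine Finset.sum_congr rfl fun P _ => ?_
      rw [placeOf_ord]
    · intro P _ Q _ h
      exact placeOf_injective h

/-- local norm formula -/
theorem norm_local [IsAlgClosed F] (E : IntermediateField F K) (τ : K) (hτ : Transcendental F τ)
    (hE : E = F⟮τ⟯) [FiniteDimensional E K] [Algebra.IsSeparable E K] (hmem : τ ∈ E)
    (v : Place F E) (hv : v.ord ⟨τ, hmem⟩ = 1) :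
    ∃ S : Finset (Place F K), (∀ w, w ∈ S ↔ 0 < w.ord τ) ∧
      ∀ g : K, g ≠ 0 → v.ord (Algebra.norm E g) = ∑ w ∈ S, w.ord g := by
  classical
  subst hE
  open scoped algebraAdjoinAdjoin in
  let A := Algebra.adjoin F {τ}
  let e := Polynomial.algEquivOfTranscendental F τ hτ
  have hpid : IsPrincipalIdealRing A := IsPrincipalIdealRing.of_surjective e.toRingEquiv e.surjective
  have hded : IsDedekindDomain A := inferInstance
  let π : A := ⟨τ, Algebra.self_mem_adjoin_singleton F τ⟩
  have hf0 : τ ≠ 0 := by
    rintro rfl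
    exact hτ (isAlgebraic_zero)
  have hπ : π ≠ 0 := by
    intro h; exact hf0 (congrArg Subtype.val h)
  have heπ : e Polynomial.X = π := Polynomial.algEquivOfTranscendental_apply_X F τ hτ
  have hmax : (Ideal.span {π}).IsMaximal := by
    have h1 : (Ideal.span {(Polynomial.X : Polynomial F)}).IsMaximal := by
      have := PrincipalIdealRing.isMaximal_of_irreducible (Polynomial.irreducible_X (R := F))
      exact this
    have h2 : Ideal.span {π} = Ideal.map e.toRingEquiv.toRingHom (Ideal.span {(Polynomial.X : Polynomial F)}) := by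
      rw [Ideal.map_span, Set.image_singleton]
      congr 2
      exact heπ.symm
    rw [h2]
    exact Ideal.map_isMaximal_of_equiv e.toRingEquiv
  let B := integralClosure A K
  have : IsDedekindDomain B := integralClosure.isDedekindDomain A F⟮τ⟯ K
  have : IsFractionRing B K := integralClosure.isFractionRing_of_finite_extension F⟮τ⟯ K
  have hfin : Module.Finite A B := IsIntegralClosure.finite A F⟮τ⟯ K B
  have hsc : IsScalarTower F B K := by
    refine IsScalarTower.of_algebraMap_eq fun c => ?_
    rw [IsScalarTower.algebraMap_apply F A B, ← IsScalarTower.algebraMap_apply A B K,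
      ← IsScalarTower.algebraMap_apply F A K]
  have hinj : Function.Injective (algebraMap A K) := by
    rw [IsScalarTower.algebraMap_eq A F⟮τ⟯ K]
    exact (algebraMap F⟮τ⟯ K).injective.comp (IsFractionRing.injective A F⟮τ⟯)
  have htf : Module.IsTorsionFree A B := by
    have hinj' : Function.Injective (algebraMap A B) := by
      intro a b h
      apply hinj
      rw [IsScalarTower.algebraMap_apply A B K, IsScalarTower.algebraMap_apply A B K, h]
    exact Module.isTorsionFree_iff_algebraMap_injective.2 hinj'
  -- regularity on `A`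
  have hregK : ∀ w : Place F K, 0 < w.ord τ → ∀ a : A, w.Reg (algebraMap A K a) := by
    rintro w hw ⟨a, ha⟩
    change w.Reg a
    induction ha using Algebra.adjoin_induction with
    | mem x hx =>
      rw [Set.mem_singleton_iff] at hx
      subst hx
      exact Or.inr hw.le
    | algebraMap r => exact w.reg_const r
    | add x y _ _ hx hy => exact w.reg_add hx hy
    | mul x y _ _ hx hy => exact w.reg_mul hx hy
  -- the place `v` comes from `v0`
  have hπE : algebraMap A F⟮τ⟯ π = ⟨τ, hmem⟩ := rfl
  have hmon : ∀ (n : ℕ) (c : F), e (Polynomial.monomial n c) = algebraMap F A c * π ^ n := by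
    intro n c
    rw [← Polynomial.C_mul_X_pow_eq_monomial, map_mul, map_pow, heπ]
    congr 1
    exact e.commutes c
  have hregE : ∀ a : A, v.Reg (algebraMap A F⟮τ⟯ a) := by
    intro a
    obtain ⟨q, rfl⟩ := e.surjective a
    induction q using Polynomial.induction_on' with
    | add q r hq hr =>
      rw [map_add, map_add]
      exact v.reg_add hq hr
    | monomial n c =>
      rw [hmon, map_mul, map_pow, ← IsScalarTower.algebraMap_apply F A F⟮τ⟯, hπE]
      refine v.reg_mul (v.reg_const c) (Or.inr ?_)
      rw [v.ord_pow, hv, mul_one]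
      exact Int.natCast_nonneg n
  have hψ : ∀ a : A, ∃ c : F, a - algebraMap F A c ∈ Ideal.span {π} := by
    intro a
    obtain ⟨q, rfl⟩ := e.surjective a
    refine ⟨q.coeff 0, ?_⟩
    have h1 : e q - algebraMap F A (q.coeff 0) = π * e q.divX := by
      have h2 := congrArg e (Polynomial.X_mul_divX_add q)
      rw [map_add, map_mul, heπ] at h2
      have h3 : e (Polynomial.C (q.coeff 0)) = algebraMap F A (q.coeff 0) := e.commutes _
      rw [h3] at h2
      rw [← h2]; ring
    rw [h1]
    exact Ideal.mul_mem_right _ _ (Ideal.mem_span_singleton_self π)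
  exact nl_general (B := B) π hmax hπ hψ v hregE hv hregK

end H116RR
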