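import Pool.Agent.Helper116.RR.Defs2

set_option autoImplicit false
set_option linter.all false

namespace H116RR

open FF Polynomial IntermediateField

variable {F K : Type*} [Field F] [Field K] [Algebra F K]

section exists_place_fin_aux

variable {E : Type*} [Field E] [Algebra F E] (τ : E)
  (hinj : ∀ f : F[X], aeval τ f = 0 → f = 0)
  (hsurj : ∀ x : E, ∃ f g : F[X], g ≠ 0 ∧ x * aeval τ g = aeval τ f)

include hinj in
theorem epf_wd (a : F) {x : E} (hx : x ≠ 0) {f g f' g' : F[X]} (hg : g ≠ 0) (hg' : g' ≠ 0)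
    (h : x * aeval τ g = aeval τ f) (h' : x * aeval τ g' = aeval τ f') :
    (f.rootMultiplicity a : ℤ) - g.rootMultiplicity a =
      (f'.rootMultiplicity a : ℤ) - g'.rootMultiplicity a := by
  have hG : aeval τ g ≠ 0 := fun h0 => hg (hinj g h0)
  have hG' : aeval τ g' ≠ 0 := fun h0 => hg' (hinj g' h0)
  have hf : f ≠ 0 := by
    rintro rfl
    rw [map_zero] at h
    exact (mul_ne_zero hx hG) h
  have hf' : f' ≠ 0 := by
    rintro rfl
    rw [map_zero] at h'
    exact (mul_ne_zero hx hG') h'
  have h1 : f * g' = f' * g := by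
    rw [← sub_eq_zero]
    apply hinj
    rw [map_sub, map_mul, map_mul, ← h, ← h']
    ring
  have h2 := congrArg (rootMultiplicity a) h1
  rw [rootMultiplicity_mul (mul_ne_zero hf hg'), rootMultiplicity_mul (mul_ne_zero hf' hg)] at h2
  have h3 : (f.rootMultiplicity a : ℤ) + g'.rootMultiplicity a =
      f'.rootMultiplicity a + g.rootMultiplicity a := by exact_mod_cast h2
  linarith

include hinj hsurj in
theorem epf_exists (a : F) : ∃ o : E → ℤ, o 0 = 0 ∧ ∀ x : E, x ≠ 0 → ∀ f g : F[X], g ≠ 0 →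
    x * aeval τ g = aeval τ f → o x = (f.rootMultiplicity a : ℤ) - g.rootMultiplicity a := by
  classical
  choose N D hD hND using hsurj
  refine ⟨fun x => if x = 0 then 0 else ((N x).rootMultiplicity a : ℤ) - (D x).rootMultiplicity a,
    if_pos rfl, ?_⟩
  intro x hx f g hg h
  have h1 := epf_wd τ hinj a hx (hD x) hg (hND x) h
  rw [← h1]
  exact if_neg hx

include hinj hsurj in
theorem epf_place (a : F) : ∃ v : Place F E, ∀ f : F[X], f ≠ 0 →
    v.ord (aeval τ f) = f.rootMultiplicity a := by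
  obtain ⟨o, ho0, ho⟩ := epf_exists τ hinj hsurj a
  have hpol : ∀ f : F[X], f ≠ 0 → o (aeval τ f) = f.rootMultiplicity a := by
    intro f hf
    have hF : aeval τ f ≠ 0 := fun h0 => hf (hinj f h0)
    have h1 := ho (aeval τ f) hF f 1 one_ne_zero (by rw [map_one, mul_one])
    rw [h1]
    have h2 : (1 : F[X]).rootMultiplicity a = 0 := by
      have := rootMultiplicity_C (1 : F) a
      rwa [C_1] at this
    rw [h2]
    simp
  refine ⟨⟨o, ho0, ?_, ?_, ?_, ?_⟩, ?_⟩
  · intro x y hx hy
    obtain ⟨f, g, hg, h⟩ := hsurj x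
    obtain ⟨f', g', hg', h'⟩ := hsurj y
    have hG : aeval τ g ≠ 0 := fun h0 => hg (hinj g h0)
    have hG' : aeval τ g' ≠ 0 := fun h0 => hg' (hinj g' h0)
    have hf : f ≠ 0 := by
      rintro rfl
      rw [map_zero] at h
      exact (mul_ne_zero hx hG) h
    have hf' : f' ≠ 0 := by
      rintro rfl
      rw [map_zero] at h'
      exact (mul_ne_zero hy hG') h'
    rw [ho x hx f g hg h, ho y hy f' g' hg' h',
      ho (x * y) (mul_ne_zero hx hy) (f * f') (g * g') (mul_ne_zero hg hg')
        (by rw [map_mul, map_mul, ← h, ← h']; ring),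
      rootMultiplicity_mul (mul_ne_zero hf hf'), rootMultiplicity_mul (mul_ne_zero hg hg')]
    push_cast
    ring
  · intro x y hx hy hxy
    obtain ⟨f, g, hg, h⟩ := hsurj x
    obtain ⟨f', g', hg', h'⟩ := hsurj y
    have hG : aeval τ g ≠ 0 := fun h0 => hg (hinj g h0)
    have hG' : aeval τ g' ≠ 0 := fun h0 => hg' (hinj g' h0)
    have hf : f ≠ 0 := by
      rintro rfl
      rw [map_zero] at h
      exact (mul_ne_zero hx hG) h
    have hf' : f' ≠ 0 := by
      rintro rfl
      rw [map_zero] at h'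
      exact (mul_ne_zero hy hG') h'
    have hxy' : (x + y) * aeval τ (g * g') = aeval τ (f * g' + f' * g) := by
      rw [map_mul, map_add, map_mul, map_mul, ← h, ← h']
      ring
    have hne : f * g' + f' * g ≠ 0 := by
      intro h0
      rw [h0, map_zero, map_mul] at hxy'
      exact (mul_ne_zero hxy (mul_ne_zero hG hG')) hxy'
    rw [ho x hx f g hg h, ho y hy f' g' hg' h',
      ho (x + y) hxy (f * g' + f' * g) (g * g') (mul_ne_zero hg hg') hxy',
      rootMultiplicity_mul (mul_ne_zero hg hg')]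
    have h1 := rootMultiplicity_add (p := f * g') (q := f' * g) a hne
    rw [rootMultiplicity_mul (mul_ne_zero hf hg'), rootMultiplicity_mul (mul_ne_zero hf' hg)] at h1
    rcases min_le_iff.1 h1 with h2 | h2
    · apply (min_le_left _ _).trans
      have h3 : (f.rootMultiplicity a : ℤ) + g'.rootMultiplicity a ≤
        (f * g' + f' * g).rootMultiplicity a := by exact_mod_cast h2
      push_cast
      linarith
    · apply (min_le_right _ _).trans
      have h3 : (f'.rootMultiplicity a : ℤ) + g.rootMultiplicity a ≤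
        (f * g' + f' * g).rootMultiplicity a := by exact_mod_cast h2
      push_cast
      linarith
  · intro c hc
    have h1 := hpol (C c) (C_ne_zero.2 hc)
    rw [aeval_C] at h1
    rw [h1, rootMultiplicity_C]
    rfl
  · refine ⟨aeval τ (X - C a), fun h0 => X_sub_C_ne_zero a (hinj _ h0), ?_⟩
    rw [hpol _ (X_sub_C_ne_zero a), rootMultiplicity_X_sub_C_self]
    rfl
  · intro f hf
    exact hpol f hf

end exists_place_fin_aux

/-- the finite places of `F(t)` -/
theorem exists_place_fin (t : K) (ht : Transcendental F t) (E : IntermediateField F K) (hE : E = F⟮t⟯)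
    (hmem : t ∈ E) (a : F) :
    ∃ v : Place F E, v.ord (⟨t, hmem⟩ - algebraMap F E a) = 1 ∧
      ∀ f : F[X], f ≠ 0 → v.ord (aeval (⟨t, hmem⟩ : E) f) = f.rootMultiplicity a := by
  have hco : ∀ f : F[X], ((aeval (⟨t, hmem⟩ : E) f : E) : K) = aeval t f := by
    intro f
    have := Polynomial.aeval_algebraMap_apply K (⟨t, hmem⟩ : E) f
    exact this.symm
  have hinj : ∀ f : F[X], aeval (⟨t, hmem⟩ : E) f = 0 → f = 0 := by
    intro f hf
    have h1 : aeval t f = 0 := by
      rw [← hco f, hf]
      rfl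
    exact (transcendental_iff.1 ht) f h1
  have hsurj : ∀ x : E, ∃ f g : F[X], g ≠ 0 ∧
      x * aeval (⟨t, hmem⟩ : E) g = aeval (⟨t, hmem⟩ : E) f := by
    intro x
    have hx : (x : K) ∈ F⟮t⟯ := by
      rw [← hE]
      exact x.2
    rw [IntermediateField.mem_adjoin_simple_iff] at hx
    obtain ⟨r, s, hrs⟩ := hx
    by_cases hs : aeval t s = 0
    · refine ⟨0, 1, one_ne_zero, ?_⟩
      rw [hs, div_zero] at hrs
      have h0 : x = 0 := Subtype.ext hrs
      rw [h0, map_zero, zero_mul]
    · refine ⟨r, s, ?_, ?_⟩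
      · rintro rfl
        exact hs (map_zero _)
      · apply Subtype.ext
        have h1 : ((x * aeval (⟨t, hmem⟩ : E) s : E) : K) =
            (x : K) * ((aeval (⟨t, hmem⟩ : E) s : E) : K) := rfl
        rw [h1, hco, hco, hrs, div_mul_cancel₀ _ hs]
  obtain ⟨v, hv⟩ := epf_place (⟨t, hmem⟩ : E) hinj hsurj a
  refine ⟨v, ?_, hv⟩
  have h1 := hv (X - C a) (X_sub_C_ne_zero a)
  rw [map_sub, aeval_X, aeval_C, rootMultiplicity_X_sub_C_self] at h1
  rw [h1]
  rfl

end H116RR
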