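import Pool.Agent.Helper116.RR.Defs2

set_option autoImplicit false
set_option linter.all false

namespace H116RR

open FF Polynomial IntermediateField

variable {F K : Type*} [Field F] [Field K] [Algebra F K]

/-- the infinite place of `F(t)` -/
theorem exists_place_inf (t : K) (ht : Transcendental F t) (E : IntermediateField F K) (hE : E = F⟮t⟯)
    (hmem : t ∈ E) :
    ∃ v : Place F E, v.ord (⟨t, hmem⟩ : E)⁻¹ = 1 ∧
      ∀ f : F[X], f ≠ 0 → v.ord (aeval (⟨t, hmem⟩ : E) f) = - f.natDegree := by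
  subst hE
  classical
  let e : RatFunc F ≃ₐ[F] F⟮t⟯ := RatFunc.algEquivOfTranscendental t ht
  have hgen : (⟨t, hmem⟩ : F⟮t⟯) = AdjoinSimple.gen F t := rfl
  have hne : ∀ f : F⟮t⟯, f ≠ 0 → e.symm f ≠ 0 := by
    intro f hf h
    exact hf ((map_eq_zero_iff e.symm e.symm.injective).1 h)
  have hsymm : ∀ g : F[X], e.symm (aeval (⟨t, hmem⟩ : F⟮t⟯) g) = algebraMap F[X] (RatFunc F) g := by
    intro g
    rw [hgen]
    exact RatFunc.algEquivOfTranscendental_symm_aeval t ht g
  have hsX : e.symm (⟨t, hmem⟩ : F⟮t⟯) = (RatFunc.X : RatFunc F) := by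
    have := hsymm Polynomial.X
    rw [aeval_X] at this
    rw [this, RatFunc.algebraMap_X]
  have hX0 : (⟨t, hmem⟩ : F⟮t⟯) ≠ 0 := by
    intro h
    rw [h, map_zero] at hsX
    exact RatFunc.X_ne_zero hsX.symm
  have hinv : - (e.symm (⟨t, hmem⟩ : F⟮t⟯)⁻¹).intDegree = 1 := by
    rw [map_inv₀, hsX, RatFunc.intDegree_inv, RatFunc.intDegree_X]
    norm_num
  refine ⟨{ ord := fun f => - (e.symm f).intDegree
            ord_zero := by simp
            ord_mul := ?_
            ord_add := ?_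
            ord_const := ?_
            surj := ⟨(⟨t, hmem⟩ : F⟮t⟯)⁻¹, inv_ne_zero hX0, hinv⟩ }, hinv, ?_⟩
  · intro f g hf hg
    rw [map_mul, RatFunc.intDegree_mul (hne f hf) (hne g hg)]
    ring
  · intro f g hf hg hfg
    have h1 := RatFunc.intDegree_add_le (x := e.symm f) (y := e.symm g) (hne g hg)
      (by rw [← map_add]; exact hne _ hfg)
    rw [← map_add] at h1
    show min (-(e.symm f).intDegree) (-(e.symm g).intDegree) ≤ -(e.symm (f + g)).intDegree
    omega
  · intro c hc
    show -(e.symm (algebraMap F F⟮t⟯ c)).intDegree = 0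
    rw [AlgEquiv.commutes, RatFunc.algebraMap_eq_C, RatFunc.intDegree_C]
    norm_num
  · intro f hf
    show -(e.symm (aeval (⟨t, hmem⟩ : F⟮t⟯) f)).intDegree = _
    rw [hsymm, RatFunc.intDegree_polynomial]

end H116RR
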