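import Pool.Agent.Helper116.RR.ContRoot
import Pool.Agent.Helper116.RR.GordMul
import Pool.Agent.Helper116.RR.NormLocal
import Pool.Agent.Helper116.RR.PlaceFin
import Pool.Agent.Helper116.RR.PlaceInf
import Pool.Agent.Helper116.RR.NormEv
import Pool.Agent.Helper116.RR.NFNe

set_option autoImplicit false
set_option linter.all false

namespace H116RR

open FF Polynomial IntermediateField

variable {F K : Type*} [Field F] [Field K] [Algebra F K]

/-- the local formula at infinity -/
theorem local_inf [IsAlgClosed F] {t θ : K} {P : F[X][X]} (h : Gen F K t θ P) (q : F[X][X][X]) (M : ℕ)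
    (hM : q.natDegree ≤ M) (hq : ev t θ q ≠ 0) :
    ∃ S : Finset (Place F K), (∀ w, w ∈ S ↔ 0 < w.ord t⁻¹) ∧
      ∑ w ∈ S, gord w (ev t θ q) = - (tdeg (NF P q M) : ℤ) := by
  classical
  have hinf : Infinite F := IsAlgClosed.instInfinite
  have hfd := h.fin
  have hsep := h.sep
  have hmem : t ∈ F⟮t⟯ := mem_adjoin_simple_self F t
  have hmem' : t⁻¹ ∈ F⟮t⟯ := inv_mem hmem
  have hτ : Transcendental F t⁻¹ := fun ha => h.tr (IsAlgebraic.inv_iff.mp ha)
  have hE : F⟮t⟯ = F⟮t⁻¹⟯ := by
    apply le_antisymm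
    · rw [adjoin_simple_le_iff]
      have := inv_mem (mem_adjoin_simple_self F t⁻¹)
      rwa [inv_inv] at this
    · rw [adjoin_simple_le_iff]
      exact hmem'
  obtain ⟨v, hv1, hv2⟩ := exists_place_inf t h.tr F⟮t⟯ rfl hmem
  have hv : v.ord ⟨t⁻¹, hmem'⟩ = 1 := by
    have : (⟨t⁻¹, hmem'⟩ : F⟮t⟯) = (⟨t, hmem⟩ : F⟮t⟯)⁻¹ := Subtype.ext rfl
    rw [this]
    exact hv1
  obtain ⟨S, hS1, hS2⟩ := norm_local F⟮t⟯ t⁻¹ hτ hE hmem' v hv
  refine ⟨S, hS1, ?_⟩
  set G : F[X][X] := NF P q M with hG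
  have hG0 : G ≠ 0 := (NF_ne_zero_iff h q M hM).mpr hq
  set gen : F⟮t⟯ := ⟨t, hmem⟩ with hgen
  set φ : F[X] →ₐ[F] F⟮t⟯ := aeval gen with hφ
  have hφinj : Function.Injective φ := by
    have h1 : Transcendental F gen := by
      intro ha
      exact h.tr (ha.algebraMap (A := K))
    exact transcendental_iff_injective.mp h1
  set GE : F⟮t⟯[X] := G.map φ.toRingHom with hGE
  have hφinj' : Function.Injective φ.toRingHom := hφinj
  have hGE0 : GE ≠ 0 := by
    rw [hGE, Ne, Polynomial.map_eq_zero_iff hφinj']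
    exact hG0
  have hsupp : GE.support = G.support := Polynomial.support_map_of_injective _ hφinj'
  have hord : ∀ i ∈ G.support, v.ord (GE.coeff i) = - ((G.coeff i).natDegree : ℤ) := by
    intro i hi
    rw [hGE, Polynomial.coeff_map]
    exact hv2 (G.coeff i) (Polynomial.mem_support_iff.mp hi)
  have hne : GE.support.Nonempty := Polynomial.support_nonempty.mpr hGE0
  have hgord : gord v GE = - (tdeg G : ℤ) := by
    rw [gord, dif_pos hne]
    apply le_antisymm
    · obtain ⟨i, hi, him⟩ := Finset.exists_mem_eq_sup G.support (hsupp ▸ hne)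
        (fun i => (G.coeff i).natDegree)
      have h1 : GE.support.inf' hne (fun i => v.ord (GE.coeff i)) ≤ v.ord (GE.coeff i) :=
        Finset.inf'_le _ (by rw [hsupp]; exact hi)
      rw [hord i hi] at h1
      rw [tdeg, him]
      exact h1
    · refine Finset.le_inf' _ _ fun i hi => ?_
      rw [hsupp] at hi
      rw [hord i hi]
      have h1 : (G.coeff i).natDegree ≤ tdeg G :=
        Finset.le_sup (f := fun i => (G.coeff i).natDegree) hi
      have h2 : ((G.coeff i).natDegree : ℤ) ≤ (tdeg G : ℤ) := by exact_mod_cast h1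
      linarith
  have hfin : ({c : F | GE.eval (algebraMap F F⟮t⟯ c) = 0 ∨
      v.ord (GE.eval (algebraMap F F⟮t⟯ c)) ≠ gord v GE} ∪ ⋃ w ∈ S,
      {c : F | (ev t θ q).eval (algebraMap F K c) = 0 ∨
        w.ord ((ev t θ q).eval (algebraMap F K c)) ≠ gord w (ev t θ q)}).Finite := by
    refine (gord_generic v hGE0).union ?_
    exact S.finite_toSet.biUnion fun w _ => gord_generic w hq
  obtain ⟨c, hc⟩ := hfin.infinite_compl.nonempty
  have hc1 : GE.eval (algebraMap F F⟮t⟯ c) ≠ 0 ∧
      v.ord (GE.eval (algebraMap F F⟮t⟯ c)) = gord v GE := by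
    by_contra hcon
    refine hc (Or.inl ?_)
    by_cases h0 : GE.eval (algebraMap F F⟮t⟯ c) = 0
    · exact Or.inl h0
    · exact Or.inr fun h1 => hcon ⟨h0, h1⟩
  have hc2 : ∀ w ∈ S, w.ord ((ev t θ q).eval (algebraMap F K c)) = gord w (ev t θ q) := by
    intro w hw
    by_contra hcon
    exact hc (Or.inr (Set.mem_biUnion (show w ∈ (S : Set (Place F K)) from hw) (Or.inr hcon)))
  have hnorm : Algebra.norm F⟮t⟯ ((ev t θ q).eval (algebraMap F K c)) =
      GE.eval (algebraMap F F⟮t⟯ c) := by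
    apply Subtype.ext
    rw [norm_ev h q M hM c]
    have h1 : GE.eval (algebraMap F F⟮t⟯ c) = φ (G.eval (C c)) := by
      have h2 : algebraMap F F⟮t⟯ c = φ.toRingHom (C c) := by
        show _ = φ (C c)
        rw [hφ, aeval_C]
      rw [hGE, h2, Polynomial.eval_map, Polynomial.eval₂_at_apply]
      rfl
    rw [h1, hφ]
    have h3 := Polynomial.aeval_algebraMap_apply K gen (G.eval (C c))
    exact h3
  have hg0 : (ev t θ q).eval (algebraMap F K c) ≠ 0 := by
    intro h0
    rw [h0, Algebra.norm_zero] at hnorm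
    exact hc1.1 hnorm.symm
  have hfinal := hS2 _ hg0
  rw [hnorm, hc1.2, hgord] at hfinal
  rw [hfinal]
  exact Finset.sum_congr rfl fun w hw => (hc2 w hw).symm

end H116RR
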