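import Pool.Agent.Helper116.RR.Defs2

set_option autoImplicit false
set_option linter.all false

namespace H116RR

open FF Polynomial IntermediateField

variable {F K : Type*} [Field F] [Field K] [Algebra F K]

theorem pc_poly [IsAlgClosed F] (t : K) (ht : Transcendental F t) (w : Place F K)
    (h0 : ∀ a : F, w.ord (t - algebraMap F K a) = 0) (n : ℕ) :
    ∀ f : F[X], f.natDegree = n → f ≠ 0 → w.ord (aeval t f) = 0 := by
  have hne : ∀ f : F[X], f ≠ 0 → aeval t f ≠ 0 := by
    intro f hf h
    exact hf (transcendental_iff.1 ht f h)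
  induction n with
  | zero =>
    intro f hf hf0
    rw [Polynomial.eq_C_of_natDegree_eq_zero hf] at hf0 ⊢
    rw [aeval_C]
    apply w.ord_const
    intro h
    rw [h, map_zero] at hf0
    exact hf0 rfl
  | succ n ih =>
    intro f hf hf0
    have hdeg : f.degree ≠ 0 := by
      intro h
      rw [Polynomial.natDegree_eq_of_degree_eq_some h] at hf
      simp at hf
    obtain ⟨a, ha⟩ := IsAlgClosed.exists_root f hdeg
    obtain ⟨g, hg⟩ := Polynomial.dvd_iff_isRoot.2 ha
    have hg0 : g ≠ 0 := by
      rintro rfl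
      rw [mul_zero] at hg
      exact hf0 hg
    have hgd : g.natDegree = n := by
      rw [hg, Polynomial.natDegree_mul (Polynomial.X_sub_C_ne_zero a) hg0,
        Polynomial.natDegree_X_sub_C] at hf
      omega
    have e1 : aeval t f = (t - algebraMap F K a) * aeval t g := by
      rw [hg, map_mul, map_sub, aeval_X, aeval_C]
    have e2 : t - algebraMap F K a ≠ 0 := by
      have := hne (X - C a) (Polynomial.X_sub_C_ne_zero a)
      rwa [map_sub, aeval_X, aeval_C] at this
    rw [e1, w.ord_mul e2 (hne g hg0), h0, ih g hgd hg0, add_zero]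

/-- every place lies over exactly one place of `F(t)` -/
theorem place_cases [IsAlgClosed F] (t : K) (ht : Transcendental F t) [Algebra.IsAlgebraic F⟮t⟯ K]
    (w : Place F K) : 0 < w.ord t⁻¹ ∨ ∃ a : F, 0 < w.ord (t - algebraMap F K a) := by
  by_contra hcon
  push Not at hcon
  obtain ⟨h1, h2⟩ := hcon
  have hne : ∀ f : F[X], f ≠ 0 → aeval t f ≠ 0 := by
    intro f hf h
    exact hf (transcendental_iff.1 ht f h)
  have htr : w.Reg t := by
    right
    rw [w.ord_inv] at h1
    omega
  have h0 : ∀ a : F, w.ord (t - algebraMap F K a) = 0 := by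
    intro a
    have e2 : t - algebraMap F K a ≠ 0 := by
      have := hne (X - C a) (Polynomial.X_sub_C_ne_zero a)
      rwa [map_sub, aeval_X, aeval_C] at this
    have h3 : w.Reg (t - algebraMap F K a) := by
      rw [sub_eq_add_neg]
      exact w.reg_add htr (w.reg_neg (w.reg_const a))
    have h4 := (w.reg_iff e2).1 h3
    have h5 := h2 a
    omega
  have hreg : ∀ x : F⟮t⟯, w.Reg (algebraMap F⟮t⟯ K x) := by
    intro x
    by_cases hx : algebraMap F⟮t⟯ K x = 0
    · rw [hx]
      exact w.reg_zero
    · right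
      obtain ⟨r, s, hrs⟩ := IntermediateField.mem_adjoin_simple_iff F (x : K) |>.1 x.2
      have hx' : (x : K) ≠ 0 := hx
      have hr : r ≠ 0 := by
        rintro rfl
        rw [map_zero, zero_div] at hrs
        exact hx' hrs
      have hs : s ≠ 0 := by
        rintro rfl
        rw [map_zero, div_zero] at hrs
        exact hx' hrs
      have e : algebraMap F⟮t⟯ K x = aeval t r / aeval t s := hrs
      rw [e, w.ord_div (hne r hr) (hne s hs), pc_poly t ht w h0 _ r rfl hr,
        pc_poly t ht w h0 _ s rfl hs]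
      simp
  have hall : ∀ g : K, w.Reg g := by
    intro g
    have h3 : IsAlgebraic F⟮t⟯ g := Algebra.IsAlgebraic.isAlgebraic g
    exact w.reg_of_isIntegral' hreg (isAlgebraic_iff_isIntegral.1 h3)
  obtain ⟨g, hg0, hg⟩ := w.surj
  have h3 := (w.reg_iff (inv_ne_zero hg0)).1 (hall g⁻¹)
  rw [w.ord_inv, hg] at h3
  omega

end H116RR
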