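import Pool.Agent.Helper116.RR.Defs2

set_option autoImplicit false
set_option linter.all false

namespace H116RR

open FF Polynomial IntermediateField

variable {F K : Type*} [Field F] [Field K] [Algebra F K]

theorem place_disj1 (t : K) (ht : Transcendental F t) (w : Place F K) (a : F)
    (h1 : 0 < w.ord t⁻¹) : ¬ 0 < w.ord (t - algebraMap F K a) := by
  intro h2
  rw [w.ord_inv] at h1
  have hy : t - algebraMap F K a ≠ 0 := by
    intro h0
    rw [h0, w.ord_zero] at h2
    exact lt_irrefl _ h2
  have ht0 : t ≠ 0 := by
    intro h0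
    rw [h0, w.ord_zero] at h1
    simp at h1
  by_cases ha : a = 0
  · rw [ha, map_zero, sub_zero] at h2
    omega
  · have h3 : w.ord (algebraMap F K a) = 0 := w.ord_const ha
    have ha' : algebraMap F K a ≠ 0 := by
      rw [Ne, map_eq_zero]; exact ha
    have h4 := w.ord_add hy ha' (by rw [sub_add_cancel]; exact ht0)
    rw [sub_add_cancel, h3] at h4
    have h5 : min (w.ord (t - algebraMap F K a)) 0 = 0 := min_eq_right h2.le
    rw [h5] at h4
    omega

theorem place_disj2 (t : K) (ht : Transcendental F t) (w : Place F K) (a b : F)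
    (h1 : 0 < w.ord (t - algebraMap F K a)) (h2 : 0 < w.ord (t - algebraMap F K b)) : a = b := by
  by_contra hab
  have hy1 : t - algebraMap F K a ≠ 0 := by
    intro h0
    rw [h0, w.ord_zero] at h1
    exact lt_irrefl _ h1
  have hy2 : t - algebraMap F K b ≠ 0 := by
    intro h0
    rw [h0, w.ord_zero] at h2
    exact lt_irrefl _ h2
  have hba : b - a ≠ 0 := fun h => hab (sub_eq_zero.mp h).symm
  have e : (t - algebraMap F K a) - (t - algebraMap F K b) = algebraMap F K (b - a) := by
    rw [map_sub]; ring
  have h3 := w.ord_sub hy1 hy2 (by rw [e, Ne, map_eq_zero]; exact hba)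
  rw [e, w.ord_const hba] at h3
  have h4 : 0 < min (w.ord (t - algebraMap F K a)) (w.ord (t - algebraMap F K b)) := lt_min h1 h2
  omega

end H116RR
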