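import Pool.Agent.Helper116.RR.LocalFin
import Pool.Agent.Helper116.RR.LocalInf
import Pool.Agent.Helper116.RR.PlaceCases
import Pool.Agent.Helper116.RR.PlaceDisj
import Pool.Agent.Helper116.RR.GordEv
import Pool.Agent.Helper116.RR.ExistsPrim

set_option autoImplicit false
set_option linter.all false

namespace H116RR

open FF Polynomial IntermediateField

variable {F K : Type*} [Field F] [Field K] [Algebra F K]

/-- the height as the height of the norm form -/
theorem hgtP_eq_H [IsAlgClosed F] {t θ : K} {P : F[X][X]} (h : Gen F K t θ P) (q : F[X][X][X]) (M : ℕ)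
    (hM : q.natDegree ≤ M) (hq : ev t θ q ≠ 0) : hgtP F (ev t θ q) = H (NF P q M) := by
  classical
  haveI : Algebra.IsAlgebraic F⟮t⟯ K := by
    haveI := h.fin
    exact Algebra.IsAlgebraic.of_finite _ _
  haveI : Infinite F := IsAlgClosed.instInfinite
  set G := NF P q M with hG
  have hG0 : G ≠ 0 := (NF_ne_zero_iff h q M hM).2 hq
  have hc0 : cont G ≠ 0 := cont_ne_zero hG0
  choose S hS hSsum using fun a => local_fin h q M hM hq a
  obtain ⟨I, hI, hIsum⟩ := local_inf h q M hM hq
  rw [← hG] at hIsum
  simp only [← hG] at hSsum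
  let Z : Finset F := (cont G).roots.toFinset
  have hZ : ∀ a, a ∉ Z → ∀ w ∈ S a, gord w (ev t θ q) = 0 := by
    intro a ha w hw
    have h1 : (cont G).rootMultiplicity a = 0 := by
      apply rootMultiplicity_eq_zero
      intro hr
      apply ha
      rw [Multiset.mem_toFinset, mem_roots hc0]
      exact hr
    have h2 := hSsum a
    rw [h1, Nat.cast_zero, Finset.sum_eq_zero_iff_of_nonneg
      (fun w hw => gord_ev_nonneg h q a w ((hS a w).1 hw))] at h2
    exact h2 w hw
  have hsupp : Function.support (fun w : Place F K => gord w (ev t θ q)) ⊆ ↑(I ∪ Z.biUnion S) := by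
    intro w hw
    rw [Finset.mem_coe, Finset.mem_union]
    rcases place_cases t h.tr w with h1 | ⟨a, h1⟩
    · exact Or.inl ((hI w).2 h1)
    · right
      rw [Finset.mem_biUnion]
      by_cases ha : a ∈ Z
      · exact ⟨a, ha, (hS a w).2 h1⟩
      · exact absurd (hZ a ha w ((hS a w).2 h1)) hw
  have hdisj : Disjoint I (Z.biUnion S) := by
    rw [Finset.disjoint_left]
    intro w h1 h2
    rw [Finset.mem_biUnion] at h2
    obtain ⟨a, -, h3⟩ := h2
    exact place_disj1 t h.tr w a ((hI w).1 h1) ((hS a w).1 h3)
  have hpd : (Z : Set F).PairwiseDisjoint S := by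
    intro a _ b _ hab
    show Disjoint (S a) (S b)
    rw [Finset.disjoint_left]
    intro w h1 h2
    exact hab (place_disj2 t h.tr w a b ((hS a w).1 h1) ((hS b w).1 h2))
  have hcard : ∑ a ∈ Z, ((cont G).rootMultiplicity a : ℤ) = (cont G).natDegree := by
    have h1 : ∑ a ∈ Z, (cont G).rootMultiplicity a = (cont G).natDegree := by
      have h2 : ∑ a ∈ (cont G).roots.toFinset, (cont G).roots.count a = Multiset.card (cont G).roots :=
        Multiset.toFinset_sum_count_eq _
      simp only [count_roots] at h2
      have h3 : Multiset.card (cont G).roots = (cont G).natDegree :=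
        (splits_iff_card_roots.1 (IsAlgClosed.splits (cont G)))
      rw [← h3, ← h2]
    rw [← h1]
    push_cast
    rfl
  unfold hgtP H
  rw [finsum_eq_sum_of_support_subset _ hsupp, Finset.sum_union hdisj, Finset.sum_biUnion hpd,
    hIsum, Finset.sum_congr rfl (fun a _ => hSsum a), hcard]
  ring

end H116RR
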