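import Pool.Agent.Helper116.RR.Defs2

set_option autoImplicit false
set_option linter.all false

namespace H116RR

open Polynomial IntermediateField



theorem homog_one {σ : Type} (Fj : σ → Zb[X][X]) (D : Zb[X]) (r : MvPolynomial σ ℤ) :
    ∃ (N : ℕ) (W : Zb[X][X]), ∀ (K : Type) (_ : Field K) (ψ : Zb[X][X] →+* K), ψ (C D) ≠ 0 →
      ψ W = ψ (C D) ^ N * MvPolynomial.aeval (fun j => ψ (Fj j) / ψ (C D)) r := by
  induction r using MvPolynomial.induction_on with
  | C a =>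
    refine ⟨0, (a : Zb[X][X]), ?_⟩
    intro K _ ψ _
    simp only [pow_zero, one_mul, MvPolynomial.aeval_C]
    have h := eq_intCast (ψ.comp (Int.castRingHom (Zb[X][X]))) a
    have h2 : ψ (a : Zb[X][X]) = (a : K) := h
    rw [h2]
    simp
  | add p q hp hq =>
    obtain ⟨N1, W1, h1⟩ := hp
    obtain ⟨N2, W2, h2⟩ := hq
    refine ⟨N1 + N2, C D ^ N2 * W1 + C D ^ N1 * W2, ?_⟩
    intro K _ ψ hψ
    rw [map_add, map_mul, map_mul, map_pow, map_pow, h1 K _ ψ hψ, h2 K _ ψ hψ, map_add]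
    ring
  | mul_X p j hp =>
    obtain ⟨N, W, h⟩ := hp
    refine ⟨N + 1, W * Fj j, ?_⟩
    intro K _ ψ hψ
    rw [map_mul, h K _ ψ hψ, map_mul, MvPolynomial.aeval_X, pow_succ]
    field_simp

/-- homogenization, uniform over a finite family -/
theorem homog {σ : Type} [Fintype σ] (Fj : σ → Zb[X][X]) (D : Zb[X]) {ι : Type*} [Finite ι]
    (V : ι → MvPolynomial σ ℤ) :
    ∃ (N : ℕ) (W : ι → Zb[X][X]), ∀ (K : Type) (_ : Field K) (ψ : Zb[X][X] →+* K), ψ (C D) ≠ 0 →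
      ∀ a, ψ (W a) = ψ (C D) ^ N * MvPolynomial.aeval (fun j => ψ (Fj j) / ψ (C D)) (V a) := by
  classical
  have := Fintype.ofFinite ι
  choose N W h using fun a => homog_one Fj D (V a)
  refine ⟨∑ a, N a, fun a => C D ^ (∑ b ∈ Finset.univ.erase a, N b) * W a, ?_⟩
  intro K _ ψ hψ a
  rw [map_mul, map_pow, h a K _ ψ hψ, ← mul_assoc, ← pow_add]
  congr 2
  exact Finset.sum_erase_add _ _ (Finset.mem_univ a)

end H116RR
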