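import Pool.Agent.Helper116.RR.Reduction
import Pool.Agent.Helper693.Nef.SummedH

/-! Nonnegativity in characteristic zero of the degree on interior points. -/

set_option autoImplicit false
set_option linter.all false

namespace H116RR

open FF MvPolynomial

abbrev S4 : Type := Equiv.Perm (Fin 4)

/-- the variables: `a_i`, `z_ij`, `s, t` -/
abbrev Var : Type := Fin 4 ⊕ (Fin 4 × Fin 4) ⊕ Fin 2

noncomputable section

def vA (i : Fin 4) : MvPolynomial Var ℤ := X (Sum.inl i)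
def vZ (i j : Fin 4) : MvPolynomial Var ℤ := X (Sum.inr (Sum.inl (i, j)))
def vS : MvPolynomial Var ℤ := X (Sum.inr (Sum.inr 0))
def vT : MvPolynomial Var ℤ := X (Sum.inr (Sum.inr 1))

/-- the vectors -/
def VV : Fin 5 → S4 → MvPolynomial Var ℤ
  | 0, _ => ∏ q ∈ (Finset.univ : Finset (Fin 4 × Fin 4)).filter (fun q => q.1 ≠ q.2), (vA q.1 - vA q.2)
  | 1, σ => if σ 0 = 0 then vS else vT
  | 2, σ => vZ (σ 0) (σ 1)
  | 3, σ => vZ (σ 0) (σ 1) ^ 2 * vZ (σ 2) (σ 3)
  | 4, σ => (vS - vT * vA (σ 0)) * (vZ (σ 1) (σ 2) ^ 2 * vZ (σ 2) (σ 3) * vZ (σ 3) (σ 1))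

def rels : Finset (MvPolynomial Var ℤ) :=
  (Finset.univ.image fun q : Fin 4 × Fin 4 => vZ q.1 q.2 ^ 3 - (vA q.1 - vA q.2)) ∪
    (Finset.univ.image fun q : Fin 4 × Fin 4 => vZ q.2 q.1 + vZ q.1 q.2)

/-- the point -/
def pt {K : Type*} (a : Fin 4 → K) (z : Fin 4 → Fin 4 → K) (s t : K) : Var → K :=
  Sum.elim a (Sum.elim (fun q => z q.1 q.2) ![s, t])

end

theorem interior_nonneg {K : Type} [Field K] [Algebra Qb K] [IsFF Qb K]
    (a : Fin 4 → K) (z : Fin 4 → Fin 4 → K) (hinj : Function.Injective a)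
    (hcube : ∀ i j, (z i j) ^ 3 = a i - a j) (hanti : ∀ i j, z j i = - z i j)
    (s t : K) (hst : ¬ (s = 0 ∧ t = 0)) :
    0 ≤ hgt Qb (fun σ : S4 => z (σ 0) (σ 1)) -
        hgt Qb (fun σ : S4 => z (σ 0) (σ 1) ^ 2 * z (σ 2) (σ 3)) +
        hgt Qb (fun σ : S4 => (s - t * a (σ 0)) *
          (z (σ 1) (σ 2) ^ 2 * z (σ 2) (σ 3) * z (σ 3) (σ 1))) := by
  classical
  set x : Var → K := pt a z s t with hx
  have hA : ∀ i, aeval x (vA i) = a i := fun i => by simp [vA, hx, pt]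
  have hZ : ∀ i j, aeval x (vZ i j) = z i j := fun i j => by simp [vZ, hx, pt]
  have hS : aeval x vS = s := by simp [vS, hx, pt]
  have hT : aeval x vT = t := by simp [vT, hx, pt]
  have hz0 : ∀ i j, i ≠ j → z i j ≠ 0 := by
    intro i j hij h0
    have h := hcube i j
    rw [h0, zero_pow (by norm_num)] at h
    exact hij (hinj (sub_eq_zero.1 h.symm))
  have hrel : ∀ r ∈ rels, aeval x r = 0 := by
    intro r hr
    unfold rels at hr
    rw [Finset.mem_union, Finset.mem_image, Finset.mem_image] at hr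
    rcases hr with ⟨q, -, rfl⟩ | ⟨q, -, rfl⟩
    · rw [map_sub, map_pow, map_sub, hZ, hA, hA, hcube, sub_self]
    · rw [map_add, hZ, hZ, hanti q.1 q.2, neg_add_cancel]
  have hV : ∀ l, ∃ σ, aeval x (VV l σ) ≠ 0 := by
    intro l
    fin_cases l
    · refine ⟨1, ?_⟩
      show aeval x (∏ q ∈ (Finset.univ : Finset (Fin 4 × Fin 4)).filter (fun q => q.1 ≠ q.2), (vA q.1 - vA q.2)) ≠ 0
      rw [map_prod, Finset.prod_ne_zero_iff]
      intro q hq
      rw [map_sub, hA, hA]
      intro h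
      exact (Finset.mem_filter.1 hq).2 (hinj (sub_eq_zero.1 h))
    · by_cases hs : s = 0
      · refine ⟨Equiv.swap 0 1, ?_⟩
        show aeval x (if (Equiv.swap (0 : Fin 4) 1) 0 = 0 then vS else vT) ≠ 0
        rw [Equiv.swap_apply_left, if_neg (by decide), hT]
        exact fun h => hst ⟨hs, h⟩
      · refine ⟨1, ?_⟩
        show aeval x (if (1 : S4) 0 = 0 then vS else vT) ≠ 0
        rw [Equiv.Perm.one_apply, if_pos rfl, hS]
        exact hs
    · refine ⟨1, ?_⟩
      show aeval x (vZ _ _) ≠ 0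
      rw [hZ]
      exact hz0 _ _ (by decide)
    · refine ⟨1, ?_⟩
      show aeval x (vZ _ _ ^ 2 * vZ _ _) ≠ 0
      rw [map_mul, map_pow, hZ, hZ]
      exact mul_ne_zero (pow_ne_zero _ (hz0 _ _ (by decide))) (hz0 _ _ (by decide))
    · obtain ⟨i, hi⟩ : ∃ i, s - t * a i ≠ 0 := by
        by_contra hcon
        push Not at hcon
        have h0 := hcon 0
        have h1 := hcon 1
        have h2 : t * (a 0 - a 1) = 0 := by linear_combination h1 - h0
        have h3 : t = 0 := (mul_eq_zero.1 h2).resolve_right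
          (fun h => absurd (hinj (sub_eq_zero.1 h)) (by decide))
        rw [h3] at h0
        exact hst ⟨by simpa using h0, h3⟩
      refine ⟨Equiv.swap 0 i, ?_⟩
      show aeval x ((vS - vT * vA (Equiv.swap 0 i 0)) * (vZ (Equiv.swap 0 i 1) (Equiv.swap 0 i 2) ^ 2 *
        vZ (Equiv.swap 0 i 2) (Equiv.swap 0 i 3) * vZ (Equiv.swap 0 i 3) (Equiv.swap 0 i 1))) ≠ 0
      rw [Equiv.swap_apply_left]
      simp only [map_mul, map_sub, map_pow, hZ, hA, hS, hT]
      have hne : ∀ u v : Fin 4, u ≠ v → Equiv.swap 0 i u ≠ Equiv.swap 0 i v :=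
        fun u v huv h => huv ((Equiv.swap 0 i).injective h)
      exact mul_ne_zero hi (mul_ne_zero (mul_ne_zero (pow_ne_zero _ (hz0 _ _ (hne _ _ (by decide))))
        (hz0 _ _ (hne _ _ (by decide)))) (hz0 _ _ (hne _ _ (by decide))))
  obtain ⟨N, hN⟩ := reduction x rels hrel VV hV
  set hz := hgt Qb (fun σ : S4 => z (σ 0) (σ 1)) with hhz
  set hze := hgt Qb (fun σ : S4 => z (σ 0) (σ 1) ^ 2 * z (σ 2) (σ 3)) with hhze
  set hth := hgt Qb (fun σ : S4 => (s - t * a (σ 0)) *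
          (z (σ 1) (σ 2) ^ 2 * z (σ 2) (σ 3) * z (σ 3) (σ 1))) with hhth
  obtain ⟨p, hpN, hpp, hpm⟩ := Nat.exists_prime_gt_modEq_one (k := 3) (N + (13 * hz).natAbs + 7) (by norm_num)
  have hpf : Fact p.Prime := ⟨hpN⟩
  obtain ⟨e, he⟩ : ∃ e, p = 3 * e + 1 := by
    have h1 := hpm
    unfold Nat.ModEq at h1
    exact ⟨p / 3, by omega⟩
  obtain ⟨I, iI, Ki, iF, iA, ee, xi, hFF, hee, hreli, hVi, hsum⟩ := hN p hpf (by omega)
  have key : ∀ i, -13 * hgt (Fb p) (fun σ : S4 => aeval (xi i) (VV 2 σ)) ≤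
      p * (hgt (Fb p) (fun σ : S4 => aeval (xi i) (VV 2 σ)) -
        hgt (Fb p) (fun σ : S4 => aeval (xi i) (VV 3 σ)) +
        hgt (Fb p) (fun σ : S4 => aeval (xi i) (VV 4 σ))) := by
    intro i
    have := hFF i
    have hch : CharP (Ki i) p := charP_of_injective_algebraMap (algebraMap (Fb p) (Ki i)).injective p
    have h1 := Nef.summed_hgt (k := Fb p) (K := Ki i) (p := p) (e := e) he (by omega)
      (fun j => aeval (xi i) (vA j)) (fun j l => aeval (xi i) (vZ j l)) ?_ ?_ ?_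
      (aeval (xi i) vS) (aeval (xi i) vT) ?_
    · simpa only [VV, map_mul, map_sub, map_pow] using h1
    · intro j l hjl
      by_contra hne
      obtain ⟨σ, hσ⟩ := hVi i 0
      apply hσ
      show aeval (xi i) (∏ q ∈ (Finset.univ : Finset (Fin 4 × Fin 4)).filter (fun q => q.1 ≠ q.2), (vA q.1 - vA q.2)) = 0
      rw [map_prod]
      refine Finset.prod_eq_zero (i := (j, l)) (by simpa using hne) ?_
      rw [map_sub]
      exact sub_eq_zero.2 hjl
    · intro j l
      have h2 := hreli i (vZ j l ^ 3 - (vA j - vA l)) (by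
        unfold rels
        rw [Finset.mem_union]
        left
        exact Finset.mem_image.2 ⟨(j, l), Finset.mem_univ _, rfl⟩)
      rw [map_sub, map_pow, map_sub] at h2
      exact sub_eq_zero.1 h2
    · intro j l
      have h2 := hreli i (vZ l j + vZ j l) (by
        unfold rels
        rw [Finset.mem_union]
        right
        exact Finset.mem_image.2 ⟨(j, l), Finset.mem_univ _, rfl⟩)
      rw [map_add] at h2
      exact eq_neg_of_add_eq_zero_left h2
    · rintro ⟨h1, h2⟩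
      obtain ⟨σ, hσ⟩ := hVi i 1
      apply hσ
      show aeval (xi i) (if σ 0 = 0 then vS else vT) = 0
      split_ifs
      · exact h1
      · exact h2
  have e2 : hz = ∑ i, (ee i : ℤ) * hgt (Fb p) (fun σ : S4 => aeval (xi i) (VV 2 σ)) := by
    rw [← hsum 2, hhz]
    congr 1
    funext σ
    exact (hZ _ _).symm
  have e3 : hze = ∑ i, (ee i : ℤ) * hgt (Fb p) (fun σ : S4 => aeval (xi i) (VV 3 σ)) := by
    rw [← hsum 3, hhze]
    congr 1
    funext σ
    show _ = aeval x (vZ _ _ ^ 2 * vZ _ _)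
    rw [map_mul, map_pow, hZ, hZ]
  have e4 : hth = ∑ i, (ee i : ℤ) * hgt (Fb p) (fun σ : S4 => aeval (xi i) (VV 4 σ)) := by
    rw [← hsum 4, hhth]
    congr 1
    funext σ
    show _ = aeval x ((vS - vT * vA (σ 0)) * (vZ (σ 1) (σ 2) ^ 2 * vZ (σ 2) (σ 3) * vZ (σ 3) (σ 1)))
    simp only [map_mul, map_sub, map_pow, hZ, hA, hS, hT]
  have hfin : -13 * hz ≤ p * (hz - hze + hth) := by
    rw [e2, e3, e4, Finset.mul_sum, ← Finset.sum_sub_distrib, ← Finset.sum_add_distrib, Finset.mul_sum]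
    refine Finset.sum_le_sum fun i _ => ?_
    have h1 := mul_le_mul_of_nonneg_left (key i) (show (0 : ℤ) ≤ ee i by positivity)
    linarith
  by_contra hneg
  push Not at hneg
  have h1 : hz - hze + hth ≤ -1 := by omega
  have h2 : (p : ℤ) * (hz - hze + hth) ≤ p * (-1) := mul_le_mul_of_nonneg_left h1 (by positivity)
  omega

end H116RR
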