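import Pool.Agent.Helper116.RR.ContRoot
import Pool.Agent.Helper116.RR.GordMul
import Pool.Agent.Helper116.RR.NormLocal
import Pool.Agent.Helper116.RR.PlaceFin
import Pool.Agent.Helper116.RR.PlaceInf
import Pool.Agent.Helper116.RR.NormEv
import Pool.Agent.Helper116.RR.NFNe

set_option autoImplicit false
set_option linter.all false

namespace H116RR

open FF Polynomial IntermediateField

variable {F K : Type*} [Field F] [Field K] [Algebra F K]

/-- the local formula at a finite place -/
theorem local_fin [IsAlgClosed F] {t θ : K} {P : F[X][X]} (h : Gen F K t θ P) (q : F[X][X][X]) (M : ℕ)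
    (hM : q.natDegree ≤ M) (hq : ev t θ q ≠ 0) (a : F) :
    ∃ S : Finset (Place F K), (∀ w, w ∈ S ↔ 0 < w.ord (t - algebraMap F K a)) ∧
      ∑ w ∈ S, gord w (ev t θ q) = (cont (NF P q M)).rootMultiplicity a := by
  classical
  haveI : Infinite F := inferInstance
  haveI := h.fin
  haveI := h.sep
  have hmem : t ∈ F⟮t⟯ := mem_adjoin_simple_self F t
  set gen : F⟮t⟯ := ⟨t, hmem⟩ with hgen
  set τ : K := t - algebraMap F K a with hτdef
  have hτmem : τ ∈ F⟮t⟯ := sub_mem hmem (F⟮t⟯.algebraMap_mem a)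
  have hτ : Transcendental F τ := by
    intro hal
    apply h.tr
    have h1 : IsAlgebraic F (τ + algebraMap F K a) := hal.add (isAlgebraic_algebraMap a)
    rwa [hτdef, sub_add_cancel] at h1
  have hE : F⟮t⟯ = F⟮τ⟯ := by
    apply le_antisymm
    · rw [adjoin_simple_le_iff]
      have h1 : τ ∈ F⟮τ⟯ := mem_adjoin_simple_self F τ
      have h2 : t = τ + algebraMap F K a := by rw [hτdef, sub_add_cancel]
      rw [h2]
      exact add_mem h1 (F⟮τ⟯.algebraMap_mem a)
    · rw [adjoin_simple_le_iff]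
      exact hτmem
  obtain ⟨v, hv1, hv2⟩ := exists_place_fin t h.tr F⟮t⟯ rfl hmem a
  have hv : v.ord ⟨τ, hτmem⟩ = 1 := by
    have : (⟨τ, hτmem⟩ : F⟮t⟯) = ⟨t, hmem⟩ - algebraMap F F⟮t⟯ a := Subtype.ext rfl
    rw [this]
    exact hv1
  obtain ⟨S, hS1, hS2⟩ := norm_local F⟮t⟯ τ hτ hE hτmem v hv
  refine ⟨S, hS1, ?_⟩
  have hG : NF P q M ≠ 0 := (NF_ne_zero_iff h q M hM).2 hq
  set G := NF P q M with hGdef
  set φ : F[X] →+* F⟮t⟯ := (aeval gen : F[X] →ₐ[F] F⟮t⟯).toRingHom with hφ
  have hφv : ∀ f : F[X], ((φ f : F⟮t⟯) : K) = aeval t f := by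
    intro f
    exact (aeval_algebraMap_apply K gen f).symm
  have hinj : Function.Injective φ := by
    intro f g hfg
    have h1 : aeval t f = aeval t g := by rw [← hφv, ← hφv, hfg]
    exact (transcendental_iff_injective.1 h.tr) h1
  set GE := G.map φ with hGE
  have hGE0 : GE ≠ 0 := (Polynomial.map_ne_zero_iff hinj).2 hG
  have hsupp : GE.support = G.support := support_map_of_injective G hinj
  have hgord : gord v GE = (cont G).rootMultiplicity a := by
    have hne : GE.support.Nonempty := nonempty_support_iff.2 hGE0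
    obtain ⟨c1, i, hi, hi2⟩ := cont_rootMultiplicity hG a
    have hcoeff : ∀ i ∈ GE.support, v.ord (GE.coeff i) = (G.coeff i).rootMultiplicity a := by
      intro i hi
      rw [hsupp] at hi
      rw [hGE, coeff_map]
      exact hv2 _ (mem_support_iff.1 hi)
    unfold gord
    rw [dif_pos hne]
    apply le_antisymm
    · have hi' : i ∈ GE.support := by rw [hsupp]; exact hi
      refine (Finset.inf'_le _ hi').trans ?_
      rw [hcoeff i hi', hi2]
    · apply Finset.le_inf'
      intro j hj
      rw [hcoeff j hj]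
      exact_mod_cast c1 j (by rw [hsupp] at hj; exact hj)
  have hf1 := gord_generic v hGE0
  have hf2 : (⋃ w ∈ S, {c : F | (ev t θ q).eval (algebraMap F K c) = 0 ∨
      w.ord ((ev t θ q).eval (algebraMap F K c)) ≠ gord w (ev t θ q)}).Finite :=
    Set.Finite.biUnion S.finite_toSet (fun w _ => gord_generic w hq)
  obtain ⟨c, hc⟩ := (hf1.union hf2).infinite_compl.nonempty
  rw [Set.mem_compl_iff, Set.mem_union, not_or] at hc
  obtain ⟨hc1, hc2⟩ := hc
  have hc1' : ¬ (GE.eval (algebraMap F F⟮t⟯ c) = 0) ∧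
      v.ord (GE.eval (algebraMap F F⟮t⟯ c)) = gord v GE := by
    have := hc1
    simp only [Set.mem_setOf_eq, not_or, not_not] at this
    exact this
  have hc2' : ∀ w ∈ S, w.ord ((ev t θ q).eval (algebraMap F K c)) = gord w (ev t θ q) := by
    intro w hw
    by_contra hne
    exact hc2 (Set.mem_biUnion hw (Or.inr hne))
  have heval : GE.eval (algebraMap F F⟮t⟯ c) = φ (G.eval (C c)) := by
    have h1 : algebraMap F F⟮t⟯ c = φ (C c) := by
      change _ = aeval gen (C c)
      rw [aeval_C]
    rw [h1, hGE, eval_map, eval₂_hom]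
  have hnorm : Algebra.norm F⟮t⟯ ((ev t θ q).eval (algebraMap F K c)) =
      GE.eval (algebraMap F F⟮t⟯ c) := by
    apply Subtype.ext
    rw [norm_ev h q M hM c, heval, hφv]
  have hg0 : (ev t θ q).eval (algebraMap F K c) ≠ 0 := by
    intro h0
    rw [h0, Algebra.norm_zero] at hnorm
    exact hc1'.1 hnorm.symm
  rw [← hgord, ← hc1'.2, ← hnorm, hS2 _ hg0]
  exact Finset.sum_congr rfl fun w hw => (hc2' w hw).symm

end H116RR
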