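import Pool.Agent.Helper116.RR.Defs

set_option autoImplicit false
set_option linter.all false

namespace H116RR

open Polynomial



theorem NF_mul_aux {R : Type*} [CommRing R] [Nontrivial R] (P₁ P₂ : R[X][X]) (h₁ : P₁.Monic)
    (h₂ : P₂.Monic) (q : R[X][X][X]) (M : ℕ) (hM : q.natDegree ≤ M) :
    NF (P₁ * P₂) q M = NF P₁ q M * NF P₂ q M := by
  unfold NF
  have e1 : (P₁.map (C : R[X] →+* R[X][X])).natDegree = P₁.natDegree := h₁.natDegree_map _
  have e2 : (P₂.map (C : R[X] →+* R[X][X])).natDegree = P₂.natDegree := h₂.natDegree_map _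
  rw [h₁.natDegree_mul h₂, Polynomial.map_mul]
  have := resultant_mul_left (P₁.map (C : R[X] →+* R[X][X])) (P₂.map (C : R[X] →+* R[X][X])) q M hM
  rw [e1, e2] at this
  exact this

theorem NF_one_aux {R : Type*} [CommRing R] [Nontrivial R] (q : R[X][X][X]) (M : ℕ) :
    NF (1 : R[X][X]) q M = 1 := by
  unfold NF
  rw [natDegree_one, Polynomial.map_one, resultant_zero_left_deg]
  simp

theorem NF_pow_aux {R : Type*} [CommRing R] [Nontrivial R] (P : R[X][X]) (h : P.Monic)
    (q : R[X][X][X]) (M : ℕ) (hM : q.natDegree ≤ M) (n : ℕ) :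
    NF (P ^ n) q M = NF P q M ^ n := by
  induction n with
  | zero => rw [pow_zero, pow_zero, NF_one_aux]
  | succ n ih => rw [pow_succ, pow_succ, NF_mul_aux _ _ (h.pow n) h q M hM, ih]

theorem NF_prod_pow {R : Type*} [CommRing R] [Nontrivial R] {I : Type*} (s : Finset I)
    (P : I → R[X][X]) (e : I → ℕ) (hP : ∀ i ∈ s, (P i).Monic) (q : R[X][X][X]) (M : ℕ)
    (hM : q.natDegree ≤ M) :
    NF (∏ i ∈ s, P i ^ e i) q M = ∏ i ∈ s, NF (P i) q M ^ e i := by
  classical
  induction s using Finset.induction_on with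
  | empty => simp only [Finset.prod_empty]; exact NF_one_aux q M
  | insert a s ha ih =>
    rw [Finset.prod_insert ha, Finset.prod_insert ha]
    have h1 : (P a).Monic := hP a (Finset.mem_insert_self a s)
    have h2 : ∀ i ∈ s, (P i).Monic := fun i hi => hP i (Finset.mem_insert_of_mem hi)
    rw [NF_mul_aux _ _ (h1.pow _) (monic_prod_of_monic _ _ fun i hi => (h2 i hi).pow _) q M hM,
      NF_pow_aux _ h1 q M hM, ih h2]

end H116RR
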