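import Pool.Agent.Helper116.RR.Defs2
import Pool.Agent.Helper693.Nef.PF

set_option autoImplicit false
set_option linter.all false

namespace H116RR

open FF Polynomial IntermediateField

variable {F K : Type*} [Field F] [Field K] [Algebra F K]

theorem product_formula [IsAlgClosed F] {t θ : K} {P : F[X][X]} (h : Gen F K t θ P) {g : K} (hg : g ≠ 0) :
    {w : Place F K | w.ord g ≠ 0}.Finite ∧ ∑ᶠ w : Place F K, w.ord g = 0 := by
  have := h.isFF
  exact ⟨finite_supp g, prod_formula g⟩

end H116RR
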