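import Pool.Agent.Helper116.RR.Defs2

set_option autoImplicit false
set_option linter.all false

namespace H116RR

open Polynomial IntermediateField



theorem separable_of_lt {F : Type*} [Field F] {Q : F[X][X]} (hQ : Q.Monic)
    (hirr : Irreducible (Q.map (algebraMap F[X] (RatFunc F)))) (p : ℕ) [CharP F p]
    (hlt : Q.natDegree < p) : (Q.map (algebraMap F[X] (RatFunc F))).Separable := by
  have hch : CharP (RatFunc F) p :=
    charP_of_injective_algebraMap (algebraMap F (RatFunc F)).injective p
  rw [separable_iff_derivative_ne_zero hirr]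
  intro h0
  have hdeg : (Q.map (algebraMap F[X] (RatFunc F))).natDegree = Q.natDegree :=
    hQ.natDegree_map _
  have hpos : 0 < Q.natDegree := by
    rw [← hdeg]
    exact hirr.natDegree_pos
  obtain ⟨m, hm⟩ : ∃ m, Q.natDegree = m + 1 := ⟨Q.natDegree - 1, by omega⟩
  have h1 := congrArg (fun P => coeff P m) h0
  simp only [coeff_derivative, coeff_zero] at h1
  have h2 : (Q.map (algebraMap F[X] (RatFunc F))).coeff (m + 1) = 1 := by
    have := (hQ.map (algebraMap F[X] (RatFunc F))).coeff_natDegree
    rwa [hdeg, hm] at this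
  rw [h2, one_mul] at h1
  have h3 : ((m + 1 : ℕ) : RatFunc F) = 0 := by exact_mod_cast h1
  rw [CharP.cast_eq_zero_iff (RatFunc F) p] at h3
  have := Nat.le_of_dvd (by omega) h3
  omega

end H116RR
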