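import Pool.Agent.Helper116.RR.Defs2

set_option autoImplicit false
set_option linter.all false

namespace H116RR

open FF Polynomial

variable {F K : Type*} [Field F] [Field K] [Algebra F K]

theorem vpoly_coeff_aux {A : Type*} [CommRing A] {ι : Type*} [Fintype ι] (y : ι → A) (a : ι) :
    (vpoly y).coeff ((Fintype.equivFin ι a : Fin _) : ℕ) = y a := by
  classical
  unfold vpoly
  rw [Polynomial.finset_sum_coeff, Finset.sum_eq_single a]
  · rw [Polynomial.coeff_monomial, if_pos rfl]
  · intro b _ hb
    rw [Polynomial.coeff_monomial, if_neg]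
    intro h
    exact hb ((Fintype.equivFin ι).injective (Fin.ext h))
  · intro h
    exact absurd (Finset.mem_univ a) h

theorem vpoly_coeff_aux2 {A : Type*} [CommRing A] {ι : Type*} [Fintype ι] (y : ι → A) (n : ℕ)
    (h : (vpoly y).coeff n ≠ 0) : ∃ a : ι, ((Fintype.equivFin ι a : Fin _) : ℕ) = n ∧ y a ≠ 0 := by
  classical
  by_contra hcon
  push Not at hcon
  apply h
  unfold vpoly
  rw [Polynomial.finset_sum_coeff]
  apply Finset.sum_eq_zero
  intro a _
  rw [Polynomial.coeff_monomial]
  split_ifs with h1
  · exact hcon a h1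
  · rfl

theorem vpoly_eq_zero_iff {A : Type*} [CommRing A] {ι : Type*} [Fintype ι] (y : ι → A) :
    vpoly y = 0 ↔ y = 0 := by
  constructor
  · intro h
    funext a
    rw [← vpoly_coeff_aux y a, h, Polynomial.coeff_zero, Pi.zero_apply]
  · intro h
    ext n
    rw [Polynomial.coeff_zero]
    by_contra hn
    obtain ⟨a, _, ha⟩ := vpoly_coeff_aux2 y n hn
    exact ha (by rw [h, Pi.zero_apply])

theorem vord_eq_gord {ι : Type*} [Fintype ι] (w : Place F K) (y : ι → K) :
    vord w y = gord w (vpoly y) := by
  classical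
  unfold vord gord
  by_cases h1 : (vpoly y).support.Nonempty
  · have h2 : (Finset.univ.filter (fun a => y a ≠ 0)).Nonempty := by
      obtain ⟨n, hn⟩ := h1
      obtain ⟨a, _, ha⟩ := vpoly_coeff_aux2 y n (Polynomial.mem_support_iff.1 hn)
      exact ⟨a, Finset.mem_filter.2 ⟨Finset.mem_univ _, ha⟩⟩
    rw [dif_pos h1]
    have key : (Finset.univ.filter (fun a => y a ≠ 0)).inf' h2 (fun a => w.ord (y a)) =
        (vpoly y).support.inf' h1 (fun i => w.ord ((vpoly y).coeff i)) := by
      apply le_antisymm
      · apply Finset.le_inf'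
        intro n hn
        obtain ⟨a, rfl, ha⟩ := vpoly_coeff_aux2 y n (Polynomial.mem_support_iff.1 hn)
        rw [vpoly_coeff_aux]
        exact Finset.inf'_le (fun a => w.ord (y a)) (Finset.mem_filter.2 ⟨Finset.mem_univ _, ha⟩)
      · apply Finset.le_inf'
        intro a ha
        have ha' := (Finset.mem_filter.1 ha).2
        have hmem : ((Fintype.equivFin ι a : Fin _) : ℕ) ∈ (vpoly y).support :=
          Polynomial.mem_support_iff.2 (by rw [vpoly_coeff_aux y a]; exact ha')
        have h3 := Finset.inf'_le (fun i => w.ord ((vpoly y).coeff i)) hmem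
        refine h3.trans (le_of_eq ?_)
        beta_reduce
        rw [vpoly_coeff_aux]
    rw [← key]
    convert dif_pos h2
  · have h2 : ¬ (Finset.univ.filter (fun a => y a ≠ 0)).Nonempty := by
      rintro ⟨a, ha⟩
      apply h1
      refine ⟨((Fintype.equivFin ι a : Fin _) : ℕ), Polynomial.mem_support_iff.2 ?_⟩
      rw [vpoly_coeff_aux]
      exact (Finset.mem_filter.1 ha).2
    rw [dif_neg h1]
    convert dif_neg h2

theorem vpoly_map {A B : Type*} [CommRing A] [CommRing B] {ι : Type*} [Fintype ι] (φ : A →+* B) (y : ι → A) :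
    (vpoly y).map φ = vpoly (fun a => φ (y a)) := by
  unfold vpoly
  rw [Polynomial.map_sum]
  apply Finset.sum_congr rfl
  intro a _
  rw [Polynomial.map_monomial]

end H116RR
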