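import Pool.Agent.Helper116.RR.HMul
import Pool.Agent.Helper116.RR.NFProd
import Pool.Agent.Helper116.RR.HgtEq
import Pool.Agent.Helper116.RR.GordFin
import Pool.Agent.Helper116.RR.VPoly
import Pool.Agent.Helper116.RR.HRed
import Pool.Agent.Helper116.RR.ExFactor
import Pool.Agent.Helper116.RR.ExGen
import Pool.Agent.Helper116.RR.ExK
import Pool.Agent.Helper116.RR.SepLt
import Pool.Agent.Helper116.RR.Homog
import Pool.Agent.Helper116.RR.DvdEv
import Pool.Agent.Helper116.RR.EvQ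
import Pool.Agent.Helper116.RR.ExRho

/-! Exact additivity of heights under reduction modulo large primes. -/

set_option autoImplicit false
set_option linter.all false

namespace H116RR

open FF Polynomial IntermediateField

section
variable {F K : Type*} [Field F] [Field K] [Algebra F K]

theorem hgt_eq_hgtP {ι : Type*} [Fintype ι] (y : ι → K) : hgt F y = hgtP F (vpoly y) := by
  unfold hgt hgtP
  congr 1
  exact finsum_congr fun w => vord_eq_gord w y

theorem vpoly_smul {ι : Type*} [Fintype ι] (c : K) (y : ι → K) :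
    vpoly (fun a => c * y a) = C c * vpoly y := by
  unfold vpoly
  rw [Finset.mul_sum]
  refine Finset.sum_congr rfl fun a _ => ?_
  rw [C_mul_monomial]

/-- the height of a vector of numerators -/
theorem hgt_via_NF [IsAlgClosed F] {R : Type*} [CommRing R] (φ : R →+* F) {t θ : K} {P : F[X][X]}
    (h : Gen F K t θ P) {ι : Type*} [Fintype ι] (W : ι → R[X][X]) (y : ι → K) (d : K) (hd : d ≠ 0)
    (hW : ∀ a, evR φ t θ (W a) = d * y a) (hy : y ≠ 0) (M : ℕ) (hM : (qpoly W).natDegree ≤ M) :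
    ev t θ ((qpoly W).map (mapRingHom (mapRingHom φ))) ≠ 0 ∧
    hgt F y = H (NF P ((qpoly W).map (mapRingHom (mapRingHom φ))) M) := by
  have h1 : ev t θ ((qpoly W).map (mapRingHom (mapRingHom φ))) = C d * vpoly y := by
    rw [ev_qpoly, ← vpoly_smul]
    congr 1
    funext a
    exact hW a
  have h2 : ev t θ ((qpoly W).map (mapRingHom (mapRingHom φ))) ≠ 0 := by
    rw [h1]
    refine mul_ne_zero (by simpa using hd) ?_
    rw [Ne, vpoly_eq_zero_iff]
    exact hy
  refine ⟨h2, ?_⟩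
  rw [← hgtP_eq_H h _ M ((natDegree_map_le).trans hM) h2, h1, hgtP_C_mul h hd, hgt_eq_hgtP]

end

theorem evR_C_ne_zero {F K : Type*} [Field F] [Field K] [Algebra F K] {R : Type*} [CommRing R]
    (φ : R →+* F) {t θ : K} (ht : Transcendental F t) {D : R[X]} (hD : D.map φ ≠ 0) :
    evR φ t θ (C D) ≠ 0 := by
  rw [evR_eq, Polynomial.map_C, eval₂_C]
  intro h
  apply hD
  exact (transcendental_iff.1 ht) _ h

/-- **Reduction of heights.** -/
theorem reduction {K : Type} [Field K] [Algebra Qb K] [IsFF Qb K] {σ : Type} [Fintype σ] (x : σ → K)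
    (rel : Finset (MvPolynomial σ ℤ)) (hrel : ∀ r ∈ rel, MvPolynomial.aeval x r = 0)
    {L : Type} [Fintype L] {ι : L → Type} [∀ l, Fintype (ι l)] (V : ∀ l, ι l → MvPolynomial σ ℤ)
    (hV : ∀ l, ∃ a, MvPolynomial.aeval x (V l a) ≠ 0) :
    ∃ N : ℕ, ∀ p : ℕ, ∀ _ : Fact p.Prime, N < p →
      ∃ (I : Type) (_ : Fintype I) (Ki : I → Type) (_ : ∀ i, Field (Ki i))
        (_ : ∀ i, Algebra (Fb p) (Ki i)) (e : I → ℕ) (xi : ∀ i, σ → Ki i),
        (∀ i, IsFF (Fb p) (Ki i)) ∧ (∀ i, 0 < e i) ∧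
        (∀ i, ∀ r ∈ rel, MvPolynomial.aeval (xi i) r = 0) ∧
        (∀ i l, ∃ a, MvPolynomial.aeval (xi i) (V l a) ≠ 0) ∧
        ∀ l, hgt Qb (fun a => MvPolynomial.aeval x (V l a)) =
          ∑ i, (e i : ℤ) * hgt (Fb p) (fun a => MvPolynomial.aeval (xi i) (V l a)) := by
  classical
  obtain ⟨t, θ, P, Fj, D, hPm, hgen, hD0, hFj⟩ := exists_gen x
  -- evaluation of `x` via `Fj / D`
  set io : Zb →+* Qb := algebraMap Zb Qb with hio
  have hioinj : Function.Injective io := Subtype.val_injective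
  have hDio : D.map io ≠ 0 := by
    rwa [Ne, Polynomial.map_eq_zero_iff hioinj]
  have hDev : evR io t θ (C D) ≠ 0 := evR_C_ne_zero io hgen.tr hDio
  have hx : (fun j => evR io t θ (Fj j) / evR io t θ (C D)) = x := by
    funext j
    rw [← hFj j, mul_div_assoc, div_self hDev, mul_one]
  -- homogenization of the relations
  obtain ⟨N0, W0, hW0⟩ := homog Fj D (fun r : rel => (r : MvPolynomial σ ℤ))
  have hdvd : ∀ r : rel, P ∣ W0 r := by
    intro r
    apply dvd_of_ev_eq_zero hPm hgen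
    rw [hW0 K _ (evR io t θ) hDev r, hx, hrel r.1 r.2, mul_zero]
  -- homogenization of the vectors
  choose Nl Wl hWl using fun l : L => homog Fj D (V l)
  let M : L → ℕ := fun l => (qpoly (Wl l)).natDegree
  let G : L → Zb[X][X] := fun l => NF P (qpoly (Wl l)) (M l)
  have hGmap : ∀ (S : Type) [Field S] (φ : Zb →+* S) (l : L), (G l).map (mapRingHom φ) =
      NF (P.map (mapRingHom φ)) ((qpoly (Wl l)).map (mapRingHom (mapRingHom φ))) (M l) := by
    intro S _ φ l
    exact (NF_map φ hPm _ _).symm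
  have hy : ∀ l, (fun a => MvPolynomial.aeval x (V l a)) ≠ 0 := by
    intro l h
    obtain ⟨a, ha⟩ := hV l
    exact ha (congrFun h a)
  have hQ : ∀ l, (G l).map (mapRingHom io) ≠ 0 ∧
      hgt Qb (fun a => MvPolynomial.aeval x (V l a)) = H ((G l).map (mapRingHom io)) := by
    intro l
    have h1 := hgt_via_NF io hgen (Wl l) (fun a => MvPolynomial.aeval x (V l a))
      (evR io t θ (C D) ^ Nl l) (pow_ne_zero _ hDev) (by
        intro a
        rw [hWl l K _ (evR io t θ) hDev a, hx]) (hy l) (M l) le_rfl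
    rw [hGmap]
    refine ⟨?_, h1.2⟩
    rw [NF_ne_zero_iff hgen _ _ (natDegree_map_le)]
    exact h1.1
  have hG0 : ∀ l, G l ≠ 0 := by
    intro l h
    apply (hQ l).1
    rw [h, Polynomial.map_zero]
  choose NH hNH using fun l => H_red (hG0 l)
  obtain ⟨c, hc⟩ : ∃ n, D.coeff n ≠ 0 := by
    by_contra hcon
    push Not at hcon
    exact hD0 (Polynomial.ext (by simpa using hcon))
  obtain ⟨ND, hND⟩ := eventually_ne hc
  refine ⟨ND + P.natDegree + ∑ l, NH l, ?_⟩
  intro p hp hlt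
  obtain ⟨ρ⟩ := exists_rho p
  have hDρ : D.map ρ ≠ 0 := by
    intro h
    apply hND p hp (by omega) ρ
    rw [← Polynomial.coeff_map, h, Polynomial.coeff_zero]
  have hred : ∀ l, (G l).map (mapRingHom ρ) ≠ 0 ∧
      H ((G l).map (mapRingHom ρ)) = H ((G l).map (mapRingHom io)) := by
    intro l
    refine hNH l p hp ?_ ρ
    have : NH l ≤ ∑ l, NH l := Finset.single_le_sum (fun _ _ => Nat.zero_le _) (Finset.mem_univ l)
    omega
  -- factorization
  have hPρ : (P.map (mapRingHom ρ)).Monic := hPm.map _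
  obtain ⟨s, e, hs, hprod⟩ := exists_factor hPρ
  have hdeg : ∀ Q ∈ s, Q.natDegree < p := by
    intro Q hQs
    have h1 : Q ∣ P.map (mapRingHom ρ) := by
      rw [hprod]
      exact (dvd_pow_self Q (hs Q hQs).2.2.ne').trans (Finset.dvd_prod_of_mem _ hQs)
    have h2 := natDegree_le_of_dvd h1 hPρ.ne_zero
    rw [hPm.natDegree_map] at h2
    omega
  have hK : ∀ Q : s, ∃ (K : Type) (_ : Field K) (_ : Algebra (Fb p) K) (t θ : K), Gen (Fb p) K t θ Q.1 := by
    intro Q
    have : CharP (Fb p) p := inferInstance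
    exact exists_K (hs Q.1 Q.2).1 (hs Q.1 Q.2).2.1
      (separable_of_lt (hs Q.1 Q.2).1 (hs Q.1 Q.2).2.1 p (hdeg Q.1 Q.2))
  choose Ki iF iA ti θi hgi using hK
  have hDi : ∀ Q : s, evR ρ (ti Q) (θi Q) (C D) ≠ 0 := fun Q => evR_C_ne_zero ρ (hgi Q).tr hDρ
  let xi : ∀ Q : s, σ → Ki Q := fun Q j => evR ρ (ti Q) (θi Q) (Fj j) / evR ρ (ti Q) (θi Q) (C D)
  have hNFprod : ∀ l, (G l).map (mapRingHom ρ) =
      ∏ Q ∈ s, NF Q ((qpoly (Wl l)).map (mapRingHom (mapRingHom ρ))) (M l) ^ e Q := by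
    intro l
    rw [hGmap, hprod, NF_prod_pow s (fun Q => Q) e (fun Q hQs => (hs Q hQs).1) _ _ (natDegree_map_le)]
  have hNF0 : ∀ l, ∀ Q ∈ s, NF Q ((qpoly (Wl l)).map (mapRingHom (mapRingHom ρ))) (M l) ≠ 0 := by
    intro l Q hQs h0
    apply (hred l).1
    rw [hNFprod l]
    apply Finset.prod_eq_zero hQs
    rw [h0, zero_pow (hs Q hQs).2.2.ne']
  have hVi : ∀ (Q : s) (l : L) (a : ι l), evR ρ (ti Q) (θi Q) (Wl l a) =
      evR ρ (ti Q) (θi Q) (C D) ^ Nl l * MvPolynomial.aeval (xi Q) (V l a) := by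
    intro Q l a
    exact hWl l (Ki Q) (iF Q) (evR ρ (ti Q) (θi Q)) (hDi Q) a
  have hyi : ∀ (Q : s) (l : L), (fun a => MvPolynomial.aeval (xi Q) (V l a)) ≠ 0 := by
    intro Q l h0
    have h1 := (NF_ne_zero_iff (hgi Q) ((qpoly (Wl l)).map (mapRingHom (mapRingHom ρ))) (M l)
      (natDegree_map_le)).1 (hNF0 l Q.1 Q.2)
    apply h1
    rw [ev_qpoly]
    rw [vpoly_eq_zero_iff]
    funext a
    rw [hVi Q l a]
    have := congrFun h0 a
    simp only [Pi.zero_apply] at this ⊢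
    rw [this, mul_zero]
  refine ⟨s, inferInstance, Ki, iF, iA, fun Q => e Q.1, xi, fun Q => (hgi Q).isFF, fun Q => (hs Q.1 Q.2).2.2,
    ?_, ?_, ?_⟩
  · intro Q r hr
    have h1 := hW0 (Ki Q) (iF Q) (evR ρ (ti Q) (θi Q)) (hDi Q) ⟨r, hr⟩
    obtain ⟨U, hU⟩ := hdvd ⟨r, hr⟩
    have h2 : evR ρ (ti Q) (θi Q) P = 0 := by
      rw [evR_eq, hprod]
      have h3 : Q.1 ∣ ∏ Q ∈ s, Q ^ e Q :=
        (dvd_pow_self Q.1 (hs Q.1 Q.2).2.2.ne').trans (Finset.dvd_prod_of_mem (fun Q => Q ^ e Q) Q.2)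
      obtain ⟨U', hU'⟩ := h3
      rw [hU', eval₂_mul, (hgi Q).root, zero_mul]
    rw [hU, map_mul, h2, zero_mul] at h1
    have h4 := (mul_eq_zero.1 h1.symm).resolve_left (pow_ne_zero _ (hDi Q))
    exact h4
  · intro Q l
    by_contra hcon
    push Not at hcon
    exact hyi Q l (funext hcon)
  · intro l
    rw [(hQ l).2, ← (hred l).2, hNFprod l, H_prod_pow s _ e (hNF0 l), ← Finset.sum_coe_sort]
    refine Finset.sum_congr rfl fun Q _ => ?_
    congr 1
    exact (hgt_via_NF ρ (hgi Q) (Wl l) (fun a => MvPolynomial.aeval (xi Q) (V l a))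
      (evR ρ (ti Q) (θi Q) (C D) ^ Nl l) (pow_ne_zero _ (hDi Q)) (hVi Q l) (hyi Q l) (M l) le_rfl).2.symm

end H116RR
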