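import Pool.Agent.Helper116.RR.Defs

set_option autoImplicit false
set_option linter.all false

namespace H116RR

open Polynomial

variable {R : Type*} [CommRing R] {F : Type*} [Field F]

theorem tdeg_mul_coeff (p : R[X][X]) (i j : ℕ) :
    ((Bivariate.swap p).coeff j).coeff i = (p.coeff i).coeff j := by
  induction p using Polynomial.induction_on' with
  | add p q hp hq => rw [map_add, coeff_add, coeff_add, coeff_add, coeff_add, hp, hq]
  | monomial n f =>
    induction f using Polynomial.induction_on' with
    | add f g hf hg =>
      rw [map_add, map_add, coeff_add, coeff_add, coeff_add, coeff_add, hf, hg]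
    | monomial m r =>
      rw [Bivariate.swap_monomial_monomial]
      simp only [coeff_monomial]
      split_ifs <;> simp [coeff_monomial, *]

theorem tdeg_mul_eq (G : R[X][X]) : tdeg G = (Bivariate.swap G).natDegree := by
  apply le_antisymm
  · unfold tdeg
    apply Finset.sup_le
    intro i _
    rw [natDegree_le_iff_coeff_eq_zero]
    intro N hN
    rw [← tdeg_mul_coeff, coeff_eq_zero_of_natDegree_lt hN, coeff_zero]
  · rw [natDegree_le_iff_coeff_eq_zero]
    intro N hN
    ext i
    rw [tdeg_mul_coeff, coeff_zero]
    by_cases hi : i ∈ G.support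
    · have h1 : (G.coeff i).natDegree ≤ tdeg G :=
        Finset.le_sup (f := fun i => (G.coeff i).natDegree) hi
      exact coeff_eq_zero_of_natDegree_lt (h1.trans_lt hN)
    · rw [notMem_support_iff.1 hi, coeff_zero]

theorem tdeg_mul [IsDomain R] {G1 G2 : R[X][X]} (h1 : G1 ≠ 0) (h2 : G2 ≠ 0) :
    tdeg (G1 * G2) = tdeg G1 + tdeg G2 := by
  rw [tdeg_mul_eq, tdeg_mul_eq, tdeg_mul_eq, map_mul]
  exact natDegree_mul (by simpa using h1) (by simpa using h2)

end H116RR
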